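import Pool.Agent.Lib.MP_1c0d65_gt.F.LM
import Pool.Agent.Lib.MP_1c0d65_gt.PW.Plot

/-! Invariant functions on the model space descend to the total space of the degeneration. -/

set_option autoImplicit false

open scoped Manifold ContDiff Topology
open Set Filter Metric

noncomputable section

namespace Pool.Agent.Lib.MP_1c0d65_gt.PW.Fd

variable {X : Type} [TopologicalSpace X] [ChartedSpace E X] {om : X → Bil E ℝ} {L V : Set X}
  {W : Type} [NormedAddCommGroup W] [NormedSpace ℝ W]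

open Classical in
/-- The descent of a function on the model space, extended by zero. -/
def LM.dsc (M : LM om L V) (m : C3 → W) (w : ℝ × X) : W :=
  if h : ∃ a ∈ Dm M.p M.δ, fq M.p a = w.1 ∧ M.G a = w.2 then m h.choose
  else if w.1 = 0 ∧ w.2 ∈ L then m 0 else 0

/-- Smooth invariant functions with compact support in the ball. -/
structure LM.Adm (M : LM om L V) (m : C3 → W) : Prop where
  sm : ContDiff ℝ ∞ m
  inv : ∀ ζ : ℂ, ζ ^ M.p = 1 → ∀ a, m (act M.q ζ a) = m a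
  supp : ∃ ρ < M.δ, ∀ a, ρ < ‖a‖ → m a = 0

variable {M : LM om L V} {m : C3 → W} {a : C3} {t : ℝ} {x : X}

theorem LM.Adm.dsc_G (h : M.Adm m) (ha : a ∈ Dm M.p M.δ) (ht : fq M.p a = t) :
    M.dsc m (t, M.G a) = m a := by
  have h1 : ∃ b ∈ Dm M.p M.δ, fq M.p b = (t, M.G a).1 ∧ M.G b = (t, M.G a).2 := ⟨a, ha, ht, rfl⟩
  rw [LM.dsc, dif_pos h1]
  obtain ⟨h2, h3, h4⟩ := h1.choose_spec
  obtain ⟨ζ, hζ, e⟩ := (M.cov.fb _ h2 a ha (h3.trans ht.symm)).1 h4
  rw [← h.inv ζ hζ, ← e]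

omit [NormedSpace ℝ W] in
theorem LM.dsc_L (M : LM om L V) (m : C3 → W) (hx : x ∈ L) : M.dsc m (0, x) = m 0 := by
  rw [LM.dsc, dif_neg, if_pos ⟨rfl, hx⟩]
  rintro ⟨a, ha, h1, h2⟩
  exact M.nc a ha (by simpa using h1) (h2 ▸ hx)

omit [NormedSpace ℝ W] in
theorem LM.dsc_cases (M : LM om L V) (m : C3 → W) (w : ℝ × X) : M.dsc m w = 0 ∨
    (∃ a ∈ Dm M.p M.δ, fq M.p a = w.1 ∧ M.G a = w.2 ∧ M.dsc m w = m a) ∨
      (w.1 = 0 ∧ w.2 ∈ L ∧ M.dsc m w = m 0) := by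
  unfold LM.dsc
  split_ifs with h1 h2
  · exact .inr (.inl ⟨_, h1.choose_spec.1, h1.choose_spec.2.1, h1.choose_spec.2.2, rfl⟩)
  · exact .inr (.inr ⟨h2.1, h2.2, rfl⟩)
  · exact .inl rfl

omit [NormedSpace ℝ W] in
theorem LM.dsc_out (M : LM om L V) (m : C3 → W) {w : ℝ × X} (hw : w.2 ∉ V) : M.dsc m w = 0 := by
  rcases M.dsc_cases m w with h | ⟨a, ha, -, h, -⟩ | ⟨-, h, -⟩
  · exact h
  · exact absurd (h ▸ M.into a ha) hw
  · exact absurd (M.UV (M.LU h)) hw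

theorem LM.Adm.dsc_contL (h : M.Adm m) (hx : x ∈ L) :
    ContinuousWithinAt (M.dsc m) (Ici 0 ×ˢ univ) (0, x) := by
  rw [ContinuousWithinAt, M.dsc_L m hx]
  intro N hN
  obtain ⟨r, hr, h1⟩ := Metric.mem_nhds_iff.1 (h.sm.continuous.continuousAt.preimage_mem_nhds hN)
  obtain ⟨U, hU, hLU, t0, ht0, h2⟩ := M.onto r hr
  have h3 : ∀ᶠ w : ℝ × X in 𝓝 (0, x), w.1 < t0 ∧ w.2 ∈ U :=
    (continuousAt_fst.eventually (gt_mem_nhds ht0)).and
      (continuousAt_snd.preimage_mem_nhds (hU.mem_nhds (hLU hx)))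
  rw [mem_map]
  filter_upwards [mem_nhdsWithin_of_mem_nhds h3, self_mem_nhdsWithin]
  rintro ⟨t, y⟩ ⟨h4, h5⟩ ⟨h6, -⟩
  by_cases h7 : t = 0 ∧ y ∈ L
  · obtain ⟨rfl, h7⟩ := h7
    rw [mem_preimage, M.dsc_L m h7]
    exact mem_of_mem_nhds hN
  · obtain ⟨a, ha, h8, h9, rfl⟩ := h2 y h5 t h6 h4.le fun e h => h7 ⟨e, h⟩
    rw [mem_preimage, h.dsc_G ha h9]
    exact h1 (by simpa using h8)

theorem LM.Adm.dsc_zero [T2Space X] [CompactSpace X] (h : M.Adm m)
    (h1 : ¬ ∃ a ∈ Dm M.p M.δ, fq M.p a = t ∧ M.G a = x) (h2 : ¬ (t = 0 ∧ x ∈ L)) :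
    ∀ᶠ w in 𝓝 (t, x), M.dsc m w = 0 := by
  obtain ⟨ρ, hρ, hs⟩ := h.supp
  have hq := (contDiff_fq M.p).continuous
  obtain ⟨r, hr, h3⟩ : ∃ r > 0, ∀ᶠ w : ℝ × X in 𝓝 (t, x), ¬ (w.1 = 0 ∧ w.2 ∈ L) ∧
      ∀ a ∈ Dm M.p M.δ, ‖a‖ < r → fq M.p a = w.1 → M.G a ≠ w.2 := by
    by_cases ht : t = 0
    · obtain ⟨N, U, hN, hU, hx, hL, hd⟩ := normal_separation (isClosed_singleton (x := x)) M.closed
        (disjoint_singleton_left.2 fun h => h2 ⟨ht, h⟩)
      obtain ⟨r, hr, h3⟩ := M.near U hU hL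
      refine ⟨r, hr, ?_⟩
      filter_upwards [continuousAt_snd.preimage_mem_nhds (hN.mem_nhds (hx rfl))] with w hw
      exact ⟨fun h => disjoint_left.1 hd hw (hL h.2),
        fun a ha h4 _ e => disjoint_left.1 hd hw (e ▸ h3 a ha h4)⟩
    · have h0 : 0 < |t| / 2 := half_pos (abs_pos.2 ht)
      have h3 : ∀ᶠ a in 𝓝 (0 : C3), ‖fq M.p a‖ < |t| / 2 :=
        hq.norm.continuousAt.eventually (gt_mem_nhds (by simpa [fq, M.cov.hp] using h0))
      obtain ⟨r, hr, h4⟩ := Metric.eventually_nhds_iff.1 h3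
      refine ⟨r, hr, ?_⟩
      have h5 : ∀ᶠ w : ℝ × X in 𝓝 (t, x), |t| / 2 < |w.1| :=
        (continuous_fst.abs.continuousAt (x := (t, x))).eventually
          (lt_mem_nhds (half_lt_self (abs_pos.2 ht)))
      filter_upwards [h5] with w hw
      refine ⟨fun h => ?_, fun a _ h6 e _ => ?_⟩
      · rw [h.1, abs_zero] at hw
        exact h0.not_gt hw
      · have h7 := h4 (y := a) (by simpa using h6)
        rw [e, Complex.norm_real, Real.norm_eq_abs] at h7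
        exact h7.not_gt hw
  set S : Set C3 := {a | r ≤ ‖a‖ ∧ ‖a‖ ≤ ρ ∧ (fq M.p a).im = 0 ∧ 0 ≤ (fq M.p a).re} with hS
  have hSD : S ⊆ Dm M.p M.δ := fun a ha =>
    ⟨ha.2.1.trans_lt hρ, norm_pos_iff.1 (hr.trans_le ha.1), ha.2.2⟩
  have hc : IsCompact S := by
    refine (isCompact_closedBall (0 : C3) ρ).of_isClosed_subset ?_ fun a ha => by simpa using ha.2.1
    exact (isClosed_le continuous_const continuous_norm).inter
      ((isClosed_le continuous_norm continuous_const).inter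
      ((isClosed_eq (Complex.continuous_im.comp hq) continuous_const).inter
      (isClosed_le continuous_const (Complex.continuous_re.comp hq))))
  have hc' : IsClosed ((fun a => ((fq M.p a).re, M.G a)) '' S) :=
    (hc.image_of_continuousOn ((Complex.continuous_re.comp hq).continuousOn.prodMk
      fun a ha => (M.cov.md (hSD ha)).continuousAt.continuousWithinAt)).isClosed
  have h4 : (t, x) ∉ (fun a => ((fq M.p a).re, M.G a)) '' S := by
    rintro ⟨a, ha, e⟩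
    refine h1 ⟨a, hSD ha, ?_, congrArg Prod.snd e⟩
    rw [Dm.fq_eq (hSD ha), show (fq M.p a).re = t from congrArg Prod.fst e]
  filter_upwards [h3, hc'.isOpen_compl.mem_nhds h4] with w h5 h6
  rcases M.dsc_cases m w with h7 | ⟨a, ha, h7, h8, h9⟩ | ⟨h7, h8, -⟩
  · exact h7
  · rw [h9]
    refine hs a (not_le.1 fun h10 => h6 ⟨a, ⟨not_lt.1 fun h11 => h5.2 a ha h11 h7 h8, h10, ha.2.2⟩,
      Prod.ext (by simp [h7]) h8⟩)
  · exact absurd ⟨h7, h8⟩ h5.1

variable [IsManifold 𝓘(ℝ, E) ∞ X]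

theorem LM.Adm.dsc_loc [T2Space X] [CompactSpace X] (h : M.Adm m) (h2 : ¬ (t = 0 ∧ x ∈ L)) :
    ∃ φ : ℝ × E → W, (∀ᶠ q in 𝓝 (t, chartAt E x x), ContDiffAt ℝ ∞ φ q ∧
      (0 ≤ q.1 → φ q = M.dsc m (q.1, par x q.2))) ∧
      ∀ a ∈ Dm M.p M.δ, fq M.p a = t → M.G a = x →
        (∀ b ∈ Dm M.p M.δ, fq M.p b = t → m b = m a → ∀ v, fderiv ℝ m b v = 0 → v = 0) →
        ∀ v, fderiv ℝ φ (t, chartAt E x x) (0, v) = 0 → v = 0 := by
  have hx : chartAt E x x ∈ dom x univ := mem_dom (mem_chart_source E x) trivial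
  by_cases h1 : ∃ a ∈ Dm M.p M.δ, fq M.p a = t ∧ M.G a = x
  · obtain ⟨a, ha, ht, rfl⟩ := h1
    obtain ⟨σ, hσ⟩ := (M.cov.et ha).exists_sig (M.cov.sm a ha) (mem_chart_source E (M.G a))
    let j : ℝ × E →L[ℝ] ℂ × E := Complex.ofRealCLM.prodMap (ContinuousLinearMap.id ℝ E)
    have hj : Tendsto j (𝓝 (t, chartAt E (M.G a) (M.G a)))
        (𝓝 (fq M.p a, chartAt E (M.G a) (M.G a))) := by
      rw [ht]; exact j.continuous.continuousAt
    have hv : σ (j (t, chartAt E (M.G a) (M.G a))) = a := by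
      have := hσ.val
      rwa [ht] at this
    have hs : ∀ᶠ q in 𝓝 (t, chartAt E (M.G a) (M.G a)), ContDiffAt ℝ ∞ (σ ∘ j) q :=
      (hj.eventually hσ.sm).mono fun q hq => hq.comp q j.contDiff.contDiffAt
    have hc : Tendsto (σ ∘ j) (𝓝 (t, chartAt E (M.G a) (M.G a))) (𝓝 a) := by
      have := hs.self_of_nhds.continuousAt
      rwa [ContinuousAt, Function.comp_apply, hv] at this
    refine ⟨m ∘ σ ∘ j, ?_, fun b hb hbt hbG hi v hv0 => ?_⟩
    · filter_upwards [hs, hj.eventually hσ.right, hc.eventually (Dm.ev ha)] with q h3 h4 h5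
      refine ⟨h.sm.contDiffAt.comp q h3, fun h6 => ?_⟩
      rw [show par (M.G a) q.2 = M.G (σ (j q)) from h4.2.symm]
      exact (h.dsc_G (t := q.1) (h5 _ h6 h4.1) h4.1).symm
    · have hd := hs.self_of_nhds.differentiableAt (by simp)
      rw [fderiv_comp _ (h.sm.differentiable (by simp) _) hd, Function.comp_apply, hv] at hv0
      have h3 : fderiv ℝ (σ ∘ j) (t, chartAt E (M.G a) (M.G a)) (0, v) = 0 :=
        hi a ha ht (by rw [← h.dsc_G ha ht, ← hbG, h.dsc_G hb hbt]) _ hv0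
      have h4 : HasFDerivAt (fun y : E => (t, y)) (ContinuousLinearMap.inr ℝ ℝ E)
          (chartAt E (M.G a) (M.G a)) := hasFDerivAt_prodMk_right _ _
      have h5 := hd.hasFDerivAt.comp _ h4
      have h6 := ((M.cov.et ha).lf_lift (t := t) (f := par (M.G a)) (M.cov.md ha)
        h5.differentiableAt hv (h4.continuousAt.eventually (hj.eventually hσ.right)) v).2.1
      rw [h5.fderiv, dif_par_self] at h6
      have h7 : dif M.G a (fderiv ℝ (σ ∘ j) (t, chartAt E (M.G a) (M.G a)) (0, v)) = v := h6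
      rw [← h7, h3, map_zero]
  · refine ⟨fun _ => 0, ?_, fun a ha h3 h4 => absurd ⟨a, ha, h3, h4⟩ h1⟩
    have h3 : Tendsto (fun q : ℝ × E => (q.1, par x q.2)) (𝓝 (t, chartAt E x x)) (𝓝 (t, x)) := by
      have h4 := (par_smAt hx).continuousAt
      rw [ContinuousAt, par_self] at h4
      exact continuousAt_fst.prodMk_nhds (h4.comp continuousAt_snd)
    filter_upwards [h3.eventually (h.dsc_zero h1 h2)] with q hq
    exact ⟨contDiffAt_const, fun _ => hq.symm⟩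

theorem LM.Adm.dsc_cont [T2Space X] [CompactSpace X] (h : M.Adm m) :
    ContinuousOn (M.dsc m) (Ici 0 ×ˢ univ) := by
  rintro ⟨t, x⟩ hw
  by_cases h2 : t = 0 ∧ x ∈ L
  · obtain ⟨rfl, h2⟩ := h2
    exact h.dsc_contL h2
  · obtain ⟨φ, h3, -⟩ := h.dsc_loc h2
    have h4 : ContinuousAt (fun w : ℝ × X => (w.1, chartAt E x w.2)) (t, x) :=
      continuousAt_fst.prodMk (ContinuousAt.comp (g := chartAt E x)
        ((chartAt E x).continuousAt (mem_chart_source E x)) continuousAt_snd)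
    have h5 := ContinuousAt.comp (g := φ) (x := (t, x)) h3.self_of_nhds.1.continuousAt h4
    refine h5.continuousWithinAt.congr_of_eventuallyEq_of_mem ?_ hw
    have h6 : ∀ᶠ w : ℝ × X in 𝓝 (t, x), w.2 ∈ (chartAt E x).source :=
      continuousAt_snd.preimage_mem_nhds ((chartAt E x).open_source.mem_nhds (mem_chart_source E x))
    filter_upwards [mem_nhdsWithin_of_mem_nhds (h4.eventually h3), mem_nhdsWithin_of_mem_nhds h6,
      self_mem_nhdsWithin] with w h7 h8 h9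
    have h10 := h7.2 h9.1
    rw [par_cht h8] at h10
    exact h10.symm

/-- Local lifts of curves that are holomorphic for the pushed structure. -/
theorem LM.Adm.dsc_hol (h : M.Adm m) (ha : a ∈ Dm M.p M.δ) (ht : fq M.p a = t) {u : ℂ → X}
    {z : ℂ} (hu : SmAt ∞ u z) (e : M.G a = u z)
    (hJ : dif u z .I = pushJ M.p M.G a (dif u z 1)) : ∃ c : ℂ → C3, ContDiffAt ℝ ∞ c z ∧
      DifferentiableAt ℂ c z ∧ c z = a ∧ (∀ᶠ w in 𝓝 z, M.dsc m (t, u w) = m (c w)) ∧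
      M.cc * ‖fderiv ℝ c z‖ ^ 2 ≤ pull2 u om z 1 .I := by
  have hx := mem_chart_source E (M.G a)
  obtain ⟨s, h1, h2, h3⟩ := M.cov.sec ha hx
  have h4 : ContDiffAt ℝ ∞ (fun w => chartAt E (M.G a) (u w)) z := contDiffAt_chart hu (e ▸ hx)
  have h1' : ContDiffAt ℝ ∞ s (chartAt E (M.G a) (u z)) := e ▸ h1
  have h5 : ContDiffAt ℝ ∞ (fun w => s (chartAt E (M.G a) (u w))) z := h1'.comp z h4
  have h6 : s (chartAt E (M.G a) (u z)) = a := e ▸ h2
  have h7 : ∀ᶠ w in 𝓝 z, s (chartAt E (M.G a) (u w)) ∈ Dm M.p M.δ ∧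
      fq M.p (s (chartAt E (M.G a) (u w))) = t ∧ M.G (s (chartAt E (M.G a) (u w))) = u w := by
    have h8 : Tendsto (fun w => chartAt E (M.G a) (u w)) (𝓝 z) (𝓝 (chartAt E (M.G a) (M.G a))) := by
      have := h4.continuousAt
      rwa [ContinuousAt, ← e] at this
    filter_upwards [h8.eventually h3, hu.continuousAt.preimage_mem_nhds
      ((chartAt E (M.G a)).open_source.mem_nhds (e ▸ hx))] with w h9 h10
    exact ⟨h9.1, h9.2.1.trans ht, h9.2.2.trans (par_cht h10)⟩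
  set c := fun w => s (chartAt E (M.G a) (u w)) with hc
  have hd := h5.differentiableAt (by simp)
  have et := M.cov.et ha
  have h8 := et.lf_lift (f := u) (M.cov.md ha) hd h6 (h7.mono fun w hw => hw.2)
  have h9 : fderiv ℝ c z .I = Complex.I • fderiv ℝ c z 1 := by
    rw [← (h8 .I).2.2, hJ, ← (h8 1).2.1, et.pushJ_dif (h8 1).1,
      et.lf_dif (by rw [dq_I, (h8 1).1, mul_zero])]
  have h10 : ∀ v : ℂ, fderiv ℝ c z v = v • fderiv ℝ c z 1 := fun v => by
    rw [show fderiv ℝ c z v = fderiv ℝ c z (v.re • (1 : ℂ) + v.im • Complex.I) by simp, map_add,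
      map_smul, map_smul, h9, ← Complex.coe_smul, ← Complex.coe_smul, smul_smul, ← add_smul,
      Complex.re_add_im]
  refine ⟨c, h5, ?_, h6, h7.mono fun w hw => ?_, ?_⟩
  · refine (hasFDerivAt_of_restrictScalars ℝ
      (f' := ContinuousLinearMap.toSpanSingleton ℂ (fderiv ℝ c z 1)) hd.hasFDerivAt ?_).differentiableAt
    exact ContinuousLinearMap.ext fun v => (h10 v).symm
  · rw [← h.dsc_G hw.1 hw.2.1, hw.2.2]
  · have h11 : ‖fderiv ℝ c z‖ ≤ ‖fderiv ℝ c z 1‖ :=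
      ContinuousLinearMap.opNorm_le_bound _ (norm_nonneg _) fun v => by
        rw [h10 v, norm_smul, mul_comm]
    have h12 := M.cov.sy a ha _ _ (h8 1).1 (h8 .I).1
    rw [(h8 1).2.1, (h8 .I).2.1, h9, e] at h12
    refine le_trans ?_ h12.ge
    exact mul_le_mul_of_nonneg_left
      ((pow_le_pow_left₀ (norm_nonneg _) h11 2).trans (sq_le_std _)) M.cov.hc.le

end Pool.Agent.Lib.MP_1c0d65_gt.PW.Fd
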