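import Pool.Agent.Lib.MP_1c0d65_gt.F.Fib

/-! Symplectic coverings of open subsets of `X` by pieces of the fibres of `x y - z ^ p`. -/

set_option autoImplicit false

open scoped Manifold ContDiff Topology
open Set Filter Metric

noncomputable section

namespace Pool.Agent.Lib.MP_1c0d65_gt.PW.Fd

variable {X : Type} [TopologicalSpace X] [ChartedSpace E X]
  {V : Type} [NormedAddCommGroup V] [NormedSpace ℝ V]

/-- On each fibre, `G` is a symplectic quotient map of `A` by the roots of unity. -/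
structure Cov (om : X → Bil E ℝ) (p q : ℕ) (cc : ℝ) (G : C3 → X) (A : Set C3) : Prop where
  hp : p ≠ 0
  hc : 0 < cc
  sm : ∀ a ∈ A, ∀ᶠ b in 𝓝 a, ContMDiffAt 𝓘(ℝ, C3) 𝓘(ℝ, E) ∞ G b
  sy : ∀ a ∈ A, ∀ v w, dq p a v = 0 → dq p a w = 0 →
    om (G a) (dif G a v) (dif G a w) = cc * std v w
  fb : ∀ a ∈ A, ∀ b ∈ A, fq p a = fq p b → (G a = G b ↔ ∃ ζ, ζ ^ p = 1 ∧ b = act q ζ a)
  op : ∀ a ∈ A, ∀ᶠ b in 𝓝 a, fq p b = fq p a → b ∈ A

/-- The complex structure of the fibre, pushed forward. -/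
def pushJ (p : ℕ) (G : C3 → X) (a : C3) : E →L[ℝ] E := (dif G a).comp (mI.comp (lf p G a))

/-- The Liouville form of the fibre, pushed forward. -/
def pushL (p : ℕ) (cc : ℝ) (G : C3 → X) (a : C3) : E →L[ℝ] ℝ :=
  ((cc / 2) • stdL a).comp (lf p G a)

variable {om : X → Bil E ℝ} {p q : ℕ} {cc : ℝ} {G : C3 → X} {A : Set C3} {a b : C3}

theorem Cov.et (h : Cov om p q cc G A) (ha : a ∈ A) : Et p G a := by
  intro v hv h0
  by_contra hne
  have h1 := h.sy a ha v (Complex.I • v) hv (by rw [dq_I, hv, mul_zero])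
  rw [h0, map_zero, zero_apply] at h1
  exact (mul_pos h.hc (std_pos hne)).ne h1

theorem Cov.sm1 (h : Cov om p q cc G A) (ha : a ∈ A) : ContMDiffAt 𝓘(ℝ, C3) 𝓘(ℝ, E) ∞ G a :=
  (h.sm a ha).self_of_nhds

theorem Cov.md (h : Cov om p q cc G A) (ha : a ∈ A) : MDifferentiableAt 𝓘(ℝ, C3) 𝓘(ℝ, E) G a :=
  (h.sm1 ha).mdifferentiableAt (by simp)

theorem Cov.mono (h : Cov om p q cc G A) {B : Set C3} (hB : IsOpen B) :
    Cov om p q cc G (A ∩ B) :=
  ⟨h.hp, h.hc, fun a ha => h.sm a ha.1, fun a ha => h.sy a ha.1,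
    fun a ha b hb => h.fb a ha.1 b hb.1, fun a ha => by
      filter_upwards [h.op a ha.1, hB.mem_nhds ha.2] with b h1 h2 h3 using ⟨h1 h3, h2⟩⟩

theorem Et.pushJ_dif (h : Et p G a) {v : C3} (hv : dq p a v = 0) :
    pushJ p G a (dif G a v) = dif G a (Complex.I • v) := by
  simp [pushJ, h.lf_dif hv]

theorem Et.pushJ_sq (h : Et p G a) (w : E) : pushJ p G a (pushJ p G a w) = -w := by
  have h1 : pushJ p G a w = dif G a (Complex.I • lf p G a w) := rfl
  rw [h1, h.pushJ_dif (by rw [dq_I, h.dq_lf, mul_zero]), smul_smul, Complex.I_mul_I, neg_smul,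
    one_smul, map_neg, h.dif_lf]

theorem Cov.pushJ_pos (h : Cov om p q cc G A) (ha : a ∈ A) (w : E) (hw : w ≠ 0) :
    0 < om (G a) w (pushJ p G a w) := by
  have e := h.et ha
  have h1 : pushJ p G a w = dif G a (Complex.I • lf p G a w) := rfl
  have h2 := h.sy a ha _ (Complex.I • lf p G a w) (e.dq_lf w) (by rw [dq_I, e.dq_lf, mul_zero])
  rw [e.dif_lf] at h2
  rw [h1, h2]
  refine mul_pos h.hc (std_pos fun h0 => hw ?_)
  rw [← e.dif_lf w, h0, map_zero]

/-- The differential of a local lift. -/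
theorem Et.lf_lift (h : Et p G a) (hG : MDifferentiableAt 𝓘(ℝ, C3) 𝓘(ℝ, E) G a) {c : V → C3}
    {f : V → X} {y : V} {t : ℂ} (hc : DifferentiableAt ℝ c y) (e : c y = a)
    (hf : ∀ᶠ z in 𝓝 y, fq p (c z) = t ∧ G (c z) = f z) (v : V) :
    dq p a (fderiv ℝ c y v) = 0 ∧ dif G a (fderiv ℝ c y v) = dif f y v ∧
      lf p G a (dif f y v) = fderiv ℝ c y v := by
  subst e
  have h1 := dq_fderiv hc (hf.mono fun z hz => hz.1) v
  have h2 : dif G (c y) (fderiv ℝ c y v) = dif f y v := by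
    rw [← dif_congr (f := fun z => G (c z)) (hf.mono fun z hz => hz.2), dif_comp hG hc]; rfl
  exact ⟨h1, h2, by rw [← h2, h.lf_dif h1]⟩

theorem two_le : (2 : WithTop ℕ∞) ≤ ∞ := WithTop.coe_le_coe.2 (le_top : (2 : ℕ∞) ≤ ⊤)

theorem ext1_half {c : V → C3} {y : V} (hc : ContDiffAt ℝ ∞ c y) (k : ℝ) (v w : V) :
    ext1 (fun z => ((k / 2) • stdL (c z)).comp (fderiv ℝ c z)) y v w =
      k * std (fderiv ℝ c y v) (fderiv ℝ c y w) := by
  have h1 := (hc.differentiableAt (by simp)).hasFDerivAt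
  have h2 := ((hc.fderiv_right (m := ∞) (by simp)).differentiableAt (by simp)).hasFDerivAt
  have h3 := ((stdL.hasFDerivAt.comp y h1).const_smul (k / 2)).clm_comp h2
  have h4 := hc.isSymmSndFDerivAt (by simpa using two_le) v w
  have h5 : fderiv ℝ (fun z => ((k / 2) • stdL (c z)).comp (fderiv ℝ c z)) y = _ := h3.fderiv
  simp only [ext1, sub_apply, ContinuousLinearMap.flip_apply, h5]
  simp [h4, std_skew (fderiv ℝ c y w) (fderiv ℝ c y v)]
  ring

theorem contDiffAt_half {c : V → C3} {y : V} (hc : ContDiffAt ℝ ∞ c y) (k : ℝ) :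
    ContDiffAt ℝ ∞ (fun z => ((k / 2) • stdL (c z)).comp (fderiv ℝ c z)) y :=
  ((stdL.contDiff.contDiffAt.comp y hc).const_smul (k / 2)).clm_comp
    (hc.fderiv_right (m := ∞) (by simp))

/-- The slice of a local inverse. -/
theorem Sig.slice {x : X} {σ : ℂ × E → C3} (h : Sig p G x a σ) :
    ContDiffAt ℝ ∞ (fun y => σ (fq p a, y)) (chartAt E x (G a)) ∧
      ∀ᶠ y in 𝓝 (chartAt E x (G a)), fq p (σ (fq p a, y)) = fq p a ∧
        G (σ (fq p a, y)) = par x y := by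
  have h1 : ContDiffAt ℝ ∞ (fun y : E => (fq p a, y)) (chartAt E x (G a)) := by fun_prop
  exact ⟨h.sm.self_of_nhds.comp _ h1, h1.continuousAt.eventually h.right⟩

variable [IsManifold 𝓘(ℝ, E) ∞ X]

/-- A local section through `a`. -/
theorem Cov.sec (h : Cov om p q cc G A) (ha : a ∈ A) {x : X} (hx : G a ∈ (chartAt E x).source) :
    ∃ c : E → C3, ContDiffAt ℝ ∞ c (chartAt E x (G a)) ∧ c (chartAt E x (G a)) = a ∧
      ∀ᶠ y in 𝓝 (chartAt E x (G a)), c y ∈ A ∧ fq p (c y) = fq p a ∧ G (c y) = par x y := by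
  obtain ⟨σ, hσ⟩ := (h.et ha).exists_sig (h.sm a ha) hx
  refine ⟨fun y => σ (fq p a, y), hσ.slice.1, hσ.val, ?_⟩
  have h1 := hσ.slice.1.continuousAt
  have h2 := h.op a ha
  rw [← hσ.val] at h2
  filter_upwards [hσ.slice.2, h1.eventually h2] with y h3 h4
  exact ⟨h4 (by rw [hσ.val]; exact h3.1), h3⟩

theorem Cov.lf_act (h : Cov om p q cc G A) (ha : a ∈ A) {ζ : ℂ} (hζ : ζ ^ p = 1)
    (hb : act q ζ a ∈ A) (w : E) : lf p G (act q ζ a) w = act q ζ (lf p G a w) := by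
  obtain ⟨c, h1, h2, h3⟩ := h.sec ha (mem_chart_source E (G a))
  obtain ⟨v, rfl⟩ := (inv_par ((chartAt E (G a)).map_source (mem_chart_source E (G a)))).surjective w
  have hd := h1.differentiableAt (by simp)
  have hd' := (actL q ζ).hasFDerivAt.comp _ hd.hasFDerivAt
  have h4 := h.op _ hb
  rw [← h2] at h4
  rw [((h.et ha).lf_lift (h.md ha) hd h2 (h3.mono fun y hy => hy.2) v).2.2,
    ((h.et hb).lf_lift (t := fq p a) (h.md hb) hd'.differentiableAt (by simp [h2]) ?_ v).2.2,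
    hd'.fderiv]
  · rfl
  · filter_upwards [h3, hd'.continuousAt.eventually h4] with y hy hy'
    have e : fq p (act q ζ (c y)) = fq p (c y) := fq_act h.hp hζ _
    refine ⟨e.trans hy.2.1, ?_⟩
    rw [← hy.2.2]
    refine ((h.fb _ hy.1 _ (hy' ?_) e.symm).2 ⟨ζ, hζ, rfl⟩).symm
    rw [fq_act h.hp hζ, h2]
    exact e.trans hy.2.1

theorem Cov.pushJ_eq (h : Cov om p q cc G A) (ha : a ∈ A) (hb : b ∈ A) (hf : fq p a = fq p b)
    (e : G a = G b) : pushJ p G a = pushJ p G b := by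
  obtain ⟨ζ, hζ, rfl⟩ := (h.fb a ha b hb hf).1 e
  refine ContinuousLinearMap.ext fun w => ?_
  have h1 : dq p a (Complex.I • lf p G a w) = 0 := by rw [dq_I, (h.et ha).dq_lf, mul_zero]
  have h2 := h.lf_act ha hζ hb (dif G a (Complex.I • lf p G a w))
  rw [(h.et ha).lf_dif h1] at h2
  change dif G a (Complex.I • lf p G a w) = dif G _ (Complex.I • lf p G _ w)
  rw [h.lf_act ha hζ hb w, ← act_I, ← h2, (h.et hb).dif_lf]

theorem Cov.pushL_eq (h : Cov om p q cc G A) (ha : a ∈ A) (hb : b ∈ A) (hf : fq p a = fq p b)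
    (e : G a = G b) : pushL p cc G a = pushL p cc G b := by
  obtain ⟨ζ, hζ, rfl⟩ := (h.fb a ha b hb hf).1 e
  refine ContinuousLinearMap.ext fun w => ?_
  simp [pushL, h.lf_act ha hζ hb w, std_act h.hp hζ]

theorem Cov.image_mem (h : Cov om p q cc G A) (ha : a ∈ A) :
    G '' (A ∩ fib p (fq p a)) ∈ 𝓝 (G a) := by
  have hx := mem_chart_source E (G a)
  obtain ⟨c, -, -, h3⟩ := h.sec ha hx
  filter_upwards [((chartAt E (G a)).continuousAt hx).eventually h3,
    (chartAt E (G a)).open_source.mem_nhds hx] with x h1 h2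
  exact ⟨_, ⟨h1.1, mem_fib.2 h1.2.1⟩, h1.2.2.trans ((chartAt E (G a)).left_inv h2)⟩

theorem Cov.isOpen_image (h : Cov om p q cc G A) (t : ℂ) : IsOpen (G '' (A ∩ fib p t)) := by
  rw [isOpen_iff_mem_nhds]
  rintro _ ⟨a, ⟨ha, ht⟩, rfl⟩
  rw [← mem_fib.1 ht]
  exact h.image_mem ha

/-- The pushed Liouville form is a smooth primitive. -/
theorem Cov.prim (h : Cov om p q cc G A) (ha : a ∈ A) {l : X → E →L[ℝ] ℝ}
    (hl : ∀ b ∈ A, fq p b = fq p a → l (G b) = pushL p cc G b) {x : X}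
    (hx : G a ∈ (chartAt E x).source) :
    ContDiffAt ℝ ∞ (pull1 (par x) l) (chartAt E x (G a)) ∧
      pull2 (par x) om (chartAt E x (G a)) = ext1 (pull1 (par x) l) (chartAt E x (G a)) := by
  obtain ⟨c, h1, h2, h3⟩ := h.sec ha hx
  have e : pull1 (par x) l =ᶠ[𝓝 (chartAt E x (G a))]
      fun z => ((cc / 2) • stdL (c z)).comp (fderiv ℝ c z) := by
    filter_upwards [h3.eventually_nhds, (h1.of_le (m := 1) (by simp)).eventually (by simp)]
      with y hy hy'
    have h4 := hy.self_of_nhds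
    refine ContinuousLinearMap.ext fun v => ?_
    have h5 := (h.et h4.1).lf_lift (h.md h4.1) (hy'.differentiableAt (by simp)) rfl
      (hy.mono fun z hz => hz.2) v
    simp only [pull1, ← h4.2.2, hl _ h4.1 h4.2.1, pushL, ContinuousLinearMap.comp_apply, h5.2.2]
  refine ⟨(contDiffAt_half h1 cc).congr_of_eventuallyEq e, ?_⟩
  refine ContinuousLinearMap.ext fun v => ContinuousLinearMap.ext fun w => ?_
  have h5 := (h.et ha).lf_lift (h.md ha) (h1.differentiableAt (by simp)) h2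
    (h3.mono fun z hz => hz.2)
  have h6 : par x (chartAt E x (G a)) = G a := (chartAt E x).left_inv hx
  have h7 : ext1 (pull1 (par x) l) (chartAt E x (G a)) = ext1
      (fun z => ((cc / 2) • stdL (c z)).comp (fderiv ℝ c z)) (chartAt E x (G a)) := by
    simp only [ext1, e.fderiv_eq]
  rw [h7, ext1_half h1, ← h.sy a ha _ _ (h5 v).1 (h5 w).1, (h5 v).2.1, (h5 w).2.1]
  simp [pull2, h6]

/-- The pushed complex structures are jointly smooth in the point and the level. -/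
theorem Cov.joint (h : Cov om p q cc G A) (ha : a ∈ A) {x : X}
    (hx : G a ∈ (chartAt E x).source) : ∃ (σ : ℂ × E → C3) (H : ℂ × E → E →L[ℝ] E),
      σ (fq p a, chartAt E x (G a)) = a ∧
      ∀ᶠ w in 𝓝 (fq p a, chartAt E x (G a)), ContDiffAt ℝ ∞ σ w ∧ ContDiffAt ℝ ∞ H w ∧
        fq p (σ w) = w.1 ∧ G (σ w) = par x w.2 ∧
        (σ w ∈ A → (dif (par x) w.2).inverse.comp ((pushJ p G (σ w)).comp (dif (par x) w.2)) =
          H w) := by
  obtain ⟨σ, hσ⟩ := (h.et ha).exists_sig (h.sm a ha) hx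
  have h1 := ev_contDiffAt_chart (h.sm a ha) hx
  rw [← hσ.val] at h1
  refine ⟨σ, fun w => (fderiv ℝ (fun z => chartAt E x (G z)) (σ w)).comp
    (mI.comp ((fderiv ℝ σ w).comp (ContinuousLinearMap.inr ℝ ℂ E))), hσ.val, ?_⟩
  have h2 : ∀ᶠ w : ℂ × E in 𝓝 (fq p a, chartAt E x (G a)), w.2 ∈ (chartAt E x).target :=
    continuousAt_snd.preimage_mem_nhds
      ((chartAt E x).open_target.mem_nhds ((chartAt E x).map_source hx))
  filter_upwards [hσ.right.eventually_nhds, hσ.sm, h2,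
    hσ.sm.self_of_nhds.continuousAt.eventually h1] with w hw hw' h3 h0
  have h4 := hw.self_of_nhds
  refine ⟨hw', ((h0.fderiv_right (m := ∞) (by simp)).comp _ hw').clm_comp
    (contDiffAt_const.clm_comp ((hw'.fderiv_right (m := ∞) (by simp)).clm_comp contDiffAt_const)),
    h4.1, h4.2, fun hA => ?_⟩
  have h5 : HasFDerivAt (fun y : E => (w.1, y)) (ContinuousLinearMap.inr ℝ ℂ E) w.2 :=
    hasFDerivAt_prodMk_right w.1 w.2
  have h6 := (hw'.differentiableAt (by simp)).hasFDerivAt.comp w.2 h5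
  have h7 : G (σ w) ∈ (chartAt E x).source := by rw [h4.2]; exact (chartAt E x).map_target h3
  have h8 : chartAt E x (G (σ w)) = w.2 := by rw [h4.2]; exact (chartAt E x).right_inv h3
  refine ContinuousLinearMap.ext fun v => ?_
  have h9 := ((h.et hA).lf_lift (t := w.1) (f := par x) (h.md hA) h6.differentiableAt rfl
    (h5.continuousAt.eventually hw) v).2.2
  rw [h6.fderiv] at h9
  simp only [pushJ, ContinuousLinearMap.comp_apply, h9]
  rw [dif_chart (h.sm1 hA) h7, h8, ContinuousLinearMap.comp_apply,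
    (inv_par h3).inverse_apply_self]

end Pool.Agent.Lib.MP_1c0d65_gt.PW.Fd
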