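import Pool.Agent.Lib.MP_1c0d65_gt.F.Inv

/-! The invariants with a cut-off and a marker. -/

set_option autoImplicit false

open scoped ContDiff Topology
open Set Filter Metric

noncomputable section

namespace Pool.Agent.Lib.MP_1c0d65_gt.PW.Fd

/-- An invariant cut-off function. -/
def cut (d : ℝ) (a : C3) : ℝ := Real.smoothTransition (2 - 4 * std a (Complex.I • a) / d ^ 2)

/-- The marker and the invariants. -/
def mm (p q : ℕ) (d : ℝ) (a : C3) : ℝ × C5 := (cut d a, cut d a • ivt p q a)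

variable {p q : ℕ} {d r : ℝ} {ζ : ℂ} {a : C3}

theorem contDiff_cut (d : ℝ) : ContDiff ℝ ∞ (cut d) := by
  have h : ContDiff ℝ ∞ fun a : C3 => stdL a (mI a) :=
    stdL.contDiff.clm_apply mI.contDiff
  exact Real.smoothTransition.contDiff.comp
    (contDiff_const.sub ((contDiff_const.mul h).div_const _))

theorem contDiff_mm (p q : ℕ) (d : ℝ) : ContDiff ℝ ∞ (mm p q d) :=
  (contDiff_cut d).prodMk ((contDiff_cut d).smul (contDiff_ivt p q))

theorem cut_act (hp : p ≠ 0) (h : ζ ^ p = 1) (a : C3) : cut d (act q ζ a) = cut d a := by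
  rw [cut, ← act_I, std_act hp h, cut]

theorem mm_act (hp : p ≠ 0) (h : ζ ^ p = 1) (a : C3) : mm p q d (act q ζ a) = mm p q d a := by
  rw [mm, cut_act hp h, ivt_act hp h, mm]

theorem cut_nonneg (d : ℝ) (a : C3) : 0 ≤ cut d a := Real.smoothTransition.nonneg _

theorem cut_le_one (d : ℝ) (a : C3) : cut d a ≤ 1 := Real.smoothTransition.le_one _

theorem cut_supp (hd : 0 < d) (h : 3 / 4 * d < ‖a‖) : cut d a = 0 := by
  refine Real.smoothTransition.zero_of_nonpos (sub_nonpos.2 ((le_div_iff₀ (by positivity)).2 ?_))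
  have h1 := sq_le_std a
  have h2 := pow_le_pow_left₀ (by positivity) h.le 2
  nlinarith [sq_nonneg d]

theorem mm_supp (hd : 0 < d) (h : 3 / 4 * d < ‖a‖) : mm p q d a = 0 := by
  rw [mm, cut_supp hd h, zero_smul]; rfl

theorem cut_one (hd : 0 < d) (h : ‖a‖ < d / 4) : cut d a = 1 := by
  refine Real.smoothTransition.one_of_one_le ?_
  have h1 := std_le_sq a
  have h2 := pow_le_pow_left₀ (norm_nonneg a) h.le 2
  have h3 : 4 * std a (Complex.I • a) / d ^ 2 ≤ 1 :=
    (div_le_one (by positivity)).2 (by nlinarith [sq_nonneg d])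
  linarith

theorem cut_zero (d : ℝ) : cut d 0 = 1 :=
  Real.smoothTransition.one_of_one_le (by simp [std])

theorem mm_zero (hp : p ≠ 0) : mm p q d 0 = (1, 0) := by
  rw [mm, cut_zero, ivt_zero hp, smul_zero]

theorem mm_one (hd : 0 < d) (h : ‖a‖ < d / 4) : mm p q d a = (1, ivt p q a) := by
  rw [mm, cut_one hd h, one_smul]

theorem mm_near (hd : 0 < d) (h : ‖a‖ < d / 4) : ∀ᶠ b in 𝓝 a, mm p q d b = (1, ivt p q b) := by
  filter_upwards [(isOpen_lt continuous_norm continuous_const).mem_nhds h] with b hb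
  exact mm_one hd hb

theorem mm_imm (hp : p ≠ 0) (h : a.1.1 ≠ 0 ∨ a.1.2 ≠ 0) (hc : cut d a ≠ 0) {v : C3}
    (hv : fderiv ℝ (mm p q d) a v = 0) : v = 0 := by
  have h1 := ((contDiff_cut d).differentiable (by simp) a).hasFDerivAt
  have h2 := ((contDiff_ivt p q).differentiable (by simp) a).hasFDerivAt
  have h3 : fderiv ℝ (mm p q d) a = _ := (h1.prodMk (h1.smul h2)).fderiv
  rw [h3] at hv
  have e1 : fderiv ℝ (cut d) a v = 0 := congrArg Prod.fst hv
  have e2 : cut d a • fderiv ℝ (ivt p q) a v + fderiv ℝ (cut d) a v • ivt p q a = 0 :=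
    congrArg Prod.snd hv
  rw [e1, zero_smul, add_zero] at e2
  exact ivt_imm hp h ((smul_eq_zero.1 e2).resolve_left hc)

theorem mm_inj {b : C3} (hc : cut d a ≠ 0) (h : mm p q d a = mm p q d b) :
    ivt p q a = ivt p q b := by
  have e1 : cut d a = cut d b := congrArg Prod.fst h
  have e2 : cut d a • ivt p q a = cut d b • ivt p q b := congrArg Prod.snd h
  rw [← e1] at e2
  exact smul_right_injective _ hc e2

theorem mm_small (_hp : p ≠ 0) (hr : 0 < r) : ∃ η > 0, ∀ a : C3, 1 / 2 < (mm p q d a).1 →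
    ‖(mm p q d a).2‖ < η → ‖fq p a‖ < η → ‖a‖ < r := by
  have h0 : 0 < r ^ p := pow_pos hr p
  refine ⟨r ^ p / 3, by positivity, fun a h1 h2 h3 => ?_⟩
  change 1 / 2 < cut d a at h1
  change ‖cut d a • ivt p q a‖ < _ at h2
  rw [norm_smul, Real.norm_of_nonneg (cut_nonneg d a)] at h2
  have h4 : ‖ivt p q a‖ < 2 * (r ^ p / 3) := by nlinarith [norm_nonneg (ivt p q a)]
  have k0 : ‖a.1.1 ^ p‖ ≤ _ := norm_le_pi_norm (ivt p q a) 0
  have k1 : ‖a.1.1 * a.1.2‖ ≤ _ := norm_le_pi_norm (ivt p q a) 1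
  have k3 : ‖a.1.2 ^ p‖ ≤ _ := norm_le_pi_norm (ivt p q a) 3
  have k2 : ‖a.2 ^ p‖ ≤ ‖a.1.1 * a.1.2‖ + ‖fq p a‖ := by
    rw [show a.2 ^ p = a.1.1 * a.1.2 - fq p a by rw [fq]; ring]
    exact norm_sub_le _ _
  have key : ∀ s : ℂ, ‖s ^ p‖ < r ^ p → ‖s‖ < r := fun s hs =>
    lt_of_pow_lt_pow_left₀ p hr.le (by rwa [← norm_pow])
  simp only [Prod.norm_def, max_lt_iff]
  exact ⟨⟨key _ (by linarith), key _ (by linarith)⟩, key _ (by linarith)⟩

end Pool.Agent.Lib.MP_1c0d65_gt.PW.Fd
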