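import Pool.Agent.Lib.MP_1c0d65_gt.F.LM

/-! The data of a degeneration: local models, cut-off functions and the family of structures. -/

set_option autoImplicit false

open scoped Manifold ContDiff Topology
open Set Filter Metric

noncomputable section

namespace Pool.Agent.Lib.MP_1c0d65_gt.PW.Fd

variable {X : Type} [TopologicalSpace X] [ChartedSpace E X] [MeasurableSpace X]

/-- Local models with cut-off functions. -/
structure Cut (c : Ctx X) {n : ℕ} (L : Fin n → Set X) where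
  V : Fin n → Set X
  opV : ∀ i, IsOpen (V i)
  dV : ∀ i j, i ≠ j → Disjoint (V i) (V j)
  M : ∀ i, LM c.om (L i) (V i)
  t0 : ℝ
  ht0 : 0 < t0
  W : Fin n → Set X
  opW : ∀ i, IsOpen (W i)
  WU : ∀ i, W i ⊆ (M i).U
  K : Fin n → Set X
  clK : ∀ i, IsClosed (K i)
  KW : ∀ i, K i ⊆ W i
  χ : Fin n → X → ℝ
  smχ : ∀ i, ContMDiff 𝓘(ℝ, E) 𝓘(ℝ, ℝ) ∞ (χ i)
  χ01 : ∀ i x, χ i x ∈ Icc (0 : ℝ) 1
  χ1 : ∀ i, ∀ᶠ x in 𝓝ˢ (L i), χ i x = 1
  χ0 : ∀ i, ∀ x ∉ K i, χ i x = 0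
  onto : ∀ i, ∀ x ∈ W i, ∀ t ∈ Icc 0 t0, (t = 0 → x ∉ L i) →
    ∃ a ∈ Dm (M i).p (M i).δ, fq (M i).p a = t ∧ (M i).G a = x

/-- The family of almost complex structures. -/
structure Dat (c : Ctx X) {n : ℕ} (L : Fin n → Set X) extends Cut c L where
  J : ℝ → X → E →L[ℝ] E
  hJ : ∀ i (t : ℝ), ∀ a ∈ Dm (M i).p (M i).δ, fq (M i).p a = t → χ i ((M i).G a) = 1 →
    J t ((M i).G a) = pushJ (M i).p (M i).G a
  off : ∀ t x, (∀ i, x ∉ K i) → J t x = c.J0 x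
  tame : ∀ t ∈ Ioc 0 t0, Tame univ c.om (J t)
  tame0 : Tame (⋃ i, L i)ᶜ c.om (J 0)
  joint : ∀ x, ∀ y ∈ (chartAt E x).target, ∀ t ∈ Icc 0 t0, (t = 0 → par x y ∉ ⋃ i, L i) →
    ∃ Jl : ℝ × E → E →L[ℝ] E, ∀ᶠ q in 𝓝 (t, y), ContDiffAt ℝ ∞ Jl q ∧
      (∀ v, Jl q (Jl q v) = -v) ∧ (0 ≤ q.1 → Jl q = pullJ (par x) (J q.1) q.2)

variable {c : Ctx X} {n : ℕ} {L : Fin n → Set X}

theorem Cut.WV (D : Cut c L) (i : Fin n) : D.W i ⊆ D.V i := (D.WU i).trans (D.M i).UV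

theorem Cut.LV (D : Cut c L) (i : Fin n) : L i ⊆ D.V i := (D.M i).LU.trans (D.M i).UV

theorem Cut.LK (D : Cut c L) (i : Fin n) : L i ⊆ D.K i := fun x hx => by
  by_contra h
  have := (D.χ1 i).self_of_nhdsSet x hx
  rw [D.χ0 i x h] at this
  exact zero_ne_one this

theorem Cut.idx (D : Cut c L) {i j : Fin n} {x : X} (hi : x ∈ D.V i) (hj : x ∈ D.V j) : i = j := by
  by_contra h
  exact disjoint_left.1 (D.dV i j h) hi hj

theorem Cut.notK (D : Cut c L) {i j : Fin n} {x : X} (hi : x ∈ D.V i) (h : j ≠ i) : x ∉ D.K j :=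
  fun hj => h (D.idx (D.WV j (D.KW j hj)) hi)

theorem exists_cut [IsManifold 𝓘(ℝ, E) ∞ X] [T2Space X] [CompactSpace X]
    (hL : ∀ i, Pinwheel c.om (L i)) (disj : ∀ i j, i ≠ j → Disjoint (L i) (L j)) :
    Nonempty (Cut c L) := by
  have cl : ∀ i, IsClosed (L i) := fun i =>
    (exists_LM (hL i) isOpen_univ (subset_univ _)).some.closed
  obtain ⟨V, opV, LV, dV⟩ : ∃ V : Fin n → Set X, (∀ i, IsOpen (V i)) ∧ (∀ i, L i ⊆ V i) ∧
      ∀ i j, i ≠ j → Disjoint (V i) (V j) := by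
    have : ∀ i j, i ≠ j → ∃ U : Set X × Set X, IsOpen U.1 ∧ IsOpen U.2 ∧ L i ⊆ U.1 ∧ L j ⊆ U.2 ∧
        Disjoint U.1 U.2 := fun i j h => by
      obtain ⟨u, v, h⟩ := normal_separation (cl i) (cl j) (disj i j h)
      exact ⟨(u, v), h⟩
    choose! U hU using this
    refine ⟨fun i => ⋂ j ∈ {j | j ≠ i}, (U i j).1 ∩ (U j i).2, fun i => (toFinite _).isOpen_biInter
      fun j hj => (hU i j (Ne.symm hj)).1.inter (hU j i hj).2.1, fun i => subset_iInter₂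
      fun j hj => subset_inter (hU i j (Ne.symm hj)).2.2.1 (hU j i hj).2.2.2.1, fun i j h => ?_⟩
    exact (hU i j h).2.2.2.2.mono ((biInter_subset_of_mem h.symm).trans inter_subset_left)
      ((biInter_subset_of_mem h).trans inter_subset_right)
  have M : ∀ i, LM c.om (L i) (V i) := fun i => (exists_LM (hL i) (opV i) (LV i)).some
  choose U opU LU t ht hU using fun i => (M i).onto 1 one_pos
  obtain ⟨t0, ht0, h0⟩ : ∃ t0 > 0, ∀ i, t0 ≤ t i := by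
    obtain ⟨t0, h1, h2⟩ := ((eventually_all.2 fun i => eventually_le_nhds (ht i)).filter_mono
      (nhdsWithin_le_nhds (s := Ioi 0))).and self_mem_nhdsWithin |>.exists
    exact ⟨t0, h2, h1⟩
  choose K opK LK KW using fun i => normal_exists_closure_subset (cl i)
    ((opU i).inter (M i).opU) (subset_inter (LU i) (M i).LU)
  choose χ χ1 χ0 χ01 using fun i => exists_contMDiffMap_one_nhds_of_subset_interior
    (n := ⊤) 𝓘(ℝ, E) (cl i) ((LK i).trans (opK i).interior_eq.symm.subset)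
  refine ⟨⟨V, opV, dV, M, t0, ht0, fun i => U i ∩ (M i).U, fun i => (opU i).inter (M i).opU,
    fun i => inter_subset_right, fun i => closure (K i), fun i => isClosed_closure, KW,
    fun i => χ i, fun i => (χ i).contMDiff, χ01, χ1,
    fun i x hx => χ0 i x fun h => hx (subset_closure h), fun i x hx s hs h => ?_⟩⟩
  obtain ⟨a, h1, -, h2⟩ := hU i x hx.1 s hs.1 (hs.2.trans (h0 i)) h
  exact ⟨a, h1, h2⟩

end Pool.Agent.Lib.MP_1c0d65_gt.PW.Fd
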