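import Pool.Agent.Lib.MP_1c0d65_gt.PW.Deg
import Pool.Agent.Lib.MP_1c0d65_gt.PW.BrK

/-! A form that vanishes near the singular points comes from the ambient space of the family. -/

set_option autoImplicit false

open scoped Manifold ContDiff Topology
open Set Filter

noncomputable section

namespace Pool.Agent.Lib.MP_1c0d65_gt.PW

variable {V B : Type} [NormedAddCommGroup V] [NormedSpace ℝ V] [FiniteDimensional ℝ V]
  [NormedAddCommGroup B] [NormedSpace ℝ B] [FiniteDimensional ℝ B]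

/-- A family of immersions has a local left inverse. -/
theorem frm_left {f : ℝ × B → V} {q₀ : ℝ × B} (hf : ContDiffAt ℝ 1 f q₀)
    (hi : ∀ v, fderiv ℝ f q₀ (0, v) = 0 → v = 0) : ∃ r : ℝ × V → B,
      ContDiffAt ℝ 1 r (q₀.1, f q₀) ∧ ∀ᶠ q in 𝓝 q₀, r (q.1, f q) = q.2 := by
  have := FiniteDimensional.complete ℝ B
  obtain ⟨A₀, hA⟩ := LinearMap.exists_leftInverse_of_injective
    ((fderiv ℝ f q₀).comp (ContinuousLinearMap.inr ℝ ℝ B)).toLinearMap
    (LinearMap.ker_eq_bot'.2 hi)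
  let A : V →L[ℝ] B := LinearMap.toContinuousLinearMap A₀
  have hA' : ∀ v, A (fderiv ℝ f q₀ (0, v)) = v := fun v => LinearMap.congr_fun hA v
  let D : ℝ × B →L[ℝ] ℝ × B := (ContinuousLinearMap.fst ℝ ℝ B).prod (A.comp (fderiv ℝ f q₀))
  have hD : Function.Injective D.toLinearMap := (injective_iff_map_eq_zero _).2 fun v h => by
    obtain ⟨τ, v⟩ := v
    obtain rfl : τ = 0 := congrArg Prod.fst h
    exact Prod.ext rfl ((hA' v).symm.trans (congrArg Prod.snd h))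
  let D' : (ℝ × B) ≃L[ℝ] ℝ × B := (LinearEquiv.ofInjectiveEndo _ hD).toContinuousLinearEquiv
  have h1 : ContDiffAt ℝ 1 (fun q : ℝ × B => (q.1, A (f q))) q₀ :=
    contDiffAt_fst.prodMk (A.contDiff.contDiffAt.comp q₀ hf)
  have h2 : HasFDerivAt (fun q : ℝ × B => (q.1, A (f q))) (D' : ℝ × B →L[ℝ] ℝ × B) q₀ :=
    hasFDerivAt_fst.prodMk (A.hasFDerivAt.comp q₀ (hf.differentiableAt one_ne_zero).hasFDerivAt)
  refine ⟨fun e => (h1.localInverse h2 one_ne_zero (e.1, A e.2)).2, ?_, ?_⟩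
  · exact contDiffAt_snd.comp _ (ContDiffAt.comp (q₀.1, f q₀)
      (f := fun e : ℝ × V => (e.1, A e.2)) (h1.to_localInverse h2 one_ne_zero) (by fun_prop))
  · filter_upwards [(h1.hasStrictFDerivAt' h2 one_ne_zero).eventually_left_inverse] with q hq
    exact congrArg Prod.snd hq

variable {X : Type} [TopologicalSpace X] [ChartedSpace E X] [IsManifold 𝓘(ℝ, E) ∞ X]
  [CompactSpace X] [MeasurableSpace X] {c : Ctx X} {O : Orb c}

omit [FiniteDimensional ℝ V] [IsManifold 𝓘(ℝ, E) ∞ X] in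
/-- The points over a small neighbourhood are near the fibre. -/
theorem Pre.frm_near (Q : Pre V O) {e : ℝ × V} {N : Set (ℝ × X)} (hN : IsOpen N)
    (h : ∀ p : ℝ × X, p.1 ∈ Q.I → (p.1, Q.ι p) = e → p ∈ N) :
    ∀ᶠ e' in 𝓝 e, ∀ p : ℝ × X, p.1 ∈ Q.I → (p.1, Q.ι p) = e' → p ∈ N := by
  have hc : IsCompact ((fun p : ℝ × X => (p.1, Q.ι p)) '' (Q.I ×ˢ univ \ N)) :=
    ((Q.cI.prod isCompact_univ).diff hN).image_of_continuousOn
      ((continuousOn_fst.prodMk Q.cont).mono sdiff_subset)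
  have he : e ∈ ((fun p : ℝ × X => (p.1, Q.ι p)) '' (Q.I ×ˢ univ \ N))ᶜ := by
    rintro ⟨p, hp, e⟩
    exact hp.2 (h p hp.1.1 e)
  filter_upwards [hc.isClosed.isOpen_compl.mem_nhds he] with e' he' p hp e
  by_contra hn
  exact he' ⟨p, ⟨⟨hp, trivial⟩, hn⟩, e⟩

/-- The alternating forms at `e` that restrict to `α`. -/
def Pre.Rep (Q : Pre V O) (α : X → Bil E ℝ) (e : ℝ × V) : Set (Bil (ℝ × V) ℝ) :=
  {b | ∀ τ ∈ Q.I, ∀ (u : ℂ → X) (z : ℂ), ContMDiffAt 𝓘(ℝ, ℂ) 𝓘(ℝ, E) ∞ u z →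
    (τ, Q.ι (τ, u z)) = e → b (fderiv ℝ (fun w => (τ, Q.ι (τ, u w))) z 1)
      (fderiv ℝ (fun w => (τ, Q.ι (τ, u w))) z .I) = pull2 u α z 1 .I}

/-- A continuous choice near `e`. -/
def Pre.LocRep (Q : Pre V O) (α : X → Bil E ℝ) (e : ℝ × V) : Prop :=
  ∃ g : ℝ × V → Bil (ℝ × V) ℝ, ∀ᶠ y in 𝓝 e,
    ContinuousAt g y ∧ (∀ ξ, g y ξ ξ = 0) ∧ g y ∈ Q.Rep α y

omit [FiniteDimensional ℝ V] [IsManifold 𝓘(ℝ, E) ∞ X] in
theorem Pre.locRep_zero (Q : Pre V O) {α : X → Bil E ℝ} {e : ℝ × V} {U : Set X} (hU : IsOpen U)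
    (h0 : ∀ x ∈ U, α x = 0) (h : ∀ p : ℝ × X, p.1 ∈ Q.I → (p.1, Q.ι p) = e → p.2 ∈ U) :
    Q.LocRep α e := by
  refine ⟨fun _ => 0, ?_⟩
  filter_upwards [Q.frm_near (hU.preimage continuous_snd) h] with y hy
  refine ⟨continuousAt_const, fun _ => rfl, fun τ hτ u z _ e => ?_⟩
  rw [pull2, h0 _ (hy (τ, u z) hτ e)]
  rfl

omit [FiniteDimensional ℝ V] [IsManifold 𝓘(ℝ, E) ∞ X] [CompactSpace X] in
theorem Pre.loc1 (Q : Pre V O) {x : X} (hx : x ∈ O.W) : ∃ f : ℝ × E → V,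
    ContDiffAt ℝ 1 f (0, chartAt E x x) ∧ (∀ v, fderiv ℝ f (0, chartAt E x x) (0, v) = 0 → v = 0) ∧
      ∀ᶠ q in 𝓝 ((0 : ℝ), chartAt E x x), q.1 ∈ Q.I → f q = Q.ι (q.1, par x q.2) := by
  obtain ⟨f, _, h2, h3⟩ := Q.loc x hx
  exact ⟨f, h3.self_of_nhds.1.of_le (by simp), h2, h3.mono fun q h hq => (h.2.2.2 hq).1⟩

theorem Pre.locRep_reg (Q : Pre V O) {α : X → Bil E ℝ} (hα : Form univ α) {x : X}
    (hx : x ∈ O.W) : Q.LocRep α (0, Q.ι (0, x)) := by
  obtain ⟨f, h1, h2, h3⟩ := Q.loc1 hx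
  obtain ⟨r, hr, hl⟩ := frm_left h1 h2
  have hs := mem_chart_source E x
  have ht := mem_chart_target E x
  have e0 : f (0, chartAt E x x) = Q.ι (0, x) := by
    rw [h3.self_of_nhds Q.I0, par, (chartAt E x).left_inv hs]
  have r0 : r (0, Q.ι (0, x)) = chartAt E x x := e0 ▸ hl.self_of_nhds
  rw [e0] at hr
  obtain ⟨N, hN, oN, mN⟩ := eventually_nhds_iff.1
    (((h1.eventually (by simp)).and (h3.and hl)).eventually_nhds)
  have oN' : IsOpen ((univ ×ˢ (chartAt E x).source) ∩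
      (fun p : ℝ × X => (p.1, chartAt E x p.2)) ⁻¹' N) :=
    ContinuousOn.isOpen_inter_preimage (continuousOn_fst.prodMk
      ((chartAt E x).continuousOn.comp continuousOn_snd fun _ h => h.2))
      (isOpen_univ.prod (chartAt E x).open_source) oN
  have near := Q.frm_near (e := (0, Q.ι (0, x))) oN' fun p _ e => by
    obtain ⟨τ, x'⟩ := p
    obtain rfl : τ = 0 := congrArg Prod.fst e
    have e' : Q.ι (0, x') = Q.ι (0, x) := congrArg Prod.snd e
    have hx' : x' ∈ O.W := fun h => by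
      obtain ⟨i, hi⟩ := mem_iUnion.1 h
      exact Q.ne x hx i (e'.symm.trans (Q.onL i _ hi))
    obtain rfl := Q.inj0 hx' hx e'
    exact ⟨⟨trivial, hs⟩, mN⟩
  have htg : ∀ᶠ y in 𝓝 ((0 : ℝ), Q.ι (0, x)), r y ∈ (chartAt E x).target :=
    hr.continuousAt.eventually ((chartAt E x).open_target.mem_nhds (r0.symm ▸ ht : r (0, _) ∈ _))
  refine ⟨fun y => (pull2 (par x) α (r y)).bilinearComp (fderiv ℝ r y) (fderiv ℝ r y), ?_⟩
  filter_upwards [near, htg, hr.eventually (by simp)] with y hy hyt hry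
  refine ⟨?_, fun ξ => hα.1 _ trivial _, fun τ hτ u z hu e => ?_⟩
  · have c1 : ContinuousAt (fun y => pull2 (par x) α (r y)) y :=
      ContinuousAt.comp (g := pull2 (par x) α) ((hα.2 x).continuousOn.continuousAt (by
        rw [dom, preimage_univ, inter_univ]; exact (chartAt E x).open_target.mem_nhds hyt))
        hry.continuousAt
    have c2 : ContinuousAt (fderiv ℝ r) y := (hry.fderiv_right (m := 0) (by simp)).continuousAt
    have fl : ∀ {A B' : Type} [NormedAddCommGroup A] [NormedSpace ℝ A] [NormedAddCommGroup B']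
        [NormedSpace ℝ B'], Continuous fun L : A →L[ℝ] B' →L[ℝ] ℝ => L.flip :=
      (ContinuousLinearMap.flipₗᵢ ℝ _ _ ℝ).continuous
    exact fl.continuousAt.comp ((fl.continuousAt.comp (c1.clm_comp c2)).clm_comp c2)
  · obtain ⟨⟨-, hz⟩, hz'⟩ := hy (τ, u z) hτ e
    have hc := (brk_chart hu hz).differentiableAt (by simp)
    have tq : Tendsto (fun w => (τ, (chartAt E x ∘ u) w)) (𝓝 z) (𝓝 (τ, chartAt E x (u z))) :=
      continuousAt_const.prodMk hc.continuousAt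
    have ev := tq.eventually (hN _ hz')
    have hp := brk_par_chart hu.continuousAt hz
    have e1 : (fun w => (τ, Q.ι (τ, u w))) =ᶠ[𝓝 z] fun w => (τ, f (τ, (chartAt E x ∘ u) w)) := by
      filter_upwards [ev, hp] with w hw hw'
      rw [hw.2.1 hτ, hw']; rfl
    have d1 : DifferentiableAt ℝ (fun w => (τ, Q.ι (τ, u w))) z :=
      ((differentiableAt_const τ).prodMk (DifferentiableAt.comp z (g := f)
        (f := fun w => (τ, (chartAt E x ∘ u) w)) (ev.self_of_nhds.1.differentiableAt one_ne_zero)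
        ((differentiableAt_const τ).prodMk hc))).congr_of_eventuallyEq e1
    have e2 : r ∘ (fun w => (τ, Q.ι (τ, u w))) =ᶠ[𝓝 z] chartAt E x ∘ u := by
      filter_upwards [ev, e1] with w hw hw'
      rw [Function.comp_apply, hw']; exact hw.2.2
    have e3 := fderiv_comp z (g := r) (f := fun w => (τ, Q.ι (τ, u w)))
      (by rw [← e] at hry; exact hry.differentiableAt one_ne_zero) d1
    have e4 : r y = (chartAt E x ∘ u) z := e ▸ e2.self_of_nhds
    rw [brk_pull2_congr hp, brk_pull2_comp (brk_md (brk_par (e4 ▸ hyt))) hc, ← e2.fderiv_eq, e3,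
      ← e4, e]
    rfl

/-- One ambient form for all small parameters. -/
theorem Pre.exists_rep (Q : Pre V O) {α : X → Bil E ℝ} (hα : Form univ α) (hT : O.Test α) :
    ∃ a : ℝ × V → Bil (ℝ × V) ℝ, Continuous a ∧ (∀ e ξ, a e ξ ξ = 0) ∧
      ∃ s > 0, ∀ e : ℝ × V, |e.1| ≤ s → a e ∈ Q.Rep α e := by
  obtain ⟨U, hU, hL, h0⟩ := hT
  have z0 : ∀ v, Q.LocRep α (0, v) := fun v => by
    by_cases h : ∃ x ∈ O.W, Q.ι (0, x) = v
    · obtain ⟨x, hx, rfl⟩ := h
      exact Q.locRep_reg hα hx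
    · refine Q.locRep_zero hU h0 fun p _ e => hL ?_
      obtain ⟨τ, x⟩ := p
      obtain rfl : τ = 0 := congrArg Prod.fst e
      by_contra hx
      exact h ⟨x, hx, congrArg Prod.snd e⟩
  have tube : ∀ᶠ τ in 𝓝 (0 : ℝ), ∀ x ∈ (univ : Set X), τ ∈ Q.I → Q.LocRep α (τ, Q.ι (τ, x)) := by
    refine isCompact_univ.eventually_forall_of_forall_eventually fun x _ => ?_
    obtain ⟨g, hg⟩ := z0 (Q.ι (0, x))
    have hc : ContinuousWithinAt (fun p : ℝ × X => (p.1, Q.ι p)) (Q.I ×ˢ univ) (0, x) :=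
      (continuousOn_fst.prodMk Q.cont) _ ⟨Q.I0, trivial⟩
    filter_upwards [eventually_nhdsWithin_iff.1 (hc.eventually hg.eventually_nhds)] with p hp hI
    exact ⟨g, hp ⟨hI, trivial⟩⟩
  obtain ⟨s, hs, hb⟩ := Metric.nhds_basis_closedBall.eventually_iff.1 tube
  obtain ⟨a, ha⟩ := exists_continuous_forall_mem_convex_of_local
    (t := fun e : ℝ × V => {b : Bil (ℝ × V) ℝ | (∀ ξ, b ξ ξ = 0) ∧ (|e.1| ≤ s → b ∈ Q.Rep α e)})
    (fun e b hb b' hb' k l _ _ hkl => ⟨fun ξ => by simp [hb.1, hb'.1], fun h τ hτ u z hu e' => by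
      simp only [add_apply, smul_apply,
        hb.2 h τ hτ u z hu e', hb'.2 h τ hτ u z hu e', smul_eq_mul]
      rw [← add_mul, hkl, one_mul]⟩) fun e => by
      by_cases h : |e.1| ≤ s
      · obtain ⟨g, hg⟩ : Q.LocRep α e := by
          by_cases h' : ∃ p : ℝ × X, p.1 ∈ Q.I ∧ (p.1, Q.ι p) = e
          · obtain ⟨p, hp, rfl⟩ := h'
            exact hb (by simpa using h) p.2 trivial hp
          · exact Q.locRep_zero isOpen_empty (by simp) fun p hp e => h' ⟨p, hp, e⟩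
        exact ⟨_, hg, g, fun y hy => hy.1.continuousWithinAt, fun y hy => ⟨hy.2.1, fun _ => hy.2.2⟩⟩
      · refine ⟨{y | s < |y.1|}, (isOpen_lt continuous_const (by fun_prop)).mem_nhds (not_le.1 h),
          fun _ => 0, continuousOn_const, fun y hy => ⟨fun _ => rfl, fun h => absurd hy h.not_gt⟩⟩
  exact ⟨a, a.continuous, fun e => (ha e).1, s, hs, fun e => (ha e).2⟩

/-- The field `form` of the degeneration of a family. -/
theorem Pre.form (Q : Pre V O) {t : ℕ → ℝ} (hI : ∀ n, t n ∈ Q.I) (ht : Tendsto t atTop (𝓝 0))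
    (α : X → Bil E ℝ) (hα : Form univ α) (hT : O.Test α) :
    ∃ a : ℝ × V → Bil (ℝ × V) ℝ, Continuous a ∧ (∀ e ξ, a e ξ ξ = 0) ∧
      (∀ᶠ n in atTop, ∀ u S, IsOpen S → Hol (Q.J (t n)) u S → ∀ z ∈ S,
        dens a ((fun x => (t n, Q.ι (t n, x))) ∘ u) z = pull2 u α z 1 .I) ∧
      ∀ u S, IsOpen S → Hol O.J u S → MapsTo u S O.W → ∀ z ∈ S,
        dens a ((fun x => ((0 : ℝ), Q.ι (0, x))) ∘ u) z = pull2 u α z 1 .I := by
  obtain ⟨a, h1, h2, s, hs, h⟩ := Q.exists_rep hα hT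
  refine ⟨a, h1, h2, ?_, fun u S hS hu _ z hz => h (0, Q.ι (0, u z)) (by simpa using hs.le) 0 Q.I0
    u z (hu.1.contMDiffAt (hS.mem_nhds hz)) rfl⟩
  filter_upwards [ht.eventually (Metric.closedBall_mem_nhds 0 hs)] with n hn u S hS hu z hz
  exact h (t n, Q.ι (t n, u z)) (by simpa using hn) _ (hI n) u z
    (hu.1.contMDiffAt (hS.mem_nhds hz)) rfl

end Pool.Agent.Lib.MP_1c0d65_gt.PW
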