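import Pool.Agent.Lib.MP_1c0d65_gt.F.PreB
import Pool.Agent.Lib.MP_1c0d65_gt.F.Form

/-! A family gives a degeneration. -/

set_option autoImplicit false
set_option linter.unusedSectionVars false

open scoped Manifold ContDiff Topology
open Set MeasureTheory Filter Metric

noncomputable section

namespace Pool.Agent.Lib.MP_1c0d65_gt.PW

variable {X : Type} [TopologicalSpace X] [ChartedSpace E X] [IsManifold 𝓘(ℝ, E) ∞ X]
  [T2Space X] [CompactSpace X] [MeasurableSpace X] [BorelSpace X] {c : Ctx X} {O : Orb c}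
  {V : Type} [NormedAddCommGroup V] [NormedSpace ℝ V] [FiniteDimensional ℝ V]

theorem Ctx.nonempty_X (c : Ctx X) : Nonempty X := by
  by_contra h
  have := not_nonempty_iff.1 h
  refine c.hG (Matrix.det_eq_zero_of_row_eq_zero 0 fun j => ?_)
  simpa [pair, integral_of_isEmpty] using (c.form 0 j).symm

theorem Pre.deg_of (sm : ∀ (T : Tg (ℝ × V) FF) {w : ℂ → ℝ × V} {z : ℂ},
      (∀ᶠ y in 𝓝 z, T.Hol w y) → ContDiffAt ℝ ∞ w z)
    (Q : Pre V O) {t : ℕ → ℝ} (hI : ∀ n, t n ∈ Q.I) (ht : Tendsto t atTop (𝓝 0))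
    (h0 : O.n = 0 ∨ ∀ n, t n ≠ 0) : Nonempty (DegV (ℝ × V) O fun n => Q.J (t n)) := by
  have := c.nonempty_X
  have ch : ∀ x : O.W, Q.Ch x := fun x => (Q.exists_ch x.2).some
  have sg : ∀ i, Q.Sg i := fun i => (Q.exists_sg i).some
  obtain ⟨s, r, hr0, hs⟩ := Pre.exists_fin ch sg
  have hr : ∀ t ∈ Q.I ∩ closedBall 0 r, ∀ x, ∃ k, Q.κ (t, x) ∈ Pre.dm ch sg k := fun t ht x =>
    let ⟨k, _, h⟩ := hs t ht x; ⟨k, h⟩
  have hn : ∀ᶠ n in atTop, t n ∈ Q.I ∩ closedBall 0 r :=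
    (ht.eventually (closedBall_mem_nhds 0 hr0)).mono fun n h => ⟨hI n, h⟩
  have h0' : ∀ n, O.n = 0 ∨ t n ≠ 0 := fun n => h0.imp_right fun h => h n
  have hl : ∀ x ∈ O.W, Function.invFunOn (fun x => Q.κ (0, x)) O.W (Q.κ (0, x)) = x :=
    fun x hx => (Q.κ_eq hx (Function.invFunOn_eq (f := fun x => Q.κ (0, x)) ⟨x, hx, rfl⟩)).2
  refine ⟨{
    T := Pre.tg ch sg hr
    ι := fun n x => Q.κ (t n, x)
    ι0 := fun x => Q.κ (0, x)
    ρ := Function.invFunOn (fun x => Q.κ (0, x)) O.W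
    P := fun i => (0, Q.P i)
    cont := Eventually.of_forall fun n => Q.κ_slice (hI n)
    hol := hn.mono fun n h u S hS hu z hz => Pre.tg_hol hr h (h0' n) hS hu hz
    en := ⟨∑ k ∈ s, Pre.cst ch sg k, hn.mono fun n h u S hS hu z hz => ?_⟩
    inj := fun y hy => ⟨_, (ch ⟨y, hy⟩).opN.mem_nhds (ch ⟨y, hy⟩).mem,
      Eventually.of_forall fun n x x' hx e => ?_⟩
    cl := fun e he => ?_
    pts := fun y _ => ?_
    left := hl
    ne := fun x hx i h => Q.ne x hx i (congrArg Prod.snd h)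
    sm0 := fun x hx => ContMDiffAt.contMDiffWithinAt ?_
    back := fun w S hS h => Pre.tg_back hr hl hS h fun z hz =>
      sm _ (mem_of_superset (hS.mem_nhds hz) fun y hy => (h y hy).1)
    sing := fun i U hU hL => ⟨_, Q.shrink (hU.preimage continuous_snd) (e := (0, Q.P i))
      fun _ _ _ h => hL (Q.κ_eq_P h).2, fun x _ h => h 0 Q.I0 x rfl⟩
    form := Q.form hI ht }⟩
  · obtain ⟨k, hk, hN⟩ := hs _ h (u z)
    have h1 := (Pre.est h.1 (h0' n) hS hu hz k hN).2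
    have h2 : 0 ≤ pull2 u c.om z 1 .I :=
      nonneg_of_mul_nonneg_right ((sq_nonneg _).trans h1) (Pre.cst_pos ch sg k)
    exact h1.trans (mul_le_mul_of_nonneg_right
      (Finset.single_le_sum (fun k _ => (Pre.cst_pos ch sg k).le) hk) h2)
  · obtain ⟨a1, a2⟩ := (ch ⟨y, hy⟩).left _ (hI n) x hx
    obtain ⟨b1, b2⟩ := (ch ⟨y, hy⟩).left _ (hI n) x' (e ▸ hx)
    exact (chartAt E y).injOn a1 b1 (a2.symm.trans (e ▸ b2))
  · have h1 : e ∈ range fun x => Q.κ (0, x) := by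
      by_contra h
      obtain ⟨A, hA, B, hB, hd⟩ := Filter.disjoint_iff.1
        ((isCompact_range (Q.κ_slice Q.I0)).disjoint_nhdsSet_left.2
          (fun x hx => disjoint_nhds_nhds.2 fun (h' : x = e) => h (h' ▸ hx)))
      obtain ⟨A', hA', oA, sA⟩ := mem_nhdsSet_iff_exists.1 hA
      obtain ⟨n, ⟨x, hx⟩, h2⟩ := ((he B hB).and_eventually
        (ht.eventually (Q.tube hA' fun x => oA ⟨x, rfl⟩))).exists
      exact disjoint_left.1 hd (sA (h2 (hI n) x)) hx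
    obtain ⟨x, rfl⟩ := h1
    by_cases hx : x ∈ O.W
    · exact .inl ⟨x, hx, rfl⟩
    · obtain ⟨i, hi⟩ := mem_iUnion.1 (not_not.1 hx)
      exact .inr ⟨i, Prod.ext rfl (Q.onL i x hi).symm⟩
  · refine (Q.κ_cont (0, y) ⟨Q.I0, mem_univ y⟩).tendsto.comp
      (g := Q.κ) (f := fun p : ℕ × X => (t p.1, p.2)) (tendsto_nhdsWithin_iff.2
        ⟨(ht.comp tendsto_fst).prodMk_nhds tendsto_snd,
          Eventually.of_forall fun p => ⟨hI _, mem_univ _⟩⟩)
  · set H := ch ⟨x, hx⟩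
    have h2 : ∀ y, Q.κ (0, y) ∈ H.N → (0, chartAt E x y) ∈ H.U := fun y hy =>
      (H.left 0 Q.I0 y hy).2 ▸ H.maps _ hy
    have h1 : (fun y => Q.κ (0, y)) =ᶠ[𝓝 x] (fun v => ((0 : ℝ), H.ιl (0, v))) ∘ chartAt E x := by
      filter_upwards [(Q.κ_slice Q.I0).continuousAt.eventually (H.opN.mem_nhds H.mem)] with y hy
      exact Prod.ext rfl ((H.eqι _ (h2 _ hy) Q.I0).trans (congrArg (fun y => Q.ι (0, y))
        ((chartAt E x).left_inv (H.left 0 Q.I0 _ hy).1))).symm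
    refine (ContMDiffAt.comp x (ContDiffAt.contMDiffAt ?_)
      (Emb.chart_smooth x (mem_chart_source E x))).congr_of_eventuallyEq h1
    exact contDiffAt_const.prodMk ((H.smι _ (h2 x H.mem)).comp _
      (contDiffAt_const.prodMk contDiffAt_id))

end Pool.Agent.Lib.MP_1c0d65_gt.PW
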