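import Pool.Agent.Lib.MP_1c0d65_gt.PW.Deg
import Pool.Agent.Lib.MP_1c0d65_gt.PW.Plot

/-! Whitney coordinates, and the data of a degeneration without singular points. -/

set_option autoImplicit false

open scoped Manifold ContDiff Topology
open Set MeasureTheory Filter Metric

noncomputable section

namespace Pool.Agent.Lib.MP_1c0d65_gt.PW

variable {X : Type} [TopologicalSpace X] [ChartedSpace E X] [IsManifold 𝓘(ℝ, E) ∞ X]

theorem exists_whitney [T2Space X] [CompactSpace X] :
    ∃ (M : ℕ) (e : X → EuclideanSpace ℝ (Fin M)),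
    ContMDiff 𝓘(ℝ, E) 𝓘(ℝ, EuclideanSpace ℝ (Fin M)) ∞ e ∧ Function.Injective e ∧
      ∀ x, Function.Injective (dfn e x) := by
  obtain ⟨M, e, he, hi, hd⟩ := exists_embedding_euclidean_of_compact (I := 𝓘(ℝ, E)) (M := X)
  exact ⟨M, e, he, hi.injective, hd⟩

/-- The square of a structure read in a chart. -/
theorem pullJ_par_sq {x : X} {y : E} {U : Set X} (hy : y ∈ dom x U) {J : X → E →L[ℝ] E}
    (h : ∀ v, J (par x y) (J (par x y) v) = -v) (v : E) :
    pullJ (par x) J y (pullJ (par x) J y v) = -v := by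
  have hi := par_inv hy
  rw [pullJ_apply, dif_pullJ hi, h, map_neg, hi.inverse_apply_self]

variable [MeasurableSpace X] {c : Ctx X}

/-- A smooth family of tame structures near a parameter, as a degeneration without singular
points. -/
def Ctx.Fam.pre {F : ℝ → X → E →L[ℝ] E} (hF : c.Fam F) (τ0 R : ℝ) (hR : 0 ≤ R) {V : Type}
    [NormedAddCommGroup V] [NormedSpace ℝ V] {e : X → V} (he : ContMDiff 𝓘(ℝ, E) 𝓘(ℝ, V) ∞ e)
    (hi : Function.Injective e) (hd : ∀ x, Function.Injective (dfn e x)) :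
    Pre V (Orb.triv c (F τ0) (hF.1 τ0)) where
  I := Icc (-R) R
  cI := isCompact_Icc
  I0 := ⟨by linarith, hR⟩
  J t := F (τ0 + t)
  ι p := e p.2
  P := Fin.elim0
  cont := (he.continuous.comp continuous_snd).continuousOn
  onL i := i.elim0
  Pinj i := i.elim0
  ne _ _ i := i.elim0
  inj0 := hi.injOn
  J0 x _ := by rw [add_zero]; rfl
  loc x _ := by
    have hx : chartAt E x x ∈ dom x univ := mem_dom (mem_chart_source E x) trivial
    have h1 : ∀ y ∈ dom x univ, ContDiffAt ℝ ∞ (e ∘ par x) y := fun y hy =>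
      FnAt.comp_plot (he _) (par_smAt hy)
    refine ⟨fun q => e (par x q.2), fun q => pullJ (par x) (F (τ0 + q.1)) q.2,
      fun v hv => hd x ?_, ?_⟩
    · have h2 := (HasFDerivAt.comp (g := e ∘ par x) (f := Prod.snd) ((0 : ℝ), chartAt E x x)
        ((h1 _ hx).differentiableAt (by simp)).hasFDerivAt hasFDerivAt_snd).fderiv
      have h3 := fderiv_fn_comp ((he (par x (chartAt E x x))).mdifferentiableAt (by simp))
        ((par_smAt hx).dfAt (by simp))
      rw [dif_par_self, par_self] at h3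
      rw [show (fun q : ℝ × E => e (par x q.2)) = (e ∘ par x) ∘ Prod.snd from rfl, h2, h3] at hv
      rw [map_zero]
      exact hv
    · have h2 : ∀ᶠ q : ℝ × E in 𝓝 ((0 : ℝ), chartAt E x x), q.2 ∈ dom x univ :=
        continuous_snd.continuousAt.preimage_mem_nhds ((isOpen_dom x isOpen_univ).mem_nhds hx)
      filter_upwards [h2] with q hq
      have h3 := (hF.2 x).contDiffAt (x := (τ0 + q.1, q.2))
        ((isOpen_univ.prod (isOpen_dom x isOpen_univ)).mem_nhds ⟨trivial, hq⟩)
      exact ⟨ContDiffAt.comp (g := e ∘ par x) q (h1 _ hq) contDiffAt_snd,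
        h3.comp (f := fun q : ℝ × E => (τ0 + q.1, q.2)) q (by fun_prop),
        pullJ_par_sq hq fun v => ((hF.1 _).1 _ trivial v).1, fun _ => ⟨rfl, rfl⟩⟩
  sing i := i.elim0

omit [MeasurableSpace X] in
/-- Whitney coordinates in the ambient space. -/
theorem exists_whitney_VV [T2Space X] [CompactSpace X] (n : ℕ) : ∃ (M : ℕ) (e : X → VV M n),
    ContMDiff 𝓘(ℝ, E) 𝓘(ℝ, VV M n) ∞ e ∧ Function.Injective e ∧
      ∀ x, Function.Injective (dfn e x) := by
  obtain ⟨M, e, he, hi, hd⟩ := exists_whitney (X := X)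
  let A : EuclideanSpace ℝ (Fin M) →L[ℝ] VV M n :=
    (ContinuousLinearMap.inl ℝ _ _).comp (ContinuousLinearMap.inl ℝ _ _)
  have hA : Function.Injective A := fun a b h => congrArg (fun z : VV M n => z.1.1) h
  refine ⟨M, A ∘ e, A.contDiff.comp_contMDiff he, hA.comp hi, fun x => ?_⟩
  rw [dfn_comp A.differentiableAt ((he x).mdifferentiableAt (by simp)), A.fderiv]
  exact hA.comp (hd x)

end Pool.Agent.Lib.MP_1c0d65_gt.PW
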