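import Pool.Agent.Lib.MP_1c0d65_gt.F.Col
import Pool.Agent.Lib.MP_1c0d65_gt.F.Cut
import Pool.Agent.Lib.MP_1c0d65_gt.F.Dat
import Pool.Agent.Lib.MP_1c0d65_gt.F.Whit
import Pool.Agent.Lib.MP_1c0d65_gt.F.PreC
import Pool.Agent.Lib.MP_1c0d65_gt.C.LocS

/-! The collapsing maps of a degeneration. -/

set_option autoImplicit false

open scoped Manifold ContDiff Topology
open Set Filter Metric

noncomputable section

namespace Pool.Agent.Lib.MP_1c0d65_gt.PW.Fd

section asm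
variable {M n : ℕ} {y y' v : EuclideanSpace ℝ (Fin M)} {f f' g : Fin n → ℝ × C5}

/-- The cut-off of the Whitney coordinates. -/
def tht (f : Fin n → ℝ × C5) : ℝ := ∏ i, (1 - (f i).1)

/-- The ambient point with given Whitney coordinates, markers and invariants. -/
def asm (w : EuclideanSpace ℝ (Fin M) × (Fin n → ℝ × C5)) : VV M n :=
  ((tht w.2 • w.1, tht w.2), w.2)

theorem contDiff_tht : ContDiff ℝ ∞ (tht (n := n)) :=
  contDiff_prod fun i _ => contDiff_const.sub (contDiff_apply ℝ _ i).fst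

theorem contDiff_asm : ContDiff ℝ ∞ (asm (M := M) (n := n)) :=
  (((contDiff_tht.comp contDiff_snd).smul contDiff_fst).prodMk
    (contDiff_tht.comp contDiff_snd)).prodMk contDiff_snd

theorem tht_eq_zero : tht f = 0 ↔ ∃ i, (f i).1 = 1 := by
  simp only [tht, Finset.prod_eq_zero_iff, Finset.mem_univ, true_and, sub_eq_zero]
  exact exists_congr fun _ => eq_comm

theorem asm_one {i : Fin n} (h : (f i).1 = 1) : asm (y, f) = ((0, 0), f) := by
  simp only [asm, tht_eq_zero.2 ⟨i, h⟩, zero_smul]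

theorem asm_inj (h : asm (y, f) = asm (y', f')) : f = f' ∧ (y = y' ∨ ∃ i, (f i).1 = 1) := by
  obtain rfl : f = f' := congrArg Prod.snd h
  refine ⟨rfl, or_iff_not_imp_right.2 fun h0 => ?_⟩
  exact smul_right_injective _ (mt tht_eq_zero.1 h0) (congrArg (fun z : VV M n => z.1.1) h)

theorem asm_imm (h : fderiv ℝ asm (y, f) (v, g) = 0) : g = 0 ∧ (v = 0 ∨ ∃ i, (f i).1 = 1) := by
  have h1 := ((contDiff_tht.comp (contDiff_snd (E := EuclideanSpace ℝ (Fin M)))).differentiable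
    (by simp) (y, f)).hasFDerivAt
  have h2 : fderiv ℝ asm (y, f) = _ :=
    (((h1.smul hasFDerivAt_fst).prodMk h1).prodMk hasFDerivAt_snd).fderiv
  rw [h2] at h
  have h3 := congrArg (fun z : VV M n => z.1.1) h
  have h4 : fderiv ℝ (tht ∘ Prod.snd) (y, f) (v, g) = 0 := congrArg (fun z : VV M n => z.1.2) h
  refine ⟨congrArg Prod.snd h, or_iff_not_imp_right.2 fun h0 => ?_⟩
  simpa [h4, mt tht_eq_zero.1 h0] using h3

end asm

variable {X : Type} [TopologicalSpace X] [ChartedSpace E X] [MeasurableSpace X] {c : Ctx X}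
  {n : ℕ} {L : Fin n → Set X}

/-- Markers and invariants on the total space. -/
def Cut.mk' (D : Cut c L) (w : ℝ × X) (i : Fin n) : ℝ × C5 :=
  (D.M i).dsc (mm (D.M i).p (D.M i).q (D.M i).δ) w

theorem Cut.adm (D : Cut c L) (i : Fin n) : (D.M i).Adm (mm (D.M i).p (D.M i).q (D.M i).δ) :=
  ⟨contDiff_mm _ _ _, fun _ h a => mm_act (D.M i).cov.hp h a,
    _, by linarith [(D.M i).hδ], fun _ => mm_supp (D.M i).hδ⟩

theorem Cut.mk'_single (D : Cut c L) {w : ℝ × X} {i : Fin n} (h : w.2 ∈ D.V i) :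
    D.mk' w = Pi.single i (D.mk' w i) := by
  funext j
  by_cases hj : j = i
  · rw [hj, Pi.single_eq_same]
  · rw [Pi.single_eq_of_ne hj]
    exact (D.M j).dsc_out _ fun h' => hj (D.idx h' h)

theorem Cut.mk'_one (D : Cut c L) {x : X} {i : Fin n} (hx : x ∉ L i) (h : (D.mk' (0, x) i).1 = 1) :
    ∃ a ∈ Dm (D.M i).p (D.M i).δ, fq (D.M i).p a = 0 ∧ (D.M i).G a = x ∧ cut (D.M i).δ a ≠ 0 ∧
      D.mk' (0, x) i = mm (D.M i).p (D.M i).q (D.M i).δ a := by
  rcases (D.M i).dsc_cases (mm (D.M i).p (D.M i).q (D.M i).δ) (0, x) with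
    h1 | ⟨a, ha, h1, h2, h3⟩ | ⟨-, h1, -⟩
  · rw [Cut.mk', h1] at h
    exact absurd h zero_ne_one
  · rw [Cut.mk', h3] at h
    exact ⟨a, ha, by simpa using h1, h2, fun h0 => zero_ne_one (h0.symm.trans h), h3⟩
  · exact absurd h1 hx

variable [IsManifold 𝓘(ℝ, E) ∞ X] [T2Space X] [CompactSpace X] {O : Orb c}

theorem Dat.loc (D : Dat c O.L) {M : ℕ} {e : X → EuclideanSpace ℝ (Fin M)}
    (he : ContMDiff 𝓘(ℝ, E) 𝓘(ℝ, EuclideanSpace ℝ (Fin M)) ∞ e)
    (hd : ∀ x, Function.Injective (dfn e x)) {x : X} (hx : x ∈ O.W) :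
    ∃ ιl : ℝ × E → VV M O.n, (∀ v, fderiv ℝ ιl (0, chartAt E x x) (0, v) = 0 → v = 0) ∧
      ∀ᶠ q in 𝓝 ((0 : ℝ), chartAt E x x), ContDiffAt ℝ ∞ ιl q ∧
        (0 ≤ q.1 → ιl q = asm (e (par x q.2), D.mk' (q.1, par x q.2))) := by
  have hL : ∀ i, x ∉ O.L i := fun i h => hx (mem_iUnion.2 ⟨i, h⟩)
  choose φ h1 h2 using fun i => (D.adm i).dsc_loc (t := 0) (x := x) fun h => hL i h.2
  have hc : chartAt E x x ∈ dom x univ := mem_dom (mem_chart_source E x) trivial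
  have h3 : ∀ᶠ q : ℝ × E in 𝓝 ((0 : ℝ), chartAt E x x), q.2 ∈ dom x univ :=
    continuous_snd.continuousAt.preimage_mem_nhds ((isOpen_dom x isOpen_univ).mem_nhds hc)
  have h4 : ∀ {y}, y ∈ dom x univ → ContDiffAt ℝ ∞ (e ∘ par x) y := fun hy =>
    FnAt.comp_plot (he _) (par_smAt hy)
  have h5 := eventually_all.2 h1
  refine ⟨asm ∘ fun q => (e (par x q.2), fun i => φ i q), fun v hv => ?_, ?_⟩
  · have h6 := HasFDerivAt.comp (g := e ∘ par x) (f := Prod.snd) ((0 : ℝ), chartAt E x x)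
      ((h4 hc).differentiableAt (by simp)).hasFDerivAt hasFDerivAt_snd
    have h7 := hasFDerivAt_pi.2 fun i =>
      ((h5.self_of_nhds i).1.differentiableAt (by simp)).hasFDerivAt
    have h8 := ((contDiff_asm.differentiable (by simp) _).hasFDerivAt.comp _ (h6.prodMk h7)).fderiv
    rw [show fderiv ℝ (asm ∘ fun q => (e (par x q.2), fun i => φ i q)) (0, chartAt E x x) = _
      from h8] at hv
    obtain ⟨h9, h10 | ⟨i, h10⟩⟩ := asm_imm hv
    · have h11 := fderiv_fn_comp ((he (par x (chartAt E x x))).mdifferentiableAt (by simp))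
        ((par_smAt hc).dfAt (by simp))
      rw [dif_par_self, par_self] at h11
      rw [h11] at h10
      exact hd x (h10.trans (map_zero _).symm)
    · have h11 := (h5.self_of_nhds i).2 le_rfl
      rw [par_self] at h11
      obtain ⟨a, ha, h12, h13, h14, -⟩ := D.mk'_one (hL i) ((congrArg Prod.fst h11).symm.trans h10)
      refine h2 i a ha (by simpa using h12) h13 (fun b hb h15 h16 w hw => ?_) v (congrFun h9 i)
      refine mm_imm (D.M i).cov.hp (xy_ne (D.M i).cov.hp (by simpa using h15) hb.2.1) ?_ hw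
      rwa [show cut (D.M i).δ b = cut (D.M i).δ a from congrArg Prod.fst h16]
  · filter_upwards [h3, h5] with q h6 h7
    refine ⟨contDiff_asm.contDiffAt.comp q ((ContDiffAt.comp (g := e ∘ par x) q (h4 h6)
      contDiffAt_snd).prodMk (contDiffAt_pi.2 fun i => (h7 i).1)), fun h8 => ?_⟩
    exact congrArg (fun f => asm (e (par x q.2), f)) (funext fun i => (h7 i).2 h8)

omit [T2Space X] [CompactSpace X] in
theorem Dat.sing (D : Dat c O.L) {M : ℕ} (e : X → EuclideanSpace ℝ (Fin M)) (i : Fin O.n) :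
    ∃ (π : VV M O.n →L[ℝ] C5) (σ : C5 →L[ℝ] VV M O.n) (C : ℝ),
      ∃ N ∈ 𝓝 ((0 : ℝ), (((0, 0), Pi.single i (1, 0)) : VV M O.n)), 0 < C ∧ ∀ t : ℝ,
      (∀ x, (t, asm (e x, D.mk' (t, x))) ∈ N → asm (e x, D.mk' (t, x)) = ((0, 0), Pi.single i (1, 0))
        + σ (π (asm (e x, D.mk' (t, x)) - ((0, 0), Pi.single i (1, 0))))) ∧
      (t ≠ 0 → ∀ u S, IsOpen S → Hol (D.J t) u S → ∀ z ∈ S,
        (t, asm (e (u z), D.mk' (t, u z))) ∈ N →
        ContDiffAt ℝ 1 (fun w => asm (e (u w), D.mk' (t, u w))) z ∧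
        DifferentiableAt ℂ (fun w => π (asm (e (u w), D.mk' (t, u w)))) z ∧
        ‖fderiv ℝ (fun w => asm (e (u w), D.mk' (t, u w))) z‖ ^ 2 ≤ C * pull2 u c.om z 1 .I) := by
  set m := D.M i with hm
  let π : VV M O.n →L[ℝ] C5 := (ContinuousLinearMap.snd ℝ ℝ C5).comp
    ((ContinuousLinearMap.proj i).comp (ContinuousLinearMap.snd ℝ _ _))
  let σ : C5 →L[ℝ] VV M O.n := (ContinuousLinearMap.inr ℝ _ _).comp
    ((ContinuousLinearMap.single ℝ (fun _ => ℝ × C5) i).comp (ContinuousLinearMap.inr ℝ ℝ C5))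
  have hπ : ∀ z, π z = (z.2 i).2 := fun _ => rfl
  have key : ∀ t x, x ∈ D.V i → (D.mk' (t, x) i).1 = 1 → asm (e x, D.mk' (t, x)) =
      ((0, 0), Pi.single i (1, 0)) + σ (D.mk' (t, x) i).2 := fun t x hx h => by
    rw [asm_one h]
    refine Prod.ext (by simp [σ]) ?_
    change _ = (Pi.single i (1, 0) + Pi.single i (0, (D.mk' (t, x) i).2) : Fin O.n → ℝ × C5)
    rw [← Pi.single_add, Prod.mk_add_mk, add_zero, zero_add, ← h]
    exact D.mk'_single hx
  obtain ⟨U, hU, hLU, hχ⟩ := mem_nhdsSet_iff_exists.1 (D.χ1 i)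
  obtain ⟨r0, hr0, h0⟩ := m.near U hU hLU
  have hδ := m.hδ
  obtain ⟨η, hη, h1⟩ := mm_small (q := m.q) (d := m.δ) m.cov.hp
    (lt_min hr0 (by positivity : 0 < m.δ / 4))
  obtain ⟨C, hC, h2⟩ := ivt_bound m.p m.q m.δ
  have hA : ∀ t x, |t| < η → 1 / 2 < (D.mk' (t, x) i).1 → ‖(D.mk' (t, x) i).2‖ < η →
      x ∈ D.V i ∧ (D.mk' (t, x) i).1 = 1 ∧ (t ≠ 0 → ∃ a ∈ Dm m.p m.δ, fq m.p a = t ∧ m.G a = x ∧
        ‖a‖ < min r0 (m.δ / 4)) := fun t x h3 h4 h5 => by
    rw [Cut.mk', ← hm] at h4 h5 ⊢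
    rcases m.dsc_cases (mm m.p m.q m.δ) (t, x) with h6 | ⟨a, ha, h6, h7, h8⟩ | ⟨h6, h7, h8⟩
    · rw [h6] at h4
      norm_num at h4
    · rw [h8] at h4 h5 ⊢
      have h9 := h1 a h4 h5 (by rw [h6]; simpa using h3)
      exact ⟨(show m.G a = x from h7) ▸ m.into a ha, cut_one hδ (h9.trans_le (min_le_right _ _)),
        fun _ => ⟨a, ha, h6, h7, h9⟩⟩
    · exact ⟨D.LV i h7, by rw [h8, mm_zero m.cov.hp], fun h => absurd h6 h⟩
  refine ⟨π, σ, (‖σ‖ * C + 1) ^ 2 / m.cc,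
    {w | |w.1| < η ∧ 1 / 2 < (w.2.2 i).1 ∧ ‖(w.2.2 i).2‖ < η}, IsOpen.mem_nhds ?_ ?_,
    div_pos (by positivity) m.cov.hc, fun t => ⟨fun x hx => ?_, fun ht u S hS hu z hz hx => ?_⟩⟩
  · have h3 : Continuous fun w : ℝ × VV M O.n => w.2.2 i :=
      (continuous_apply i).comp continuous_snd.snd
    exact (isOpen_lt continuous_fst.abs continuous_const).inter
      ((isOpen_lt continuous_const h3.fst).inter (isOpen_lt h3.snd.norm continuous_const))
  · simp [hη]; norm_num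
  · obtain ⟨h3, h4, -⟩ := hA t x hx.1 hx.2.1 hx.2.2
    rw [map_sub, hπ, hπ]
    simp only [Pi.single_eq_same, sub_zero]
    exact key t x h3 h4
  · obtain ⟨h3, -, h4⟩ := hA t (u z) hx.1 hx.2.1 hx.2.2
    obtain ⟨a, ha, h4, h5, h6⟩ := h4 ht
    have hs : SmAt ∞ u z := hu.1.contMDiffAt (hS.mem_nhds hz)
    have hJ := D.hJ i t a ha h4 (hχ (h0 a ha (h6.trans_le (min_le_left _ _))))
    obtain ⟨s, s1, s2, s3, s4, s5⟩ := (D.adm i).dsc_hol ha h4 hs h5
      (by rw [hu.2 z hz, ← h5, hJ])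
    have h7 : ∀ᶠ w in 𝓝 z, D.mk' (t, u w) i = (1, ivt m.p m.q (s w)) := by
      have h8 := mm_near (p := m.p) (q := m.q) hδ (h6.trans_le (min_le_right _ _))
      rw [← s3] at h8
      filter_upwards [s4, s1.continuousAt.eventually h8] with w h9 h10 using h9.trans h10
    have h8 : (fun w => asm (e (u w), D.mk' (t, u w))) =ᶠ[𝓝 z]
        fun w => ((0, 0), Pi.single i (1, 0)) + σ (ivt m.p m.q (s w)) := by
      filter_upwards [h7, hs.continuousAt.preimage_mem_nhds ((D.opV i).mem_nhds h3)] with w h9 h10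
      rw [key t _ h10 (by rw [h9]), h9]
    have h9 := ((contDiff_ivt m.p m.q).differentiable (by simp) (s z)).hasFDerivAt.comp z
      (s1.differentiableAt (by simp)).hasFDerivAt
    refine ⟨((contDiffAt_const.add (σ.contDiff.contDiffAt.comp z ((contDiff_ivt m.p m.q).contDiffAt.comp
      z s1))).of_le (by simp)).congr_of_eventuallyEq h8, ?_, ?_⟩
    · refine ((differentiable_ivtC m.p m.q _).comp z s2).congr_of_eventuallyEq ?_
      filter_upwards [h7] with w h10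
      exact congrArg Prod.snd h10
    · have h10 : fderiv ℝ (fun w => asm (e (u w), D.mk' (t, u w))) z = _ :=
        (((σ.hasFDerivAt.comp z h9).const_add _).congr_of_eventuallyEq h8).fderiv
      have h11 : ‖fderiv ℝ (fun w => asm (e (u w), D.mk' (t, u w))) z‖ ≤
          (‖σ‖ * C + 1) * ‖fderiv ℝ s z‖ := by
        rw [h10]
        refine (ContinuousLinearMap.opNorm_comp_le _ _).trans ?_
        have h12 := (ContinuousLinearMap.opNorm_comp_le (fderiv ℝ (ivt m.p m.q) (s z))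
          (fderiv ℝ s z)).trans (mul_le_mul_of_nonneg_right (h2 (s z) (s3 ▸ ha.1.le)) (norm_nonneg _))
        have h13 := mul_le_mul_of_nonneg_left h12 (norm_nonneg σ)
        linarith [norm_nonneg (fderiv ℝ s z)]
      refine (pow_le_pow_left₀ (norm_nonneg _) h11 2).trans ?_
      rw [mul_pow, div_mul_eq_mul_div, mul_div_assoc]
      exact mul_le_mul_of_nonneg_left ((le_div_iff₀' m.cov.hc).2 s5) (sq_nonneg _)

/-- The collapsing maps. -/
def Dat.pre (D : Dat c O.L) (hJ : ∀ x ∈ O.W, D.J 0 x = O.J x) {M : ℕ}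
    {e : X → EuclideanSpace ℝ (Fin M)}
    (he : ContMDiff 𝓘(ℝ, E) 𝓘(ℝ, EuclideanSpace ℝ (Fin M)) ∞ e) (hi : Function.Injective e)
    (hd : ∀ x, Function.Injective (dfn e x)) : Pre (VV M O.n) O where
  I := Icc 0 D.t0
  cI := isCompact_Icc
  I0 := ⟨le_rfl, D.ht0.le⟩
  J := D.J
  ι w := asm (e w.2, D.mk' w)
  P i := ((0, 0), Pi.single i (1, 0))
  cont := contDiff_asm.continuous.comp_continuousOn
    ((he.continuous.comp continuous_snd).continuousOn.prodMk (continuousOn_pi.2 fun i =>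
      (D.adm i).dsc_cont.mono (prod_mono Icc_subset_Ici_self Subset.rfl)))
  onL i x hx := by
    have h : D.mk' (0, x) i = (1, 0) := ((D.M i).dsc_L _ hx).trans (mm_zero (D.M i).cov.hp)
    rw [asm_one (i := i) (by rw [h]), D.mk'_single (i := i) (D.LV i hx), h]
  Pinj i j h := by
    by_contra hij
    have := congrArg (fun z : VV M O.n => (z.2 i).1) h
    simp [Pi.single_eq_of_ne hij] at this
  ne x hx i h := by
    have h1 : D.mk' (0, x) i = (1, 0) := by
      simpa [asm] using congrArg (fun z : VV M O.n => z.2 i) h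
    obtain ⟨a, ha, h2, -, h3, h4⟩ := D.mk'_one (fun h => hx (mem_iUnion.2 ⟨i, h⟩)) (by rw [h1])
    have hp := (D.M i).cov.hp
    exact ha.2.1 (ivt_eq_zero hp h2
      ((mm_inj h3 (h4.symm.trans (h1.trans (mm_zero hp).symm))).trans (ivt_zero hp)))
  inj0 x hx x' hx' h := by
    obtain ⟨h1, h2 | ⟨i, h2⟩⟩ := asm_inj h
    · exact hi h2
    · obtain ⟨a, ha, h3, rfl, h4, h5⟩ := D.mk'_one (fun h => hx (mem_iUnion.2 ⟨i, h⟩)) h2
      obtain ⟨b, hb, h6, rfl, -, h7⟩ := D.mk'_one (fun h => hx' (mem_iUnion.2 ⟨i, h⟩)) (h1 ▸ h2)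
      have h8 := h3.trans h6.symm
      exact ((D.M i).cov.fb a ha b hb h8).2 (ivt_sep (D.M i).cov.hp (D.M i).cop h8
        (mm_inj h4 (h5.symm.trans ((congrFun h1 i).trans h7))))
  J0 := hJ
  loc x hx := by
    obtain ⟨ιl, h1, h2⟩ := D.loc he hd hx
    obtain ⟨Jl, h3⟩ := D.joint x _ (mem_chart_target E x) 0 ⟨le_rfl, D.ht0.le⟩
      fun _ => by rw [par_self]; exact hx
    refine ⟨ιl, Jl, h1, ?_⟩
    filter_upwards [h2, h3] with q h4 h5
    exact ⟨h4.1, h5.1, h5.2.1, fun h => ⟨h4.2 h.1, h5.2.2 h.1⟩⟩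
  sing i := by
    obtain ⟨π, σ, C, N, h1, h2, h3⟩ := D.sing e i
    exact ⟨π, σ, C, N, h1, h2, fun t _ => h3 t⟩

/-- The degeneration along a sequence of levels. -/
theorem Dat.deg [BorelSpace X] (D : Dat c O.L) (hJ : ∀ x ∈ O.W, D.J 0 x = O.J x) :
    Nonempty (Deg O fun m => D.J (D.t0 / (m + 1))) := by
  obtain ⟨M, e, he, hi, hd⟩ := exists_whitney (X := X)
  have h0 := D.ht0
  have h1 : ∀ m : ℕ, D.t0 / (m + 1) ∈ Ioc 0 D.t0 := fun m =>
    ⟨by positivity, div_le_self h0.le (by simp)⟩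
  obtain ⟨Q⟩ := Pre.deg_of (fun T _ _ h => T.smooth h) (D.pre hJ he hi hd)
    (t := fun m => D.t0 / (m + 1)) (fun m => Ioc_subset_Icc_self (h1 m))
    (by simpa [div_eq_mul_inv] using tendsto_one_div_add_atTop_nhds_zero_nat.const_mul D.t0)
    (.inr fun m => (h1 m).1.ne')
  exact ⟨⟨fun m => D.tame _ (h1 m), M, Q⟩⟩

end Pool.Agent.Lib.MP_1c0d65_gt.PW.Fd
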