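import Pool.Agent.Lib.MP_1c0d65_gt.F.Dat
import Pool.Agent.Lib.MP_1c0d65_gt.PW.Cay

/-! The family of almost complex structures, patched along the Cayley path. -/

set_option autoImplicit false

open scoped Manifold ContDiff Topology
open Set Filter Metric

noncomputable section

namespace Pool.Agent.Lib.MP_1c0d65_gt.PW.Fd

theorem ev_path {R P : Type} [NormedRing R] [NormedAlgebra ℝ R] [CompleteSpace R]
    [NormedAddCommGroup P] [NormedSpace ℝ P] {t : P → ℝ} {K J : P → R} {y : P}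
    (ht : ∀ᶠ z in 𝓝 y, ContDiffAt ℝ ∞ t z) (hK : ∀ᶠ z in 𝓝 y, ContDiffAt ℝ ∞ K z)
    (hJ : ∀ᶠ z in 𝓝 y, ContDiffAt ℝ ∞ J z) (h : IsUnit (J y + K y))
    (h' : IsUnit (1 - t y • Cay.tr (K y) (J y))) :
    ∀ᶠ z in 𝓝 y, ContDiffAt ℝ ∞ (fun z => Cay.path (t z) (K z) (J z)) z ∧
      IsUnit (1 - t z • Cay.tr (K z) (J z)) := by
  have inv : ∀ {f : P → R} {z : P}, ContDiffAt ℝ ∞ f z → IsUnit (f z) →
      ContDiffAt ℝ ∞ (fun z => Ring.inverse (f z)) z := by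
    intro f z hf ⟨u, hu⟩
    have := contDiffAt_ringInverse ℝ (n := ∞) u
    rw [hu] at this
    exact this.comp z hf
  have h1 : ∀ᶠ z in 𝓝 y, IsUnit (J z + K z) :=
    (hJ.self_of_nhds.add hK.self_of_nhds).continuousAt.eventually (Units.isOpen.mem_nhds h)
  have h2 : ∀ᶠ z in 𝓝 y, ContDiffAt ℝ ∞ (fun z => 1 - t z • Cay.tr (K z) (J z)) z := by
    filter_upwards [ht, hK, hJ, h1] with z a b c d
    exact contDiffAt_const.sub (a.smul ((inv (c.add b) d).mul (c.sub b)))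
  filter_upwards [h2, hK, h2.self_of_nhds.continuousAt.eventually (Units.isOpen.mem_nhds h')]
    with z a b c
  exact ⟨(a.mul b).mul (inv a c), c⟩

theorem sq_apply {T : E →L[ℝ] E} (h : T * T = -1) (v : E) : T (T v) = -v :=
  congrArg (fun S : E →L[ℝ] E => S v) h

variable {X : Type} [TopologicalSpace X] [ChartedSpace E X] [MeasurableSpace X]
  {c : Ctx X} {n : ℕ} {L : Fin n → Set X}

open Classical in
/-- The pushed structure of the fibre over `t`. -/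
def Cut.J1 (D : Cut c L) (i : Fin n) (t : ℝ) (x : X) : E →L[ℝ] E :=
  if h : ∃ a ∈ Dm (D.M i).p (D.M i).δ, fq (D.M i).p a = t ∧ (D.M i).G a = x then
    pushJ (D.M i).p (D.M i).G h.choose else c.J0 x

/-- The patched structure. -/
def Cut.J (D : Cut c L) (t : ℝ) (x : X) : E →L[ℝ] E :=
  c.J0 x + ∑ i, (Cay.path (D.χ i x) (c.J0 x) (D.J1 i t x) - c.J0 x)

theorem Cut.J_off (D : Cut c L) (t : ℝ) {x : X} (h : ∀ i, x ∉ D.K i) : D.J t x = c.J0 x := by
  rw [Cut.J, Finset.sum_eq_zero, add_zero]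
  intro i _
  rw [D.χ0 i x (h i), Cay.path_zero, sub_self]

theorem Cut.J_on (D : Cut c L) (t : ℝ) {x : X} {i : Fin n} (h : x ∈ D.V i) :
    D.J t x = Cay.path (D.χ i x) (c.J0 x) (D.J1 i t x) := by
  rw [Cut.J, Finset.sum_eq_single i, add_sub_cancel]
  · intro j _ hj
    rw [D.χ0 j x (D.notK h hj), Cay.path_zero, sub_self]
  · simp

theorem Cut.J1_tame (D : Cut c L) (i : Fin n) (t : ℝ) (x : X) (v : E) :
    D.J1 i t x (D.J1 i t x v) = -v ∧ (v ≠ 0 → 0 < c.om x v (D.J1 i t x v)) := by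
  unfold Cut.J1
  split_ifs with h
  · have := (D.M i).cov.pushJ_pos h.choose_spec.1 v
    rw [h.choose_spec.2.2] at this
    exact ⟨((D.M i).cov.et h.choose_spec.1).pushJ_sq v, this⟩
  · exact c.tame0.1 x trivial v

theorem Cut.units (D : Cut c L) (i : Fin n) (t : ℝ) (x : X) {s : ℝ} (hs : s ∈ Icc (0 : ℝ) 1) :
    IsUnit (D.J1 i t x + c.J0 x) ∧ IsUnit (1 - s • Cay.tr (c.J0 x) (D.J1 i t x)) :=
  ⟨Cay.isUnit_add (fun v => (c.tame0.1 x trivial v).2) fun v => (D.J1_tame i t x v).2,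
    Cay.isUnit_one_sub (fun v => (c.tame0.1 x trivial v).2) (fun v => (D.J1_tame i t x v).2)
      hs.1 hs.2⟩

theorem Cut.J_tame (D : Cut c L) (t : ℝ) (x : X) (v : E) :
    D.J t x (D.J t x v) = -v ∧ (v ≠ 0 → 0 < c.om x v (D.J t x v)) := by
  by_cases h : ∀ i, x ∉ D.K i
  · rw [D.J_off t h]; exact c.tame0.1 x trivial v
  · obtain ⟨i, hi⟩ := not_forall_not.1 h
    rw [D.J_on t (D.WV i (D.KW i hi))]
    refine ⟨?_, Cay.path_pos (c.hom.1.1 x trivial) (c.comp0 x) (fun v => (c.tame0.1 x trivial v).1)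
      (fun v => (D.J1_tame i t x v).1) (fun v => (c.tame0.1 x trivial v).2)
      (fun v => (D.J1_tame i t x v).2) (D.χ01 i x).1 (D.χ01 i x).2 v⟩
    have h0 : c.J0 x * c.J0 x = -1 := Cay.mul_self_of fun v => (c.tame0.1 x trivial v).1
    have h1 := Cay.path_sq h0 (D.units i t x (D.χ01 i x)).2
    exact sq_apply h1 v

variable [IsManifold 𝓘(ℝ, E) ∞ X]

theorem Cut.J1_eq (D : Cut c L) (i : Fin n) {t : ℝ} {a : C3} (ha : a ∈ Dm (D.M i).p (D.M i).δ)
    (e : fq (D.M i).p a = t) : D.J1 i t ((D.M i).G a) = pushJ (D.M i).p (D.M i).G a := by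
  have h : ∃ b ∈ Dm (D.M i).p (D.M i).δ, fq (D.M i).p b = t ∧ (D.M i).G b = (D.M i).G a :=
    ⟨a, ha, e, rfl⟩
  rw [Cut.J1, dif_pos h]
  exact (D.M i).cov.pushJ_eq h.choose_spec.1 ha (h.choose_spec.2.1.trans e.symm)
    h.choose_spec.2.2

theorem Cut.joint (D : Cut c L) (x : X) {y : E} (hy : y ∈ (chartAt E x).target) {t : ℝ}
    (ht : t ∈ Icc 0 D.t0) (h0 : t = 0 → par x y ∉ ⋃ i, L i) :
    ∃ Jl : ℝ × E → E →L[ℝ] E, ∀ᶠ q in 𝓝 (t, y), ContDiffAt ℝ ∞ Jl q ∧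
      (∀ v, Jl q (Jl q v) = -v) ∧ (0 ≤ q.1 → Jl q = pullJ (par x) (D.J q.1) q.2) := by
  have hT : ∀ᶠ q : ℝ × E in 𝓝 (t, y), q.2 ∈ (chartAt E x).target :=
    continuousAt_snd.preimage_mem_nhds ((chartAt E x).open_target.mem_nhds hy)
  have hP : ContinuousAt (fun q : ℝ × E => par x q.2) (t, y) :=
    (contMDiffAt_par hy).continuousAt.comp_of_eq continuousAt_snd rfl
  have hK : ∀ᶠ q : ℝ × E in 𝓝 (t, y),
      ContDiffAt ℝ ∞ (fun q : ℝ × E => pullJ (par x) c.J0 q.2) q := hT.mono fun q hq =>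
    ((c.tame0.2 x).contDiffAt (Filter.mem_of_superset ((chartAt E x).open_target.mem_nhds hq)
      fun z hz => ⟨hz, trivial⟩)).comp q contDiffAt_snd
  have hS : ∀ z ∈ (chartAt E x).target,
      pullJ (par x) c.J0 z * pullJ (par x) c.J0 z = -1 := by
    intro z hz
    obtain ⟨T, hT⟩ := Cay.exists_equiv x (U := univ) ⟨hz, trivial⟩
    rw [Cay.pullJ_eq hT, ← map_mul, Cay.mul_self_of fun v => (c.tame0.1 _ trivial v).1, map_neg,
      map_one]
  by_cases h : ∀ i, par x y ∉ D.K i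
  · refine ⟨fun q => pullJ (par x) c.J0 q.2, ?_⟩
    filter_upwards [hT, hK, hP.eventually (eventually_all.2 fun i =>
      (D.clK i).isOpen_compl.eventually_mem (h i))] with q h1 h3 h2
    refine ⟨h3, sq_apply (hS _ h1), fun _ => ?_⟩
    rw [pullJ, pullJ, D.J_off _ h2]
  obtain ⟨i, hi⟩ := not_forall_not.1 h
  obtain ⟨a, ha, e1, e2⟩ := D.onto i _ (D.KW i hi) t ht fun e h => h0 e (mem_iUnion.2 ⟨i, h⟩)
  have h1 : (D.M i).G a ∈ (chartAt E x).source := e2 ▸ (chartAt E x).map_target hy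
  have h2 : chartAt E x ((D.M i).G a) = y := by rw [e2]; exact (chartAt E x).right_inv hy
  obtain ⟨σ, H, h3, h4⟩ := (D.M i).cov.joint ha h1
  rw [e1, h2] at h3 h4
  have hc : ContDiff ℝ ∞ fun q : ℝ × E => ((q.1 : ℂ), q.2) :=
    (Complex.ofRealCLM.contDiff.comp contDiff_fst).prodMk contDiff_snd
  have h5 := (hc.continuous.continuousAt (x := (t, y))).eventually h4
  have h6 := Dm.ev ha
  rw [← h3] at h6
  have h7 := (h4.self_of_nhds.1.continuousAt.comp_of_eq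
    (hc.continuous.continuousAt (x := (t, y))) rfl).eventually h6
  have key : ∀ᶠ q : ℝ × E in 𝓝 (t, y), 0 ≤ q.1 → ∃ T : E ≃L[ℝ] E, dif (par x) q.2 = T ∧
      pullJ (par x) c.J0 q.2 = Cay.cnj T (c.J0 (par x q.2)) ∧
      H (q.1, q.2) = Cay.cnj T (D.J1 i q.1 (par x q.2)) := by
    filter_upwards [hT, h5, h7] with q a1 a2 a3 a4
    obtain ⟨T, hT⟩ := Cay.exists_equiv x (U := univ) ⟨a1, trivial⟩
    have a5 : σ (q.1, q.2) ∈ Dm (D.M i).p (D.M i).δ := a3 _ a4 a2.2.2.1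
    refine ⟨T, hT, Cay.pullJ_eq hT _, ?_⟩
    rw [← Cay.pullJ_eq hT, ← a2.2.2.2.2 a5, pullJ, ← a2.2.2.2.1, D.J1_eq i a5 a2.2.2.1]
  obtain ⟨T, -, b1, b2⟩ := key.self_of_nhds ht.1
  have hu := D.units i t (par x y) (D.χ01 i (par x y))
  have h8 := ev_path (t := fun q : ℝ × E => D.χ i (par x q.2)) (K := fun q => pullJ (par x) c.J0 q.2)
    (J := fun q => H (q.1, q.2)) (y := (t, y)) (hT.mono fun q hq => (contMDiffAt_iff_contDiffAt.1
      ((D.smχ i).contMDiffAt.comp _ (contMDiffAt_par hq))).comp q contDiffAt_snd)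
    hK (h5.mono fun q hq => hq.2.1.comp q hc.contDiffAt)
    (by rw [b1, b2, ← map_add]; exact hu.1.map _) (by
      have := hu.2.map (Cay.cnj T)
      rwa [map_sub, map_one, map_smul, Cay.map_tr _ hu.1, ← b1, ← b2] at this)
  refine ⟨fun q => Cay.path (D.χ i (par x q.2)) (pullJ (par x) c.J0 q.2) (H (q.1, q.2)), ?_⟩
  filter_upwards [h8, key, hP.eventually ((D.opV i).eventually_mem (D.WV i (D.KW i hi))), hT]
    with q a1 a2 a3 a0
  refine ⟨a1.1, sq_apply (Cay.path_sq (hS _ a0) a1.2), fun a4 => ?_⟩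
  obtain ⟨S, c0, c1, c2⟩ := a2 a4
  have hu := D.units i q.1 (par x q.2) (D.χ01 i (par x q.2))
  rw [Cay.pullJ_eq c0 (D.J q.1), D.J_on _ a3, Cay.map_path _ hu.1 hu.2, ← c1, ← c2]

theorem Cut.tame (D : Cut c L) {t : ℝ} (ht : t ∈ Icc 0 D.t0) {U : Set X}
    (h0 : t = 0 → U ⊆ (⋃ i, L i)ᶜ) : Tame U c.om (D.J t) := by
  refine ⟨fun x _ v => D.J_tame t x v, fun x y hy => ContDiffAt.contDiffWithinAt ?_⟩
  obtain ⟨Jl, h⟩ := D.joint x hy.1 ht fun e => h0 e hy.2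
  have hc : ContDiffAt ℝ ∞ (fun z : E => (t, z)) y := by fun_prop
  refine (h.self_of_nhds.1.comp y hc).congr_of_eventuallyEq ?_
  filter_upwards [hc.continuousAt.eventually h] with z hz using (hz.2.2 ht.1).symm

/-- The degeneration data of a system of cut-off functions. -/
def Cut.dat (D : Cut c L) : Dat c L where
  toCut := D
  J := D.J
  hJ i t a ha e h := by
    rw [D.J_on t ((D.M i).into a ha), h, Cay.path_one
      (Cay.mul_self_of fun v => (c.tame0.1 _ trivial v).1)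
      (Cay.mul_self_of fun v => (D.J1_tame i t _ v).1)
      (D.units i t _ ⟨zero_le_one, le_rfl⟩).1 (D.units i t _ ⟨zero_le_one, le_rfl⟩).2,
      D.J1_eq i ha e]
  off t x h := D.J_off t h
  tame t ht := D.tame ⟨ht.1.le, ht.2⟩ fun e => (ht.1.ne' e).elim
  tame0 := D.tame ⟨le_rfl, D.ht0.le⟩ fun _ => Subset.rfl
  joint x y hy t ht h := D.joint x hy ht h

/-- The symplectic form is exact near the pinwheels. -/
theorem Cut.isD (D : Cut c L) : IsD (⋃ i, D.W i) (fun x => ∑ i, (D.M i).l x) c.om := by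
  have key : ∀ x, ∀ y ∈ dom x (⋃ i, D.W i), ∃ i, y ∈ dom x (D.M i).U ∧
      pull1 (par x) (fun x => ∑ i, (D.M i).l x) =ᶠ[𝓝 y] pull1 (par x) (D.M i).l := by
    intro x y hy
    obtain ⟨i, hi⟩ := mem_iUnion.1 hy.2
    refine ⟨i, ⟨hy.1, D.WU i hi⟩, ?_⟩
    filter_upwards [(contMDiffAt_par hy.1).continuousAt.eventually
      ((D.opV i).eventually_mem (D.WV i hi))] with z hz
    rw [pull1, pull1, Finset.sum_eq_single i (fun j _ hj => (D.M j).l0 _ fun h =>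
      hj (D.idx ((D.M j).UV h) hz)) (by simp)]
  refine fun x => ⟨fun y hy => ?_, fun y hy => ?_⟩ <;> obtain ⟨i, h1, h2⟩ := key x y hy
  · exact (((D.M i).prim x y h1).1.congr_of_eventuallyEq h2).contDiffWithinAt
  · rw [((D.M i).prim x y h1).2, ext1, ext1, h2.fderiv_eq]

end Pool.Agent.Lib.MP_1c0d65_gt.PW.Fd
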