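import Pool.Agent.Lib.MP_1c0d65_gt.F.PreC
import Pool.Agent.Lib.MP_1c0d65_gt.C.LocS

/-! A family gives a degeneration: the export. -/

set_option autoImplicit false

open scoped Manifold ContDiff Topology
open Filter

namespace Pool.Agent.Lib.MP_1c0d65_gt.PW

variable {X : Type} [TopologicalSpace X] [ChartedSpace E X] [IsManifold 𝓘(ℝ, E) ∞ X]
  [T2Space X] [CompactSpace X] [MeasurableSpace X] [BorelSpace X] {c : Ctx X} {O : Orb c}
  {V : Type} [NormedAddCommGroup V] [NormedSpace ℝ V] [FiniteDimensional ℝ V]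

theorem Pre.deg (Q : Pre V O) {t : ℕ → ℝ} (hI : ∀ n, t n ∈ Q.I) (ht : Tendsto t atTop (𝓝 0))
    (h0 : O.n = 0 ∨ ∀ n, t n ≠ 0) : Nonempty (DegV (ℝ × V) O fun n => Q.J (t n)) :=
  Pre.deg_of (fun T _ _ h => T.smooth h) Q hI ht h0

end Pool.Agent.Lib.MP_1c0d65_gt.PW
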