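import Pool.Agent.Lib.MP_1c0d65_gt.F.Orb
import Pool.Agent.Lib.MP_1c0d65_gt.F.Pat
import Pool.Agent.Lib.MP_1c0d65_gt.F.Pre

/-! The degeneration, from the embedding of the family. -/

set_option autoImplicit false

open scoped Manifold ContDiff Topology
open Set MeasureTheory Filter Metric

noncomputable section

namespace Pool.Agent.Lib.MP_1c0d65_gt.PW

variable {X : Type} [TopologicalSpace X] [ChartedSpace E X] [IsManifold 𝓘(ℝ, E) ∞ X]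
  [T2Space X] [CompactSpace X] [MeasurableSpace X] [BorelSpace X] {c : Ctx X}

theorem degenerate_of {n : ℕ} (L : Fin n → Set X) (hL : ∀ i, Pinwheel c.om (L i))
    (disj : ∀ i j, i ≠ j → Disjoint (L i) (L j))
    (pre : ∀ D : Fd.Dat c L, ∃ (M : ℕ) (Q : Pre (VV M n) D.orb), Q.I = Icc 0 D.t0 ∧ Q.J = D.J) :
    ∃ (O : Orb c) (J : ℕ → X → E →L[ℝ] E) (K U : Set X) (a : X → E →L[ℝ] ℝ), O.n = n ∧
      Nonempty (Deg O J) ∧ IsClosed K ∧ IsOpen U ∧ (⋃ i, O.L i) ⊆ K ∧ K ⊆ U ∧ IsD U a c.om ∧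
      ∀ m, ∀ x ∉ K, J m x = c.J0 x := by
  obtain ⟨D⟩ := Fd.exists_cut hL disj
  obtain ⟨M, Q, h1, h2⟩ := pre D.dat
  have ht : ∀ m : ℕ, D.t0 * (1 / ((m : ℝ) + 1)) ∈ Ioc 0 D.t0 := fun m =>
    ⟨mul_pos D.ht0 (by positivity), mul_le_of_le_one_right D.ht0.le
      (div_le_one_of_le₀ (by simp) (by positivity))⟩
  have hl : Tendsto (fun m : ℕ => D.t0 * (1 / ((m : ℝ) + 1))) atTop (𝓝 0) := by
    simpa using (tendsto_one_div_add_atTop_nhds_zero_nat (𝕜 := ℝ)).const_mul D.t0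
  obtain ⟨T⟩ := Q.deg (fun m => by rw [h1]; exact Ioc_subset_Icc_self (ht m)) hl
    (.inr fun m => (ht m).1.ne')
  refine ⟨D.dat.orb, fun m => Q.J (D.t0 * (1 / ((m : ℝ) + 1))), ⋃ i, D.K i, ⋃ i, D.W i, _, rfl,
    ⟨⟨fun m => by rw [h2]; exact D.dat.tame _ (ht m), M, T⟩⟩, isClosed_iUnion_of_finite D.clK,
    isOpen_iUnion D.opW, iUnion_mono D.LK, iUnion_mono D.KW, D.isD, fun m x hx => ?_⟩
  rw [h2]
  exact D.dat.off _ x fun i hi => hx (mem_iUnion.2 ⟨i, hi⟩)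

end Pool.Agent.Lib.MP_1c0d65_gt.PW
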