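import Pool.Agent.Lib.MP_1c0d65_gt.PW.Int
import Pool.Agent.Lib.MP_1c0d65_gt.Emb.Retr

/-! The fibres of `x y - z ^ p`: linear algebra, and local inverses of maps that are etale on
the fibres. -/

set_option autoImplicit false

open scoped Manifold ContDiff Topology
open Set Filter Metric

noncomputable section

namespace Pool.Agent.Lib.MP_1c0d65_gt.PW.Fd

/-- The function `x y - z ^ p`. -/
def fq (p : ℕ) (a : C3) : ℂ := a.1.1 * a.1.2 - a.2 ^ p

/-- The three coordinates. -/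
def cx : C3 →L[ℝ] ℂ := (ContinuousLinearMap.fst ℝ ℂ ℂ).comp (ContinuousLinearMap.fst ℝ E ℂ)
/-- The second coordinate. -/
def cy : C3 →L[ℝ] ℂ := (ContinuousLinearMap.snd ℝ ℂ ℂ).comp (ContinuousLinearMap.fst ℝ E ℂ)
/-- The third coordinate. -/
def cz : C3 →L[ℝ] ℂ := ContinuousLinearMap.snd ℝ E ℂ

/-- The differential of `fq`. -/
def dq (p : ℕ) (a : C3) : C3 →L[ℝ] ℂ := a.1.2 • cx + a.1.1 • cy - ((p : ℂ) * a.2 ^ (p - 1)) • cz

theorem dq_apply (p : ℕ) (a v : C3) :
    dq p a v = a.1.2 * v.1.1 + a.1.1 * v.1.2 - p * a.2 ^ (p - 1) * v.2 := by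
  simp [dq, cx, cy, cz]

theorem mem_fib {p : ℕ} {t : ℂ} {a : C3} : a ∈ fib p t ↔ fq p a = t := by
  simp only [fib, fq, mem_ofPred_eq, sub_eq_iff_eq_add']

theorem hasFDerivAt_fq (p : ℕ) (a : C3) : HasFDerivAt (fq p) (dq p a) a := by
  have h := (cx.hasFDerivAt (x := a)).mul (cy.hasFDerivAt (x := a))
  have h2 := (cz.hasFDerivAt (x := a)).pow p
  refine (h.sub h2).congr_fderiv ?_
  ext v <;> simp [dq, cx, cy, cz]

theorem contDiff_fq (p : ℕ) : ContDiff ℝ ∞ (fq p) := by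
  unfold fq; fun_prop

theorem dq_I (p : ℕ) (a v : C3) : dq p a (Complex.I • v) = Complex.I * dq p a v := by
  simp only [dq_apply, Prod.smul_fst, Prod.smul_snd, smul_eq_mul]; ring

/-- Multiplication by `i`. -/
def mI : C3 →L[ℝ] C3 := Complex.I • ContinuousLinearMap.id ℝ C3

@[simp] theorem mI_apply (v : C3) : mI v = Complex.I • v := rfl

/-- The standard form as a bilinear map. -/
def stdL : Bil C3 ℝ := (LinearMap.mk₂ ℝ std
  (fun a b c => by simp [std]; ring) (fun r a b => by simp [std]; ring)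
  (fun a b c => by simp [std]; ring) (fun r a b => by simp [std]; ring)).toContinuousBilinearMap

@[simp] theorem stdL_apply (v w : C3) : stdL v w = std v w := rfl

theorem std_skew (v w : C3) : std v w = -std w v := by simp [std]; ring

theorem std_I (v : C3) : std v (Complex.I • v) = ‖v.1.1‖ ^ 2 + ‖v.1.2‖ ^ 2 + ‖v.2‖ ^ 2 := by
  simp [std, Complex.sq_norm, Complex.normSq_apply]

theorem sq_le_std (v : C3) : ‖v‖ ^ 2 ≤ std v (Complex.I • v) := by
  rw [std_I, Prod.norm_def, Prod.norm_def]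
  have h1 := sq_nonneg ‖v.1.1‖
  have h2 := sq_nonneg ‖v.1.2‖
  have h3 := sq_nonneg ‖v.2‖
  rcases max_cases (max ‖v.1.1‖ ‖v.1.2‖) ‖v.2‖ with h | h <;>
    rcases max_cases ‖v.1.1‖ ‖v.1.2‖ with h' | h' <;> rw [h.1] <;> try rw [h'.1]
  all_goals linarith

theorem std_le_sq (v : C3) : std v (Complex.I • v) ≤ 3 * ‖v‖ ^ 2 := by
  rw [std_I]
  have h1 : ‖v.1.1‖ ≤ ‖v‖ := (norm_fst_le _).trans (norm_fst_le v)
  have h2 : ‖v.1.2‖ ≤ ‖v‖ := (norm_snd_le _).trans (norm_fst_le v)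
  have h3 : ‖v.2‖ ≤ ‖v‖ := norm_snd_le v
  have := pow_le_pow_left₀ (norm_nonneg _) h1 2
  have := pow_le_pow_left₀ (norm_nonneg _) h2 2
  have := pow_le_pow_left₀ (norm_nonneg _) h3 2
  linarith

theorem std_pos {v : C3} (h : v ≠ 0) : 0 < std v (Complex.I • v) :=
  (pow_pos (norm_pos_iff.2 h) 2).trans_le (sq_le_std v)

/-- The action as a linear map. -/
def actL (q : ℕ) (ζ : ℂ) : C3 →L[ℝ] C3 := ((ζ • cx).prod (ζ⁻¹ • cy)).prod (ζ ^ q • cz)

@[simp] theorem actL_apply (q : ℕ) (ζ : ℂ) (a : C3) : actL q ζ a = act q ζ a := rfl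

theorem act_I (q : ℕ) (ζ : ℂ) (v : C3) : act q ζ (Complex.I • v) = Complex.I • act q ζ v := by
  ext <;> simp [act] <;> ring

theorem act_one (q : ℕ) (a : C3) : act q 1 a = a := by simp [act]

theorem act_mul (q : ℕ) (ζ η : ℂ) (a : C3) : act q (ζ * η) a = act q ζ (act q η a) := by
  ext <;> simp [act] <;> ring

variable {p q : ℕ} {ζ : ℂ}

theorem norm_root (hp : p ≠ 0) (h : ζ ^ p = 1) : ‖ζ‖ = 1 := Complex.norm_eq_one_of_pow_eq_one h hp

theorem root_ne (hp : p ≠ 0) (h : ζ ^ p = 1) : ζ ≠ 0 := by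
  rintro rfl; simp [hp] at h

theorem fq_act (hp : p ≠ 0) (h : ζ ^ p = 1) (a : C3) : fq p (act q ζ a) = fq p a := by
  have h0 := root_ne hp h
  have : (ζ ^ q) ^ p = 1 := by rw [← pow_mul, mul_comm, pow_mul, h, one_pow]
  simp only [fq, act, mul_pow, this]
  field_simp

theorem norm_act (hp : p ≠ 0) (h : ζ ^ p = 1) (a : C3) : ‖act q ζ a‖ = ‖a‖ := by
  have := norm_root hp h
  simp [act, Prod.norm_def, this]

theorem dq_act (hp : p ≠ 0) (h : ζ ^ p = 1) (a v : C3) :
    dq p (act q ζ a) (act q ζ v) = dq p a v := by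
  have h1 := (hasFDerivAt_fq p (actL q ζ a)).comp a (actL q ζ).hasFDerivAt
  have h2 : fq p ∘ actL q ζ = fq p := funext fun b => fq_act hp h b
  rw [h2] at h1
  exact congrArg (fun T => T v) (h1.unique (hasFDerivAt_fq p a))

theorem std_act (hp : p ≠ 0) (h : ζ ^ p = 1) (v w : C3) :
    std (act q ζ v) (act q ζ w) = std v w := by
  have key : ∀ η : ℂ, ‖η‖ = 1 → ∀ a b : ℂ, star (η * a) * (η * b) = star a * b := by
    intro η hη a b
    have : star η * η = 1 := by
      have := Complex.conj_mul' η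
      rw [hη] at this; simpa using this
    rw [star_mul']; linear_combination (star a * b) * this
  have h1 := norm_root hp h
  simp only [std, act]
  rw [key ζ h1, key ζ⁻¹ (by simp [h1]), key (ζ ^ q) (by simp [h1])]

variable {X : Type} [TopologicalSpace X] [ChartedSpace E X]
  {V W : Type} [NormedAddCommGroup V] [NormedSpace ℝ V] [NormedAddCommGroup W] [NormedSpace ℝ W]

theorem dif_comp {G : W → X} {g : V → W} {y : V}
    (hG : MDifferentiableAt 𝓘(ℝ, W) 𝓘(ℝ, E) G (g y)) (hg : DifferentiableAt ℝ g y) :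
    dif (fun z => G (g z)) y = (dif G (g y)).comp (fderiv ℝ g y) := by
  have := mfderiv_comp (I := 𝓘(ℝ, V)) y hG hg.mdifferentiableAt
  rw [mfderiv_eq_fderiv] at this
  exact this

theorem dif_congr {f g : V → X} {y : V} (h : f =ᶠ[𝓝 y] g) : dif f y = dif g y :=
  h.mfderiv_eq

/-- The differential of `(fq, G)`. -/
def kap (p : ℕ) (G : C3 → X) (a : C3) : C3 →L[ℝ] ℂ × E := (dq p a).prod (dif G a)

/-- The lift of a tangent vector to the fibre. -/
def lf (p : ℕ) (G : C3 → X) (a : C3) : E →L[ℝ] C3 :=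
  (kap p G a).inverse.comp (ContinuousLinearMap.inr ℝ ℂ E)

/-- `G` is an immersion along the fibre. -/
def Et (p : ℕ) (G : C3 → X) (a : C3) : Prop := ∀ v, dq p a v = 0 → dif G a v = 0 → v = 0

theorem inv_of_inj {T : C3 →L[ℝ] ℂ × E} (h : Function.Injective T) : T.IsInvertible := by
  have e : Module.finrank ℝ C3 = Module.finrank ℝ (ℂ × E) := by simp
  exact ⟨(LinearMap.linearEquivOfInjective (T : C3 →ₗ[ℝ] ℂ × E) h e).toContinuousLinearEquiv,
    by ext v <;> rfl⟩

variable {G : C3 → X} {a : C3}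

theorem Et.inv (h : Et p G a) : (kap p G a).IsInvertible := by
  refine inv_of_inj ((injective_iff_map_eq_zero _).2 fun v hv => ?_)
  exact h v (congrArg Prod.fst hv) (congrArg Prod.snd hv)

theorem Et.kap_lf (h : Et p G a) (w : E) : kap p G a (lf p G a w) = (0, w) :=
  h.inv.self_apply_inverse _

theorem Et.dq_lf (h : Et p G a) (w : E) : dq p a (lf p G a w) = 0 := congrArg Prod.fst (h.kap_lf w)

theorem Et.dif_lf (h : Et p G a) (w : E) : dif G a (lf p G a w) = w :=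
  congrArg Prod.snd (h.kap_lf w)

theorem Et.ext (h : Et p G a) {v w : C3} (hv : dq p a v = 0) (hw : dq p a w = 0)
    (e : dif G a v = dif G a w) : v = w :=
  sub_eq_zero.1 (h _ (by rw [map_sub, hv, hw, sub_zero]) (by rw [map_sub, e, sub_self]))

theorem Et.lf_dif (h : Et p G a) {v : C3} (hv : dq p a v = 0) : lf p G a (dif G a v) = v :=
  h.ext (h.dq_lf _) hv (h.dif_lf _)

/-- A map into a fibre is tangent to it. -/
theorem dq_fderiv {c : V → C3} {y : V} {t : ℂ} (hc : DifferentiableAt ℝ c y)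
    (h : ∀ᶠ z in 𝓝 y, fq p (c z) = t) (v : V) : dq p (c y) (fderiv ℝ c y v) = 0 := by
  have h1 := (hasFDerivAt_fq p (c y)).comp y hc.hasFDerivAt
  have h2 : HasFDerivAt (fq p ∘ c) (0 : V →L[ℝ] ℂ) y :=
    (hasFDerivAt_const t y).congr_of_eventuallyEq h
  exact congrArg (fun T => T v) (h1.unique h2)

variable [IsManifold 𝓘(ℝ, E) ∞ X]

theorem contMDiffAt_par {x : X} {y : E} (hy : y ∈ (chartAt E x).target) :
    ContMDiffAt 𝓘(ℝ, E) 𝓘(ℝ, E) ∞ (par x) y :=
  (contMDiffOn_chart_symm (I := 𝓘(ℝ, E)) (x := x)).contMDiffAt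
    ((chartAt E x).open_target.mem_nhds hy)

theorem inv_par {x : X} {y : E} (hy : y ∈ (chartAt E x).target) : (dif (par x) y).IsInvertible :=
  ⟨(mdifferentiable_chart (I := 𝓘(ℝ, E)) x).symm.mfderiv hy, rfl⟩

theorem contDiffAt_chart {f : V → X} {y : V} {x : X} (hf : ContMDiffAt 𝓘(ℝ, V) 𝓘(ℝ, E) ∞ f y)
    (hx : f y ∈ (chartAt E x).source) : ContDiffAt ℝ ∞ (fun z => chartAt E x (f z)) y :=
  contMDiffAt_iff_contDiffAt.1 (((contMDiffOn_chart (I := 𝓘(ℝ, E)) (x := x)).contMDiffAt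
    ((chartAt E x).open_source.mem_nhds hx)).comp y hf)

theorem dif_chart {f : V → X} {y : V} {x : X} (hf : ContMDiffAt 𝓘(ℝ, V) 𝓘(ℝ, E) ∞ f y)
    (hx : f y ∈ (chartAt E x).source) : dif f y =
      (dif (par x) (chartAt E x (f y))).comp (fderiv ℝ (fun z => chartAt E x (f z)) y) := by
  have h1 := (contMDiffAt_par ((chartAt E x).map_source hx)).mdifferentiableAt (by simp)
  rw [← dif_comp (g := fun z => chartAt E x (f z)) h1
    ((contDiffAt_chart hf hx).differentiableAt (by simp))]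
  refine dif_congr ?_
  filter_upwards [hf.continuousAt.preimage_mem_nhds ((chartAt E x).open_source.mem_nhds hx)]
    with z hz using ((chartAt E x).left_inv hz).symm

/-- A local inverse of `(fq, chart ∘ G)`. -/
structure Sig (p : ℕ) (G : C3 → X) (x : X) (a : C3) (σ : ℂ × E → C3) : Prop where
  sm : ∀ᶠ w in 𝓝 (fq p a, chartAt E x (G a)), ContDiffAt ℝ ∞ σ w
  val : σ (fq p a, chartAt E x (G a)) = a
  right : ∀ᶠ w in 𝓝 (fq p a, chartAt E x (G a)), fq p (σ w) = w.1 ∧ G (σ w) = par x w.2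
  left : ∀ᶠ b in 𝓝 a, σ (fq p b, chartAt E x (G b)) = b

theorem ev_contDiffAt_chart {f : V → X} {y : V} {x : X}
    (hf : ∀ᶠ z in 𝓝 y, ContMDiffAt 𝓘(ℝ, V) 𝓘(ℝ, E) ∞ f z) (hx : f y ∈ (chartAt E x).source) :
    ∀ᶠ z in 𝓝 y, ContDiffAt ℝ ∞ (fun z => chartAt E x (f z)) z := by
  filter_upwards [hf, hf.self_of_nhds.continuousAt.preimage_mem_nhds
    ((chartAt E x).open_source.mem_nhds hx)] with z h1 h2 using contDiffAt_chart h1 h2

theorem Et.exists_sig (h : Et p G a) (hG : ∀ᶠ b in 𝓝 a, ContMDiffAt 𝓘(ℝ, C3) 𝓘(ℝ, E) ∞ G b)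
    {x : X} (hx : G a ∈ (chartAt E x).source) : ∃ σ, Sig p G x a σ := by
  have h1 := ev_contDiffAt_chart hG hx
  have hΨ : ∀ᶠ a in 𝓝 a, ContDiffAt ℝ ∞ (fun b => (fq p b, chartAt E x (G b))) a :=
    h1.mono fun b hb => (contDiff_fq p).contDiffAt.prodMk hb
  have hd := (hasFDerivAt_fq p a).prodMk (h1.self_of_nhds.differentiableAt (by simp)).hasFDerivAt
  obtain ⟨e, he⟩ : ((dq p a).prod (fderiv ℝ (fun z => chartAt E x (G z)) a)).IsInvertible := by
    refine inv_of_inj ((injective_iff_map_eq_zero _).2 fun v hv => h v (congrArg Prod.fst hv) ?_)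
    have : fderiv ℝ (fun z => chartAt E x (G z)) a v = 0 := congrArg Prod.snd hv
    rw [dif_chart hG.self_of_nhds hx, ContinuousLinearMap.comp_apply, this, map_zero]
  rw [← he] at hd
  obtain ⟨k, hk, ha, hs⟩ := Emb.exists_smooth_inv hΨ e hd
  have hv : k.symm (fq p a, chartAt E x (G a)) = a := by
    have := k.left_inv ha
    rwa [hk] at this
  have ht : k.target ∈ 𝓝 (fq p a, chartAt E x (G a)) := by
    have := k.open_target.mem_nhds (k.map_source ha)
    rwa [hk] at this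
  refine ⟨k.symm, hs, hv, ?_, ?_⟩
  · have h2 : ∀ᶠ b in 𝓝 (k.symm (fq p a, chartAt E x (G a))), G b ∈ (chartAt E x).source := by
      rw [hv]
      exact hG.self_of_nhds.continuousAt.preimage_mem_nhds ((chartAt E x).open_source.mem_nhds hx)
    filter_upwards [ht, hs.self_of_nhds.continuousAt.eventually h2] with w hw hw'
    have h3 := k.right_inv hw
    rw [hk] at h3
    refine ⟨congrArg Prod.fst h3, ?_⟩
    have : chartAt E x (G (k.symm w)) = w.2 := congrArg Prod.snd h3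
    rw [← this]
    exact ((chartAt E x).left_inv hw').symm
  · filter_upwards [k.open_source.mem_nhds ha] with b hb
    have := k.left_inv hb
    rwa [hk] at this

end Pool.Agent.Lib.MP_1c0d65_gt.PW.Fd
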