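import Pool.Agent.Lib.MP_1c0d65_gt.F.Fib
import Pool.Agent.Lib.MP_1c0d65_gt.PW.Deg

/-! Five invariant polynomials of the action of the roots of unity. -/

set_option autoImplicit false

open scoped ContDiff Topology
open Set Filter Metric

noncomputable section

namespace Pool.Agent.Lib.MP_1c0d65_gt.PW.Fd

/-- The invariants. -/
def ivt (p q : ℕ) (a : C3) : C5 :=
  ![a.1.1 ^ p, a.1.1 * a.1.2, a.2 * a.1.1 ^ ((p - 1) * q), a.1.2 ^ p, a.2 * a.1.2 ^ q]

variable {p q : ℕ} {ζ : ℂ} {a b : C3}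

theorem root_pow (hp : p ≠ 0) (h : ζ ^ p = 1) : ζ ^ q * ζ ^ ((p - 1) * q) = 1 := by
  obtain ⟨k, rfl⟩ := Nat.exists_eq_succ_of_ne_zero hp
  rw [← pow_add, Nat.succ_sub_one, add_comm, ← Nat.succ_mul, pow_mul, h, one_pow]

theorem ivt_act (hp : p ≠ 0) (h : ζ ^ p = 1) (a : C3) : ivt p q (act q ζ a) = ivt p q a := by
  have h0 := root_ne hp h
  have h1 := root_pow (q := q) hp h
  funext i
  fin_cases i
  · simp [ivt, act, mul_pow, h]
  · simp only [ivt, act, Fin.mk_one, Matrix.cons_val]; field_simp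
  · simp only [ivt, act, Fin.reduceFinMk, Matrix.cons_val, mul_pow]
    linear_combination a.2 * a.1.1 ^ ((p - 1) * q) * h1
  · simp [ivt, act, mul_pow, h]
  · simp only [ivt, act, Fin.reduceFinMk, Matrix.cons_val, mul_pow, inv_pow]; field_simp

theorem exists_root (hp : p ≠ 0) (hc : p.Coprime q) {ξ : ℂ} (h : ξ ^ p = 1) :
    ∃ ζ : ℂ, ζ ^ p = 1 ∧ ζ ^ q = ξ := by
  rcases Nat.lt_or_ge 1 p with h1 | h1
  · obtain ⟨m, -, hm⟩ := Nat.exists_mul_mod_eq_one_of_coprime hc.symm h1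
    exact ⟨ξ ^ m, by rw [← pow_mul, mul_comm, pow_mul, h, one_pow],
      by rw [← pow_mul, mul_comm, pow_eq_pow_mod _ h, hm, pow_one]⟩
  · obtain rfl : p = 1 := by omega
    exact ⟨1, one_pow _, by rw [one_pow, ← h, pow_one]⟩

/-- The invariants separate the orbits in a fibre. -/
theorem ivt_sep (hp : p ≠ 0) (hc : p.Coprime q) (hf : fq p a = fq p b)
    (h : ivt p q a = ivt p q b) : ∃ ζ : ℂ, ζ ^ p = 1 ∧ b = act q ζ a := by
  obtain ⟨⟨x, y⟩, z⟩ := a
  obtain ⟨⟨x', y'⟩, z'⟩ := b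
  have h0 : x ^ p = x' ^ p := congrFun h 0
  have h1 : x * y = x' * y' := congrFun h 1
  have h2 : z * x ^ ((p - 1) * q) = z' * x' ^ ((p - 1) * q) := congrFun h 2
  have h3 : y ^ p = y' ^ p := congrFun h 3
  have h4 : z * y ^ q = z' * y' ^ q := congrFun h 4
  have root : ∀ {s s' : ℂ}, s ≠ 0 → s ^ p = s' ^ p → ∃ η : ℂ, η ^ p = 1 ∧ s' = η * s :=
    fun {s s'} hs e => ⟨s' / s, by rw [div_pow, e, div_self (e ▸ pow_ne_zero p hs)],
      (div_mul_cancel₀ _ hs).symm⟩
  by_cases hx : x = 0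
  · subst hx
    obtain rfl : x' = 0 := by rw [zero_pow hp] at h0; exact pow_eq_zero_iff hp |>.1 h0.symm
    by_cases hy : y = 0
    · subst hy
      obtain rfl : y' = 0 := by rw [zero_pow hp] at h3; exact pow_eq_zero_iff hp |>.1 h3.symm
      have h5 : z ^ p = z' ^ p := by simpa [fq] using hf
      by_cases hz : z = 0
      · subst hz
        obtain rfl : z' = 0 := by rw [zero_pow hp] at h5; exact pow_eq_zero_iff hp |>.1 h5.symm
        exact ⟨1, one_pow _, (act_one _ _).symm⟩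
      · obtain ⟨ξ, hξ, rfl⟩ := root hz h5
        obtain ⟨ζ, hζ, rfl⟩ := exists_root hp hc hξ
        exact ⟨ζ, hζ, by simp [act]⟩
    · obtain ⟨η, hη, rfl⟩ := root hy h3
      have := root_ne hp hη
      refine ⟨η⁻¹, by rw [inv_pow, hη, inv_one], ?_⟩
      have e : z = z' * η ^ q := mul_right_cancel₀ (pow_ne_zero q hy) (by rw [h4, mul_pow]; ring)
      simp only [act, inv_inv, mul_zero, inv_pow, e]
      congr 1
      field_simp
  · obtain ⟨ζ, hζ, rfl⟩ := root hx h0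
    have := root_ne hp hζ
    have e1 : y = ζ * y' := mul_left_cancel₀ hx (by rw [h1]; ring)
    have e2 : z = z' * ζ ^ ((p - 1) * q) :=
      mul_right_cancel₀ (pow_ne_zero _ hx) (by rw [h2, mul_pow]; ring)
    refine ⟨ζ, hζ, Prod.ext (Prod.ext rfl ?_) ?_⟩
    · simp only [act, e1]; field_simp
    · simp only [act, e2]; linear_combination -z' * root_pow (q := q) hp hζ

theorem ivt_zero (hp : p ≠ 0) : ivt p q 0 = 0 := by
  funext i; fin_cases i <;> simp [ivt, hp]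

/-- A point of the singular fibre other than the origin. -/
theorem xy_ne (hp : p ≠ 0) (hf : fq p a = 0) (ha : a ≠ 0) : a.1.1 ≠ 0 ∨ a.1.2 ≠ 0 := by
  by_contra! h
  refine ha (Prod.ext (Prod.ext h.1 h.2) ?_)
  simpa [fq, h.1, hp] using hf

theorem ivt_ne_zero (h : a.1.1 ≠ 0 ∨ a.1.2 ≠ 0) : ivt p q a ≠ 0 := fun e =>
  h.elim (fun h => pow_ne_zero p h (congrFun e 0)) fun h => pow_ne_zero p h (congrFun e 3)

theorem ivt_eq_zero (hp : p ≠ 0) (hf : fq p a = 0) (h : ivt p q a = 0) : a = 0 := by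
  by_contra ha
  exact ivt_ne_zero (xy_ne hp hf ha) h

theorem contDiff_ivtC (p q : ℕ) : ContDiff ℂ ∞ (ivt p q) :=
  contDiff_pi.2 fun i => by fin_cases i <;> simp only [ivt, Matrix.cons_val, Fin.zero_eta,
    Fin.mk_one, Fin.reduceFinMk] <;> fun_prop

theorem contDiff_ivt (p q : ℕ) : ContDiff ℝ ∞ (ivt p q) := (contDiff_ivtC p q).restrict_scalars ℝ

theorem differentiable_ivtC (p q : ℕ) : Differentiable ℂ (ivt p q) :=
  (contDiff_ivtC p q).differentiable (by simp)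

theorem fderiv_ivt (p q : ℕ) (a v : C3) : fderiv ℝ (ivt p q) a v =
    ![p * a.1.1 ^ (p - 1) * v.1.1, a.1.1 * v.1.2 + a.1.2 * v.1.1,
      a.2 * ((((p - 1) * q : ℕ) : ℂ) * a.1.1 ^ ((p - 1) * q - 1) * v.1.1) +
        a.1.1 ^ ((p - 1) * q) * v.2, p * a.1.2 ^ (p - 1) * v.1.2,
      a.2 * (q * a.1.2 ^ (q - 1) * v.1.2) + a.1.2 ^ q * v.2] := by
  have hx := cx.hasFDerivAt (x := a)
  have hy := cy.hasFDerivAt (x := a)
  have hz := cz.hasFDerivAt (x := a)
  have key : ∀ (i : Fin 5) (D : C3 →L[ℝ] ℂ), HasFDerivAt (fun b => ivt p q b i) D a →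
      fderiv ℝ (ivt p q) a v i = D v := fun i D h => by
    have h1 := hasFDerivAt_pi'.1 ((contDiff_ivt p q).differentiable (by simp) a).hasFDerivAt i
    exact congrArg (fun T => T v) (h1.unique h)
  funext i
  fin_cases i
  · exact (key 0 _ (hx.pow p)).trans (by simp [cx])
  · exact (key 1 _ (hx.mul hy)).trans (by simp [cx, cy])
  · exact (key 2 _ (hz.mul (hx.pow _))).trans (by simp [cx, cz])
  · exact (key 3 _ (hy.pow p)).trans (by simp [cy])
  · exact (key 4 _ (hz.mul (hy.pow _))).trans (by simp [cy, cz])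

/-- The invariants give an immersion off the axis `x = y = 0`. -/
theorem ivt_imm (hp : p ≠ 0) (h : a.1.1 ≠ 0 ∨ a.1.2 ≠ 0) {v : C3}
    (hv : fderiv ℝ (ivt p q) a v = 0) : v = 0 := by
  rw [fderiv_ivt] at hv
  have h0 := congrFun hv 0
  have h1 := congrFun hv 1
  have h2 := congrFun hv 2
  have h3 := congrFun hv 3
  have h4 := congrFun hv 4
  simp only [Matrix.cons_val, Pi.zero_apply] at h0 h1 h2 h3 h4
  rcases h with h | h
  · have e1 : v.1.1 = 0 := by simpa [hp, h] using h0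
    have e2 : v.1.2 = 0 := by simpa [e1, h] using h1
    have e3 : v.2 = 0 := by simpa [e1, h] using h2
    exact Prod.ext (Prod.ext e1 e2) e3
  · have e2 : v.1.2 = 0 := by simpa [hp, h] using h3
    have e1 : v.1.1 = 0 := by simpa [e2, h] using h1
    have e3 : v.2 = 0 := by simpa [e2, h] using h4
    exact Prod.ext (Prod.ext e1 e2) e3

theorem fderiv_ivt_I (p q : ℕ) (a v : C3) :
    fderiv ℝ (ivt p q) a (Complex.I • v) = Complex.I • fderiv ℝ (ivt p q) a v := by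
  rw [((differentiable_ivtC p q a).hasFDerivAt.restrictScalars ℝ).fderiv]
  exact map_smul (fderiv ℂ (ivt p q) a) _ _

theorem ivt_bound (p q : ℕ) (R : ℝ) :
    ∃ C > 0, ∀ a : C3, ‖a‖ ≤ R → ‖fderiv ℝ (ivt p q) a‖ ≤ C := by
  obtain ⟨C, hC⟩ := (isCompact_closedBall (0 : C3) R).exists_bound_of_continuousOn
    ((contDiff_ivt p q).continuous_fderiv (by simp)).continuousOn
  exact ⟨max C 1, lt_max_of_lt_right one_pos, fun a ha =>
    (hC a (mem_closedBall_zero_iff.2 ha)).trans (le_max_left _ _)⟩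

end Pool.Agent.Lib.MP_1c0d65_gt.PW.Fd
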