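import Pool.Agent.Lib.MP_1c0d65_gt.F.Cov
import Pool.Agent.Lib.MP_1c0d65_gt.Flow.Main

/-! The local model of a degeneration at one pinwheel. -/

set_option autoImplicit false

open scoped Manifold ContDiff Topology
open Set Filter Metric

noncomputable section

namespace Pool.Agent.Lib.MP_1c0d65_gt.PW.Fd

/-- The part of the ball on the real non-negative levels. -/
def Dm (p : ℕ) (δ : ℝ) : Set C3 := {a | ‖a‖ < δ ∧ a ≠ 0 ∧ (fq p a).im = 0 ∧ 0 ≤ (fq p a).re}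

variable {p q : ℕ} {δ ε : ℝ} {a : C3} {ζ : ℂ}

theorem Dm.mono (h : δ ≤ ε) : Dm p δ ⊆ Dm p ε := fun _ ha => ⟨ha.1.trans_le h, ha.2⟩

theorem Dm.act (hp : p ≠ 0) (hζ : ζ ^ p = 1) (ha : a ∈ Dm p δ) : act q ζ a ∈ Dm p δ := by
  have := norm_act (q := q) hp hζ a
  refine ⟨this ▸ ha.1, fun h => ha.2.1 ?_, by rw [fq_act hp hζ]; exact ha.2.2⟩
  rw [h, norm_zero] at this
  exact norm_eq_zero.1 this.symm

theorem Dm.ev (ha : a ∈ Dm p δ) :
    ∀ᶠ b in 𝓝 a, ∀ t : ℝ, 0 ≤ t → fq p b = t → b ∈ Dm p δ := by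
  filter_upwards [(isOpen_lt continuous_norm continuous_const).mem_nhds ha.1,
    isOpen_ne.mem_nhds ha.2.1] with b h1 h2 t ht e
  exact ⟨h1, h2, by simp [e], by simpa [e] using ht⟩

theorem Dm.fq_eq (ha : a ∈ Dm p δ) : fq p a = ((fq p a).re : ℝ) :=
  Complex.ext rfl (by simpa using ha.2.2.1)

theorem core_act (hp : p ≠ 0) (hζ : ζ ^ p = 1) (ha : a ∈ core p) : act q ζ a ∈ core p := by
  have h1 := norm_root hp hζ
  have h2 : (act q ζ a).2 ^ p = a.2 ^ p := by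
    simp only [act, mul_pow]
    rw [← pow_mul, mul_comm q, pow_mul, hζ, one_pow, one_mul]
  refine ⟨mem_fib.2 ((fq_act hp hζ a).trans (mem_fib.1 ha.1)), ?_, by rw [h2]; exact ha.2.2⟩
  simpa [act, h1] using ha.2.1

theorem isCompact_core (hp : p ≠ 0) : IsCompact (core p) := by
  have hc : IsClosed (core p) := by
    refine (isClosed_eq (by fun_prop) (by fun_prop)).inter ((isClosed_eq (by fun_prop)
      (by fun_prop)).inter ((isClosed_eq (by fun_prop) continuous_const).inter ?_))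
    exact isClosed_Icc.preimage (f := fun a : C3 => (a.2 ^ p).re) (by fun_prop)
  refine (isCompact_closedBall (0 : C3) 1).of_isClosed_subset hc fun a ha => ?_
  obtain ⟨h1, h2, h3, h4, h5⟩ := ha
  have e : a.2 ^ p = ((a.2 ^ p).re : ℝ) := Complex.ext rfl (by simpa using h3)
  have hz : ‖a.2‖ ≤ 1 := by
    rw [← pow_le_one_iff_of_nonneg (norm_nonneg _) hp, ← norm_pow, e, Complex.norm_real,
      Real.norm_eq_abs, abs_le]
    exact ⟨h4, by linarith⟩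
  have hx : ‖a.1.1‖ ≤ 1 := by
    have : ‖a.1.1‖ * ‖a.1.2‖ ≤ 1 := by
      rw [← norm_mul, show a.1.1 * a.1.2 = a.2 ^ p + 1 from h1, e, ← Complex.ofReal_one,
        ← Complex.ofReal_add, Complex.norm_real, Real.norm_eq_abs, abs_le]
      constructor <;> linarith
    rw [← h2] at this
    nlinarith [norm_nonneg a.1.1]
  simp only [mem_closedBall, dist_zero_right, Prod.norm_def, max_le_iff]
  exact ⟨⟨hx, h2 ▸ hx⟩, hz⟩

/-- The flow map, on the model space of the statement. -/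
structure Flo (p : ℕ) (ε : ℝ) (Φ : C3 → C3) : Prop where
  smooth : ∀ a ∈ Dm p ε, ∀ᶠ b in 𝓝 a, ContDiffAt ℝ ∞ Φ b
  level : ∀ a ∈ Dm p ε, ∀ᶠ b in 𝓝 a, fq p (Φ b) = 1 + (fq p b).im * Complex.I
  sympl : ∀ a ∈ Dm p ε, ∀ v w, dq p a v = 0 → dq p a w = 0 →
    std (fderiv ℝ Φ a v) (fderiv ℝ Φ a w) = std v w
  equiv : ∀ a ∈ Dm p ε, ∀ (q : ℕ) (ζ : ℂ), ζ ^ p = 1 → Φ (act q ζ a) = act q ζ (Φ a)
  inj : ∀ a ∈ Dm p ε, ∀ b ∈ Dm p ε, fq p a = fq p b → Φ a = Φ b → a = b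
  nc : ∀ a ∈ Dm p ε, fq p a = 0 → Φ a ∉ core p
  near : ∀ U, IsOpen U → core p ⊆ U → ∃ δ > 0, ∀ a ∈ Dm p ε, ‖a‖ < δ → Φ a ∈ U
  onto : ∀ δ > 0, ∃ U, IsOpen U ∧ core p ⊆ U ∧ ∃ t0 > 0, ∀ b ∈ U, fq p b = 1 →
    ∀ t : ℝ, 0 ≤ t → t ≤ t0 → (t = 0 → b ∉ core p) →
      ∃ a ∈ Dm p ε, ‖a‖ < δ ∧ fq p a = t ∧ Φ a = b

/-- The change of brackets. -/
def ra : C3 ≃L[ℝ] MP_1c0d65_gt.C3 := ContinuousLinearEquiv.prodAssoc ℝ ℂ ℂ ℂ

theorem norm_ra (a : C3) : ‖ra a‖ = ‖a‖ := by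
  change max ‖a.1.1‖ (max ‖a.1.2‖ ‖a.2‖) = max (max ‖a.1.1‖ ‖a.1.2‖) ‖a.2‖
  rw [max_assoc]

theorem ra_dom : ra a ∈ MP_1c0d65_gt.dom p ε ↔ a ∈ Dm p ε := by
  simp only [MP_1c0d65_gt.dom, Dm, mem_ofPred_eq, norm_ra, ne_eq, map_eq_zero_iff _ ra.injective]
  rfl

theorem ra_core : ra a ∈ MP_1c0d65_gt.core p ↔ a ∈ core p := by
  change (a.1.2 = (starRingEnd ℂ) a.1.1 ∧ (a.2 ^ p).im = 0 ∧ (a.2 ^ p).re ≤ 0) ∧ fq p a = 1 ↔
    a ∈ fib p 1 ∧ ‖a.1.1‖ = ‖a.1.2‖ ∧ (a.2 ^ p).im = 0 ∧ (a.2 ^ p).re ∈ Icc (-1 : ℝ) 0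
  rw [mem_fib]
  constructor
  · rintro ⟨⟨h1, h2, h3⟩, h4⟩
    refine ⟨h4, by simp [h1], h2, ?_, h3⟩
    have := congrArg Complex.re h4
    rw [fq, h1, Complex.mul_conj, Complex.sub_re, Complex.ofReal_re, Complex.one_re] at this
    linarith [Complex.normSq_nonneg a.1.1]
  · rintro ⟨h1, h2, h3, h4, h5⟩
    refine ⟨⟨?_, h3, h5⟩, h1⟩
    by_cases h0 : a.1.1 = 0
    · rw [h0, norm_zero] at h2
      rw [h0, map_zero]; exact norm_eq_zero.1 h2.symm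
    · have e : a.1.1 * a.1.2 = ((a.2 ^ p).re + 1 : ℝ) := by
        rw [fq, sub_eq_iff_eq_add'] at h1
        rw [h1]; exact Complex.ext (by simp) (by simpa using h3)
      have e2 : ‖a.1.1‖ * ‖a.1.1‖ = (a.2 ^ p).re + 1 := by
        nth_rewrite 2 [h2]
        rw [← norm_mul, e, Complex.norm_real, Real.norm_eq_abs, abs_of_nonneg (by linarith)]
      refine mul_left_cancel₀ h0 ?_
      rw [e, Complex.mul_conj, ← e2, Complex.normSq_eq_norm_sq, sq]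

theorem flo_of (hp : p ≠ 0) {Φ : MP_1c0d65_gt.C3 → MP_1c0d65_gt.C3} (h : FlowMap p ε Φ)
    (hs : ∀ a ∈ MP_1c0d65_gt.dom p ε, ∀ᶠ b in 𝓝 a, ContDiffAt ℝ ∞ Φ b) :
    Flo p ε fun a => ra.symm (Φ (ra a)) := by
  have hf : ∀ a, fP p (ra a) = fq p a := fun _ => rfl
  have hf' : ∀ a, fq p (ra.symm a) = fP p a := fun _ => rfl
  have hd : ∀ a v, fderiv ℝ (fP p) (ra a) (ra v) = dq p a v := by
    intro a v
    have h1 := (hasFDerivAt_fq p (ra.symm (ra a))).comp (ra a) ra.symm.hasFDerivAt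
    have h2 : fderiv ℝ (fP p) (ra a) = _ := h1.fderiv
    rw [h2]; simp
  refine ⟨fun a ha => (ra.continuous.continuousAt.eventually (hs _ (ra_dom.2 ha))).mono
    fun b hb => ra.symm.contDiff.contDiffAt.comp b (hb.comp b ra.contDiff.contDiffAt), fun a ha =>
      ra.continuous.continuousAt.eventually (h.level _ (ra_dom.2 ha)), fun a ha v w hv hw => ?_,
    fun a ha q ζ hζ => ?_, fun a ha b hb e e' => ra.injective
      (h.inj _ (ra_dom.2 ha) _ (ra_dom.2 hb) e (ra.symm.injective e')), fun a ha e hc => ?_,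
    fun U hU hc => ?_, fun δ hδ => ?_⟩
  · have h1 := ((h.smooth _ (ra_dom.2 ha)).differentiableAt (by simp)).hasFDerivAt
    have h2 : fderiv ℝ (fun a => ra.symm (Φ (ra a))) a = _ :=
      (ra.symm.hasFDerivAt.comp a (h1.comp a ra.hasFDerivAt)).fderiv
    rw [h2]
    exact h.sympl _ (ra_dom.2 ha) (ra v) (ra w) ((hd a v).trans hv) ((hd a w).trans hw)
  · exact congrArg ra.symm (h.equiv _ (ra_dom.2 ha) q ζ hζ)
  · have h1 := (h.core _ (ra_dom.2 ha)).1 (by simpa using ra_core.2 hc)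
    obtain ⟨h2, -, h3⟩ : a.1.2 = (starRingEnd ℂ) a.1.1 ∧ (a.2 ^ p).im = 0 ∧ (a.2 ^ p).re ≤ 0 := h1
    rw [fq, h2, Complex.mul_conj, sub_eq_zero] at e
    rw [← e, Complex.ofReal_re] at h3
    have h4 : a.1.1 = 0 := Complex.normSq_eq_zero.1 (h3.antisymm (Complex.normSq_nonneg _))
    rw [h4] at e h2
    refine ha.2.1 (Prod.ext (Prod.ext h4 (by simpa using h2)) ?_)
    exact pow_eq_zero_iff hp |>.1 (by simpa using e.symm)
  · obtain ⟨δ, hδ, h1⟩ := h.near (ra.symm ⁻¹' U) (hU.preimage ra.symm.continuous)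
      fun b hb => hc (ra_core.1 (by simpa using hb))
    exact ⟨δ, hδ, fun a ha h2 => h1 _ (ra_dom.2 ha) (by rwa [norm_ra])⟩
  · obtain ⟨U, hU, h1, t0, ht0, h2⟩ := h.onto δ hδ
    refine ⟨ra ⁻¹' U, hU.preimage ra.continuous, fun b hb => h1 (ra_core.2 hb), t0, ht0,
      fun b hb e t h3 h4 h5 => ?_⟩
    obtain ⟨a, ha, h6, h7, h8⟩ := h2 _ hb e t h3 h4 fun e h => h5 e (ra_core.1 h)
    obtain ⟨a, rfl⟩ := ra.surjective a
    exact ⟨a, ra_dom.1 ha, by rwa [norm_ra] at h6, h7, by rw [h8]; simp⟩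

theorem exists_flo (hp : 2 ≤ p) : ∃ F, Flo p (1 / 2) F := by
  refine ⟨_, flo_of (by omega) (Flow.flowMap hp) fun a ha => ?_⟩
  filter_upwards [((Flow.isOpen_Dm hp).preimage (Continuous.prodMk_right 1)).mem_nhds
    (Flow.dom_time hp ha).1] with b hb
  exact ((Flow.sm_th hp).contDiffAt ((Flow.isOpen_Dm hp).mem_nhds hb)).comp b
    (contDiffAt_const.prodMk contDiffAt_id)

theorem Flo.fq_eq {Φ : C3 → C3} (h : Flo p ε Φ) (ha : a ∈ Dm p ε) : fq p (Φ a) = 1 := by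
  rw [(h.level a ha).self_of_nhds, ha.2.2.1]; simp

theorem Flo.dq_eq {Φ : C3 → C3} (h : Flo p ε Φ) (ha : a ∈ Dm p ε) {v : C3} (hv : dq p a v = 0) :
    dq p (Φ a) (fderiv ℝ Φ a v) = 0 := by
  have h1 := (hasFDerivAt_fq p (Φ a)).comp a
    ((h.smooth a ha).self_of_nhds.differentiableAt (by simp)).hasFDerivAt
  have h2 := ((((Complex.ofRealCLM.comp Complex.imCLM).hasFDerivAt.comp a
    (hasFDerivAt_fq p a)).mul_const Complex.I).const_add 1).congr_of_eventuallyEq (h.level a ha)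
  have h3 := congrArg (fun T => T v) (h1.unique h2)
  simpa [hv] using h3

variable {X : Type} [TopologicalSpace X] [ChartedSpace E X]

/-- The local model at the pinwheel `L`, inside the open set `V`. -/
structure LM (om : X → Bil E ℝ) (L V : Set X) where
  p : ℕ
  q : ℕ
  hq : 0 < q
  hqp : q < p
  cop : p.Coprime q
  cc : ℝ
  δ : ℝ
  hδ : 0 < δ
  G : C3 → X
  cov : Cov om p q cc G (Dm p δ)
  closed : IsClosed L
  nc : ∀ a ∈ Dm p δ, fq p a = 0 → G a ∉ L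
  into : ∀ a ∈ Dm p δ, G a ∈ V
  near : ∀ U, IsOpen U → L ⊆ U → ∃ r > 0, ∀ a ∈ Dm p δ, ‖a‖ < r → G a ∈ U
  onto : ∀ r > 0, ∃ U, IsOpen U ∧ L ⊆ U ∧ ∃ t0 > 0, ∀ x ∈ U, ∀ t : ℝ, 0 ≤ t → t ≤ t0 →
    (t = 0 → x ∉ L) → ∃ a ∈ Dm p δ, ‖a‖ < r ∧ fq p a = t ∧ G a = x
  U : Set X
  opU : IsOpen U
  LU : L ⊆ U
  UV : U ⊆ V
  l : X → E →L[ℝ] ℝ
  l0 : ∀ x ∉ U, l x = 0
  prim : ∀ x, ∀ y ∈ dom x U, ContDiffAt ℝ ∞ (pull1 (par x) l) y ∧
    pull2 (par x) om y = ext1 (pull1 (par x) l) y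

theorem exists_LM [IsManifold 𝓘(ℝ, E) ∞ X] [T2Space X] {om : X → Bil E ℝ} {L V : Set X}
    (hL : Pinwheel om L) (hV : IsOpen V)
    (hLV : L ⊆ V) : Nonempty (LM om L V) := by
  classical
  obtain ⟨p, q, cc, U, Φ, hp, cop, hc, hU, hcU, hΦ, rfl, fb, sy⟩ := hL
  have hp0 : p ≠ 0 := by omega
  obtain ⟨ε, hε, F, hF⟩ : ∃ ε > 0, ∃ F, Flo p ε F := ⟨_, one_half_pos, exists_flo hp⟩
  have hq : ∀ ζ : ℂ, ζ ^ p = 1 → ∀ a, act (q % p) ζ a = act q ζ a := fun ζ hζ a => by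
    simp only [act, ← pow_eq_pow_mod q hζ]
  have hpre : ∀ W, IsOpen W → IsOpen (U ∩ Φ ⁻¹' W) := fun W hW =>
    hΦ.continuousOn.isOpen_inter_preimage hU hW
  have c0 : Cov om p (q % p) cc Φ (U ∩ fib p 1) := by
    refine ⟨hp0, hc, fun a ha => (hU.eventually_mem ha.1).mono fun b hb =>
      hΦ.contMDiffAt (hU.mem_nhds hb), fun a ha v w hv hw => ?_,
      fun a ha b hb _ => (fb a ha b hb).trans
        (exists_congr fun ζ => and_congr_right fun hζ => by rw [hq ζ hζ]), fun a ha => ?_⟩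
    · rw [dq_apply, sub_eq_zero] at hv hw
      exact sy a ha v w hv hw
    · filter_upwards [hU.mem_nhds ha.1] with b hb e
      exact ⟨hb, mem_fib.2 (e.trans (mem_fib.1 ha.2))⟩
  have c1 := c0.mono (hpre V hV)
  set A := U ∩ fib p 1 ∩ (U ∩ Φ ⁻¹' V) with hA
  have hcA : core p ⊆ A := fun a ha => ⟨⟨hcU ha, ha.1⟩, hcU ha, hLV ⟨a, ha, rfl⟩⟩
  obtain ⟨δ0, hδ0, h0⟩ := hF.near _ (hpre V hV) fun a ha => (hcA ha).2
  have hm : Dm p (min δ0 ε) ⊆ Dm p ε := Dm.mono (min_le_right _ _)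
  have hFA : ∀ a ∈ Dm p (min δ0 ε), F a ∈ A := fun a ha => by
    have := h0 a (hm ha) (ha.1.trans_le (min_le_left _ _))
    exact ⟨⟨this.1, mem_fib.2 (hF.fq_eq (hm ha))⟩, this⟩
  have hl : ∀ b ∈ A, (if h : ∃ b' ∈ A, Φ b' = Φ b then pushL p cc Φ h.choose else 0) =
      pushL p cc Φ b := fun b hb => by
    have h : ∃ b' ∈ A, Φ b' = Φ b := ⟨b, hb, rfl⟩
    rw [dif_pos h]
    exact c1.pushL_eq h.choose_spec.1 hb
      ((mem_fib.1 h.choose_spec.1.1.2).trans (mem_fib.1 hb.1.2).symm) h.choose_spec.2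
  refine ⟨⟨p, q % p, ?_, Nat.mod_lt _ (by omega), ?_, cc, min δ0 ε, lt_min hδ0 hε,
    fun a => Φ (F a), ⟨hp0, hc, fun a ha => ?_, fun a ha v w hv hw => ?_, fun a ha b hb e => ?_,
      fun a ha => ?_⟩, ((isCompact_core hp0).image_of_continuousOn
      (hΦ.continuousOn.mono hcU)).isClosed, fun a ha e => ?_, fun a ha => (hFA a ha).2.2,
    fun W hW hLW => ?_, fun r hr => ?_, Φ '' (A ∩ fib p 1), c1.isOpen_image 1,
    image_mono fun a ha => ⟨hcA ha, ha.1⟩, ?_,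
    fun x => if h : ∃ b ∈ A, Φ b = x then pushL p cc Φ h.choose else 0, fun x hx => ?_,
    fun x y hy => ?_⟩⟩
  · refine Nat.pos_of_ne_zero fun h => ?_
    have := Nat.Coprime.eq_one_of_dvd cop (Nat.dvd_of_mod_eq_zero h)
    omega
  · rw [Nat.Coprime, Nat.gcd_comm, ← Nat.gcd_rec]; exact cop
  · filter_upwards [hF.smooth a (hm ha), (hF.smooth a (hm ha)).self_of_nhds.continuousAt.eventually
      (c1.sm _ (hFA a ha))] with b h1 h2 using h2.comp b h1.contMDiffAt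
  · rw [dif_comp (c1.md (hFA a ha))
      ((hF.smooth a (hm ha)).self_of_nhds.differentiableAt (by simp)),
      ← hF.sympl a (hm ha) v w hv hw]
    exact c1.sy _ (hFA a ha) _ _ (hF.dq_eq (hm ha) hv) (hF.dq_eq (hm ha) hw)
  · refine (c1.fb _ (hFA a ha) _ (hFA b hb) ((hF.fq_eq (hm ha)).trans
      (hF.fq_eq (hm hb)).symm)).trans (exists_congr fun ζ => and_congr_right fun hζ => ?_)
    rw [← hF.equiv a (hm ha) _ ζ hζ]
    exact ⟨hF.inj _ (hm hb) _ (Dm.act hp0 hζ (hm ha)) (by rw [fq_act hp0 hζ, e]),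
      fun h => by rw [h]⟩
  · filter_upwards [Dm.ev ha] with b hb e using hb _ ha.2.2.2 (e.trans (Dm.fq_eq ha))
  · rintro ⟨b, hb, e'⟩
    obtain ⟨ζ, hζ, h⟩ := (c1.fb _ (hcA hb) _ (hFA a ha)
      ((mem_fib.1 hb.1).trans (hF.fq_eq (hm ha)).symm)).1 e'
    exact hF.nc a (hm ha) e (h ▸ core_act hp0 hζ hb)
  · obtain ⟨r, hr, h⟩ := hF.near _ (hpre W hW) fun a ha => ⟨hcU ha, hLW ⟨a, ha, rfl⟩⟩
    exact ⟨r, hr, fun a ha h' => (h a (hm ha) h').2⟩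
  · obtain ⟨W, hW, hcW, t0, ht0, h⟩ := hF.onto (min r (min δ0 ε)) (lt_min hr (lt_min hδ0 hε))
    refine ⟨_, (c1.mono hW).isOpen_image 1, image_mono fun a ha => ⟨⟨hcA ha, hcW ha⟩, ha.1⟩,
      t0, ht0, ?_⟩
    rintro _ ⟨b, hb, rfl⟩ t h1 h2 h3
    obtain ⟨a, ha, h4, h5, h6⟩ := h b hb.1.2 (mem_fib.1 hb.2) t h1 h2
      fun e hc => h3 e ⟨b, hc, rfl⟩
    exact ⟨a, ⟨h4.trans_le (min_le_right _ _), ha.2⟩, h4.trans_le (min_le_left _ _), h5,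
      by rw [h6]⟩
  · rintro _ ⟨b, hb, rfl⟩
    exact hb.1.2.2
  · exact dif_neg fun ⟨b, hb, e⟩ => hx ⟨b, ⟨hb, hb.1.2⟩, e⟩
  · obtain ⟨b, hb, e⟩ := hy.2
    have h1 : Φ b ∈ (chartAt E x).source := e ▸ (chartAt E x).map_target hy.1
    have h2 : chartAt E x (Φ b) = y := by rw [e]; exact (chartAt E x).right_inv hy.1
    rw [← h2]
    exact c1.prim hb.1 (fun b hb _ => hl b hb) h1

end Pool.Agent.Lib.MP_1c0d65_gt.PW.Fd
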