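import Pool.Agent.Lib.MP_1c0d65_gt.F.Dat
import Pool.Agent.Lib.MP_1c0d65_gt.PW.PlotH

/-! The uniformising map of the singular fibre, and the orbifold structure. -/

set_option autoImplicit false

open scoped Manifold ContDiff Topology
open Set Filter Metric

noncomputable section

namespace Pool.Agent.Lib.MP_1c0d65_gt.PW.Fd

/-- The quotient map onto the singular fibre. -/
def nu (p : ℕ) (z : E) : C3 := ((z.1 ^ p, z.2 ^ p), z.1 * z.2)

variable {p q a : ℕ} {z z' : E}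

theorem contDiff_nu (p : ℕ) : ContDiff ℝ ∞ (nu p) := by unfold nu; fun_prop

theorem fderiv_nu (p : ℕ) (z v : E) : fderiv ℝ (nu p) z v =
    ((p * z.1 ^ (p - 1) * v.1, p * z.2 ^ (p - 1) * v.2), z.2 * v.1 + z.1 * v.2) := by
  have h1 : HasFDerivAt (fun z : E => z.1) (ContinuousLinearMap.fst ℝ ℂ ℂ) z := hasFDerivAt_fst
  have h2 : HasFDerivAt (fun z : E => z.2) (ContinuousLinearMap.snd ℝ ℂ ℂ) z := hasFDerivAt_snd
  have h : fderiv ℝ (nu p) z = _ := (((h1.pow p).prodMk (h2.pow p)).prodMk (h1.mul h2)).fderiv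
  rw [h]
  simp [add_comm]

theorem fderiv_nu_I (p : ℕ) (z v : E) :
    fderiv ℝ (nu p) z (Complex.I • v) = Complex.I • fderiv ℝ (nu p) z v := by
  simp only [fderiv_nu]
  ext <;> simp <;> ring

theorem fderiv_nu_inj (hp : p ≠ 0) (hz : z ≠ 0) {v : E} (h : fderiv ℝ (nu p) z v = 0) : v = 0 := by
  rw [fderiv_nu] at h
  simp only [Prod.mk_eq_zero, mul_eq_zero, Nat.cast_eq_zero, hp, false_or] at h
  obtain ⟨⟨h1, h2⟩, h3⟩ := h
  by_cases hA : z.1 = 0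
  · have hB : z.2 ≠ 0 := fun hB => hz (Prod.ext hA hB)
    have e2 := h2.resolve_left (pow_ne_zero _ hB)
    rw [e2, mul_zero, add_zero, mul_eq_zero] at h3
    exact Prod.ext (h3.resolve_left hB) e2
  · have e1 := h1.resolve_left (pow_ne_zero _ hA)
    rw [e1, mul_zero, zero_add, mul_eq_zero] at h3
    exact Prod.ext e1 (h3.resolve_left hA)

theorem fq_nu (p : ℕ) (z : E) : fq p (nu p z) = 0 := by simp [fq, nu, mul_pow]

theorem norm_nu (hp : p ≠ 0) (hz : ‖z‖ ≤ 1) : ‖nu p z‖ ≤ ‖z‖ := by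
  have h1 := norm_fst_le z
  have h2 := norm_snd_le z
  rw [nu, Prod.norm_def, Prod.norm_def (_, _)]
  simp only [max_le_iff, norm_pow, norm_mul]
  refine ⟨⟨(pow_le_of_le_one (norm_nonneg _) (h1.trans hz) hp).trans h1,
    (pow_le_of_le_one (norm_nonneg _) (h2.trans hz) hp).trans h2⟩, ?_⟩
  nlinarith [norm_nonneg z.1, norm_nonneg z.2]

theorem nu_ne (hz : z ≠ 0) : nu p z ≠ 0 := fun h =>
  hz (Prod.ext (eq_zero_of_pow_eq_zero (n := p) (congrArg (fun a : C3 => a.1.1) h))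
    (eq_zero_of_pow_eq_zero (n := p) (congrArg (fun a : C3 => a.1.2) h)))

theorem nu_mem (hp : p ≠ 0) {r δ : ℝ} (h1 : r ≤ 1) (h2 : r ≤ δ) (hz : z ∈ pb r) :
    nu p z ∈ Dm p δ ∧ ‖nu p z‖ < r := by
  have h := mem_ball_zero_iff.1 hz.1
  have h3 := (norm_nu hp (h.le.trans h1)).trans_lt h
  exact ⟨⟨h3.trans_le h2, nu_ne hz.2, by simp [fq_nu], by simp [fq_nu]⟩, h3⟩

theorem nu_surj (hp : p ≠ 0) {r : ℝ} (hr : 0 < r) {b : C3} (hb : fq p b = 0) (h0 : b ≠ 0)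
    (h : ‖b‖ < r ^ p) : ∃ z ∈ pb r, nu p z = b := by
  suffices ∃ z, nu p z = b by
    obtain ⟨z, rfl⟩ := this
    refine ⟨z, ⟨mem_ball_zero_iff.2 (max_lt ?_ ?_), fun e => h0 ?_⟩, rfl⟩
    · refine lt_of_pow_lt_pow_left₀ p hr.le (lt_of_le_of_lt ?_ h)
      rw [← norm_pow]; exact (norm_fst_le (nu p z).1).trans (norm_fst_le _)
    · refine lt_of_pow_lt_pow_left₀ p hr.le (lt_of_le_of_lt ?_ h)
      rw [← norm_pow]; exact (norm_snd_le (nu p z).1).trans (norm_fst_le _)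
    · rw [mem_singleton_iff.1 e]; simp [nu, hp]
  obtain ⟨⟨x, y⟩, w⟩ := b
  rw [fq, sub_eq_zero] at hb
  simp only at hb
  by_cases hx : x = 0
  · obtain ⟨B, hB⟩ := IsAlgClosed.exists_pow_nat_eq y (Nat.pos_of_ne_zero hp)
    have : w = 0 := eq_zero_of_pow_eq_zero (n := p) (by rw [← hb, hx, zero_mul])
    exact ⟨(0, B), by simp [nu, hp, hB, hx, this]⟩
  · obtain ⟨A, hA⟩ := IsAlgClosed.exists_pow_nat_eq x (Nat.pos_of_ne_zero hp)
    have hA0 : A ≠ 0 := fun e => hx (by rw [← hA, e, zero_pow hp])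
    refine ⟨(A, w / A), ?_⟩
    simp only [nu, div_pow, hA, ← hb, Prod.mk.injEq, true_and]
    constructor <;> field_simp

theorem nu_inj (hp : p ≠ 0) (h : nu p z = nu p z') :
    ∃ η : ℂ, η ^ p = 1 ∧ z' = (η * z.1, η⁻¹ * z.2) := by
  simp only [nu, Prod.mk.injEq] at h
  obtain ⟨⟨h1, h2⟩, h3⟩ := h
  by_cases hA : z.1 = 0
  · have hA' : z'.1 = 0 := eq_zero_of_pow_eq_zero (n := p) (by rw [← h1, hA, zero_pow hp])
    by_cases hB : z'.2 = 0
    · have hB' : z.2 = 0 := eq_zero_of_pow_eq_zero (n := p) (by rw [h2, hB, zero_pow hp])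
      exact ⟨1, one_pow _, Prod.ext (by simp [hA, hA']) (by simp [hB, hB'])⟩
    · have hB' : z.2 ≠ 0 := fun e => hB (eq_zero_of_pow_eq_zero (n := p) (by rw [← h2, e, zero_pow hp]))
      refine ⟨z.2 / z'.2, by rw [div_pow, h2, div_self (pow_ne_zero _ hB)],
        Prod.ext (by simp [hA, hA']) ?_⟩
      simp only; field_simp
  · have hA' : z'.1 ≠ 0 := fun e => hA (eq_zero_of_pow_eq_zero (n := p) (by rw [h1, e, zero_pow hp]))
    refine ⟨z'.1 / z.1, by rw [div_pow, ← h1, div_self (pow_ne_zero _ hA)], Prod.ext ?_ ?_⟩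
    · simp only; field_simp
    · simp only; field_simp; linear_combination -h3

theorem nu_fibre (hp : p ≠ 0) (ha : a + 1 = p * q) :
    (∃ ζ : ℂ, ζ ^ p = 1 ∧ nu p z' = act q ζ (nu p z)) ↔ ∃ m, z' = gen (p ^ 2) a m z := by
  have hε : IsPrimitiveRoot (eps (p ^ 2)) (p ^ 2) := Complex.isPrimitiveRoot_exp _ (pow_ne_zero _ hp)
  have hζ : IsPrimitiveRoot (eps (p ^ 2) ^ p) p :=
    hε.pow (Nat.pos_of_ne_zero (pow_ne_zero _ hp)) (sq p)
  have h1 : ∀ m, ((eps (p ^ 2) ^ p) ^ m) ^ p = 1 := fun m => by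
    rw [← pow_mul, mul_comm m, pow_mul, hζ.pow_eq_one, one_pow]
  have h2 : ∀ m, ((eps (p ^ 2) ^ p) ^ m)⁻¹ = eps (p ^ 2) ^ (a * m * p) := fun m => by
    refine inv_eq_of_mul_eq_one_right ?_
    rw [← pow_mul, ← pow_add, show p * m + a * m * p = (a + 1) * m * p by ring, ha,
      show p * q * m * p = p ^ 2 * (q * m) by ring, pow_mul, hε.pow_eq_one, one_pow]
  have h3 : ∀ m z, nu p (gen (p ^ 2) a m z) = act q ((eps (p ^ 2) ^ p) ^ m) (nu p z) := fun m z => by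
    simp only [nu, gen, act, h2]
    simp only [mul_pow, ← pow_mul, Prod.mk.injEq]
    refine ⟨⟨by rw [mul_comm m], trivial⟩, ?_⟩
    rw [show p * m * q = m + a * m by rw [mul_right_comm, ← ha]; ring, pow_add]
    ring
  have : NeZero p := ⟨hp⟩
  refine ⟨fun ⟨ζ, h, e⟩ => ?_, fun ⟨m, e⟩ => ⟨_, h1 m, e ▸ h3 m z⟩⟩
  obtain ⟨m, -, rfl⟩ := hζ.eq_pow_of_pow_eq_one h
  obtain ⟨η, h4, e'⟩ := nu_inj hp (e.trans (h3 m z).symm).symm
  obtain ⟨j, -, rfl⟩ := hζ.eq_pow_of_pow_eq_one h4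
  refine ⟨p * j + m, ?_⟩
  rw [e', h2]
  simp only [gen, ← pow_mul, ← mul_assoc, ← pow_add]
  congr 3
  ring

variable {X : Type} [TopologicalSpace X] [ChartedSpace E X] [MeasurableSpace X]
  {c : Ctx X} {n : ℕ} {L : Fin n → Set X}

theorem Cut.exists_R (D : Cut c L) : ∃ R > 0, R ≤ 1 ∧ ∀ i, R ≤ (D.M i).δ ∧
    ∀ b ∈ Dm (D.M i).p (D.M i).δ, ‖b‖ < R → D.χ i ((D.M i).G b) = 1 := by
  have : ∀ i, ∀ᶠ R in 𝓝 (0 : ℝ), R ≤ (D.M i).δ ∧
      ∀ b ∈ Dm (D.M i).p (D.M i).δ, ‖b‖ < R → D.χ i ((D.M i).G b) = 1 := fun i => by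
    obtain ⟨U, hU, h1, h2⟩ := mem_nhdsSet_iff_exists.1 (D.χ1 i)
    obtain ⟨r, hr, h⟩ := (D.M i).near U hU h1
    filter_upwards [eventually_le_nhds (D.M i).hδ, eventually_le_nhds hr] with R h3 h4
    exact ⟨h3, fun b hb h5 => h2 (h b hb (h5.trans_le h4))⟩
  obtain ⟨R, h1, h2⟩ := (((eventually_le_nhds one_pos).and (eventually_all.2 this)).filter_mono
    (nhdsWithin_le_nhds (s := Ioi 0))).and self_mem_nhdsWithin |>.exists
  exact ⟨R, h2, h1⟩

/-- The radius of the uniformising charts. -/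
def Cut.R (D : Cut c L) : ℝ := D.exists_R.choose

theorem Cut.R_pos (D : Cut c L) : 0 < D.R := D.exists_R.choose_spec.1

theorem Cut.hp (D : Cut c L) (i : Fin n) : (D.M i).p ≠ 0 := (D.M i).cov.hp

theorem Cut.mem (D : Cut c L) (i : Fin n) {r : ℝ} (hr : r ≤ D.R) (hz : z ∈ pb r) :
    nu (D.M i).p z ∈ Dm (D.M i).p (D.M i).δ ∧ ‖nu (D.M i).p z‖ < r :=
  nu_mem (D.hp i) (hr.trans D.exists_R.choose_spec.2.1)
    (hr.trans (D.exists_R.choose_spec.2.2 i).1) hz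

/-- The uniformising maps. -/
def Cut.Pi (D : Cut c L) (i : Fin n) (z : E) : X := (D.M i).G (nu (D.M i).p z)

theorem Cut.Pi_sm (D : Cut c L) (i : Fin n) (hz : z ∈ pb D.R) : SmAt ∞ (D.Pi i) z :=
  ((D.M i).cov.sm1 (D.mem i le_rfl hz).1).comp z (contDiff_nu _).contMDiff.contMDiffAt

theorem Cut.Pi_dif (D : Cut c L) (i : Fin n) (hz : z ∈ pb D.R) (v : E) :
    dq (D.M i).p (nu (D.M i).p z) (fderiv ℝ (nu (D.M i).p) z v) = 0 ∧
      dif (D.M i).G (nu (D.M i).p z) (fderiv ℝ (nu (D.M i).p) z v) = dif (D.Pi i) z v := by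
  have h := (D.mem i le_rfl hz).1
  have := ((D.M i).cov.et h).lf_lift (f := D.Pi i) ((D.M i).cov.md h)
    ((contDiff_nu _).differentiable (by simp) z) rfl (.of_forall fun y => ⟨fq_nu _ y, rfl⟩) v
  exact ⟨this.1, this.2.1⟩

theorem Cut.Pi_inj (D : Cut c L) (i : Fin n) (hz : z ∈ pb D.R) :
    Function.Injective (dif (D.Pi i) z) := by
  refine (injective_iff_map_eq_zero _).2 fun v hv => fderiv_nu_inj (D.hp i) hz.2 ?_
  exact (D.M i).cov.et (D.mem i le_rfl hz).1 _ (D.Pi_dif i hz v).1 ((D.Pi_dif i hz v).2.trans hv)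

theorem Cut.pq (D : Cut c L) (i : Fin n) :
    (D.M i).p * (D.M i).q - 1 + 1 = (D.M i).p * (D.M i).q :=
  Nat.sub_add_cancel (Nat.mul_pos (Nat.pos_of_ne_zero (D.hp i)) (D.M i).hq)

variable [IsManifold 𝓘(ℝ, E) ∞ X]

theorem Cut.Pi_open (D : Cut c L) (i : Fin n) {r : ℝ} (hr : r ∈ Ioc 0 D.R) :
    IsOpen (D.Pi i '' pb r ∪ L i) := by
  have h1 : IsOpen (D.Pi i '' pb r) := by
    refine isOpen_image_etale (isOpen_ball.sdiff isClosed_singleton) fun y hy => ?_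
    have hy' : y ∈ pb D.R := ⟨ball_subset_ball hr.2 hy.1, hy.2⟩
    exact ⟨(D.Pi_sm i hy').of_le (by simp), ⟨(LinearMap.linearEquivOfInjective
      (dif (D.Pi i) y : E →ₗ[ℝ] E) (D.Pi_inj i hy') rfl).toContinuousLinearEquiv,
      ContinuousLinearMap.ext fun _ => rfl⟩⟩
  obtain ⟨U, hU, h2, t, ht, h3⟩ := (D.M i).onto _ (pow_pos hr.1 (D.M i).p)
  have : D.Pi i '' pb r ∪ L i = D.Pi i '' pb r ∪ U ∩ (D.Pi i '' pb r ∪ L i) := by
    ext x
    exact ⟨fun h => h.elim .inl fun h' => .inr ⟨h2 h', h⟩, fun h => h.elim .inl (·.2)⟩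
  rw [this, inter_eq_left.2]
  · exact h1.union hU
  · intro x hx
    by_cases hL : x ∈ L i
    · exact .inr hL
    · obtain ⟨b, hb, h4, h5, rfl⟩ := h3 x hx 0 le_rfl ht.le fun _ => hL
      obtain ⟨z, hz, rfl⟩ := nu_surj (D.hp i) hr.1 (by simpa using h5) hb.2.1 h4
      exact .inl ⟨z, hz, rfl⟩

/-- The orbifold. -/
def Dat.orb (D : Dat c L) : Orb c where
  n := n
  N i := (D.M i).p ^ 2
  a i := (D.M i).p * (D.M i).q - 1
  wahl i := ⟨_, _, (D.M i).hq, (D.M i).hqp, (D.M i).cop, rfl, D.pq i⟩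
  L := L
  closed i := (D.M i).closed
  disj i j h := (D.dV i j h).mono (D.LV i) (D.LV j)
  J := D.J 0
  tame := D.tame0
  R := D.R
  hR := D.R_pos
  Pi := D.Pi
  smooth i z hz := (D.Pi_sm i hz).contMDiffWithinAt
  hol i z hz v := by
    have h := D.mem i le_rfl hz
    have h1 := D.hJ i 0 _ h.1 (by simp [fq_nu]) ((D.exists_R.choose_spec.2.2 i).2 _ h.1 h.2)
    rw [← (D.Pi_dif i hz _).2, ← (D.Pi_dif i hz v).2, fderiv_nu_I, Cut.Pi, h1,
      ((D.M i).cov.et h.1).pushJ_dif (D.Pi_dif i hz v).1]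
  inj i z hz := D.Pi_inj i hz
  maps i z hz := by
    have h := (D.mem i le_rfl hz).1
    intro h1
    obtain ⟨j, hj⟩ := mem_iUnion.1 h1
    obtain rfl : i = j := D.idx ((D.M i).into _ h) (D.LV j hj)
    exact (D.M i).nc _ h (fq_nu _ _) hj
  fibre i j z hz z' hz' := by
    have h := fun i => (D.mem i le_rfl hz).1
    have h' := fun i => (D.mem i le_rfl hz').1
    have key := ((D.M i).cov.fb _ (h i) _ (h' i) (by simp only [fq_nu])).trans
      (nu_fibre (D.hp i) (D.pq i))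
    refine ⟨fun e => ?_, ?_⟩
    · obtain rfl : i = j := D.idx ((D.M i).into _ (h i)) (by
        have := (D.M j).into _ (h' j)
        rwa [show (D.M j).G (nu (D.M j).p z') = D.Pi i z from e.symm] at this)
      exact ⟨rfl, key.1 e⟩
    · rintro ⟨rfl, e⟩
      exact key.2 e
  isOpen i r hr := D.Pi_open i hr
  small i U hU hL := by
    obtain ⟨r, hr, h⟩ := (D.M i).near U hU hL
    refine ⟨min r D.R, ⟨lt_min hr D.R_pos, min_le_right _ _⟩, ?_⟩
    rintro _ ⟨z, hz, rfl⟩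
    have := D.mem i (min_le_right _ _) hz
    exact h _ this.1 (this.2.trans_le (min_le_left _ _))
  lam i z := (((D.M i).cc / 2) • stdL (nu (D.M i).p z)).comp (fderiv ℝ (nu (D.M i).p) z)
  hlam i := by
    refine ⟨fun z _ => (contDiffAt_half (contDiff_nu _).contDiffAt _).contDiffWithinAt,
      fun z hz => ContinuousLinearMap.ext fun v => ContinuousLinearMap.ext fun w => ?_⟩
    rw [ext1_half (contDiff_nu _).contDiffAt, ← (D.M i).cov.sy _ (D.mem i le_rfl hz).1 _ _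
      (D.Pi_dif i hz v).1 (D.Pi_dif i hz w).1, (D.Pi_dif i hz v).2, (D.Pi_dif i hz w).2]
    rfl

end Pool.Agent.Lib.MP_1c0d65_gt.PW.Fd
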