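import Pool.Agent.Lib.MP_1c0d65_gt.PW.Deg
import Pool.Agent.Lib.MP_1c0d65_gt.Emb.Amb

/-! Charts of the total space of a family at the smooth points. -/

set_option autoImplicit false
set_option linter.unusedSectionVars false

open scoped Manifold ContDiff Topology
open Set MeasureTheory Filter Metric

noncomputable section

namespace Pool.Agent.Lib.MP_1c0d65_gt.PW

open Emb

theorem pos_near {P : Type} [TopologicalSpace P] {B : P → Bil E ℝ} {p : P} (hB : ContinuousAt B p)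
    (h : ∀ v ≠ 0, 0 < B p v v) : ∃ m > 0, ∀ᶠ q in 𝓝 p, ∀ v, m * ‖v‖ ^ 2 ≤ B q v v := by
  obtain ⟨v₀, h0, hm⟩ := (isCompact_sphere (0 : E) 1).exists_isMinOn
    (NormedSpace.sphere_nonempty.2 zero_le_one) (f := fun v => B p v v) (by fun_prop)
  have h1 : 0 < B p v₀ v₀ := h v₀ (ne_of_mem_sphere h0 one_ne_zero)
  have h2 : ∀ v, B p v₀ v₀ * ‖v‖ ^ 2 ≤ B p v v := fun v => by
    rcases eq_or_ne v 0 with rfl | hv
    · simp
    have hn : 0 < ‖v‖ := norm_pos_iff.2 hv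
    have := hm (show ‖v‖⁻¹ • v ∈ sphere (0 : E) 1 by simp [norm_smul, hn.ne'])
    simp only [mem_ofPred_eq, map_smul, smul_apply, smul_eq_mul] at this
    calc _ ≤ ‖v‖⁻¹ * (‖v‖⁻¹ * B p v v) * ‖v‖ ^ 2 := by gcongr
      _ = _ := by field_simp
  refine ⟨B p v₀ v₀ / 2, by positivity, ?_⟩
  have h5 := (tendsto_iff_norm_sub_tendsto_zero (E := Bil E ℝ) (f := B) (b := B p)).1 hB
  filter_upwards [h5.eventually_le_const (u := B p v₀ v₀ / 2) (by positivity)] with q hq v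
  have h3 := (B q - B p).le_opNorm₂ v v
  have h4 : ‖B q - B p‖ * ‖v‖ * ‖v‖ ≤ B p v₀ v₀ / 2 * ‖v‖ ^ 2 := by
    rw [mul_assoc, ← sq]; gcongr
  simp only [sub_apply, Real.norm_eq_abs] at h3
  linarith [h2 v, (abs_le.1 (h3.trans h4)).1]

theorem norm_le_one_I {F : Type} [NormedAddCommGroup F] [NormedSpace ℝ F] (L : ℂ →L[ℝ] F) :
    ‖L‖ ≤ ‖L 1‖ + ‖L .I‖ := by
  refine L.opNorm_le_bound (by positivity) fun ξ => ?_
  have : ξ = ξ.re • (1 : ℂ) + ξ.im • Complex.I := by simp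
  conv_lhs => rw [this, map_add, map_smul, map_smul]
  refine (norm_add_le _ _).trans ?_
  rw [norm_smul, norm_smul, add_mul, mul_comm ‖L 1‖, mul_comm ‖L .I‖]
  gcongr
  exacts [Complex.abs_re_le_norm ξ, Complex.abs_im_le_norm ξ]

variable {X : Type} [TopologicalSpace X] [ChartedSpace E X] [IsManifold 𝓘(ℝ, E) ∞ X]
  [T2Space X] [CompactSpace X] [MeasurableSpace X] {c : Ctx X} {O : Orb c}
  {V : Type} [NormedAddCommGroup V] [NormedSpace ℝ V] [FiniteDimensional ℝ V]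

namespace Pre

variable (Q : Pre V O)

/-- The map of the total space. -/
def κ (p : ℝ × X) : ℝ × V := (p.1, Q.ι p)

theorem κ_cont : ContinuousOn Q.κ (Q.I ×ˢ univ) := continuousOn_fst.prodMk Q.cont

theorem κ_slice {t : ℝ} (ht : t ∈ Q.I) : Continuous fun x => Q.κ (t, x) :=
  Q.κ_cont.comp_continuous (by fun_prop) fun x => ⟨ht, mem_univ x⟩

theorem cpt_off {U : Set (ℝ × X)} (hU : IsOpen U) : IsCompact (Q.κ '' (Q.I ×ˢ univ \ U)) :=
  ((Q.cI.prod isCompact_univ).diff hU).image_of_continuousOn (Q.κ_cont.mono sdiff_subset)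

/-- The closed map lemma. -/
theorem shrink {U : Set (ℝ × X)} (hU : IsOpen U) {e : ℝ × V}
    (h : ∀ t ∈ Q.I, ∀ x, Q.κ (t, x) = e → (t, x) ∈ U) :
    ∀ᶠ e' in 𝓝 e, ∀ t ∈ Q.I, ∀ x, Q.κ (t, x) = e' → (t, x) ∈ U := by
  have : e ∈ (Q.κ '' (Q.I ×ˢ univ \ U))ᶜ := by
    rintro ⟨⟨t, x⟩, hp, rfl⟩
    exact hp.2 (h t hp.1.1 x rfl)
  filter_upwards [(Q.cpt_off hU).isClosed.isOpen_compl.mem_nhds this] with e' he t ht x hx
  by_contra hn
  exact he ⟨(t, x), ⟨⟨ht, mem_univ x⟩, hn⟩, hx⟩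

/-- The tube lemma. -/
theorem tube {N : Set (ℝ × V)} (hN : IsOpen N) (h : ∀ x, Q.κ (0, x) ∈ N) :
    ∀ᶠ t in 𝓝 (0 : ℝ), t ∈ Q.I → ∀ x, Q.κ (t, x) ∈ N := by
  have h1 : IsCompact (Prod.fst '' (Q.κ '' (Q.I ×ˢ univ) \ N)) :=
    (((Q.cI.prod isCompact_univ).image_of_continuousOn Q.κ_cont).diff hN).image continuous_fst
  have : (0 : ℝ) ∈ (Prod.fst '' (Q.κ '' (Q.I ×ˢ univ) \ N))ᶜ := by
    rintro ⟨_, ⟨⟨⟨t, x⟩, -, rfl⟩, hn⟩, rfl : t = 0⟩
    exact hn (h x)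
  filter_upwards [h1.isClosed.isOpen_compl.mem_nhds this] with t ht hI x
  by_contra hn
  exact ht ⟨_, ⟨⟨(t, x), ⟨hI, mem_univ x⟩, rfl⟩, hn⟩, rfl⟩

theorem κ_eq {x : X} (hx : x ∈ O.W) {t : ℝ} {y : X} (h : Q.κ (t, y) = Q.κ (0, x)) :
    t = 0 ∧ y = x := by
  obtain rfl : t = 0 := congrArg Prod.fst h
  have h2 : Q.ι (0, y) = Q.ι (0, x) := congrArg Prod.snd h
  by_cases hy : y ∈ O.W
  · exact ⟨rfl, Q.inj0 hy hx h2⟩
  · obtain ⟨i, hi⟩ := mem_iUnion.1 (not_not.1 hy)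
    exact absurd (h2.symm.trans (Q.onL i y hi)) (Q.ne x hx i)

theorem κ_eq_P {i : Fin O.n} {t : ℝ} {y : X} (h : Q.κ (t, y) = (0, Q.P i)) :
    t = 0 ∧ y ∈ O.L i := by
  obtain rfl : t = 0 := congrArg Prod.fst h
  have h2 : Q.ι (0, y) = Q.P i := congrArg Prod.snd h
  by_cases hy : y ∈ O.W
  · exact absurd h2 (Q.ne y hy i)
  · obtain ⟨j, hj⟩ := mem_iUnion.1 (not_not.1 hy)
    obtain rfl : j = i := Q.Pinj ((Q.onL j y hj).symm.trans h2)
    exact ⟨rfl, hj⟩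

/-- A chart of the total space at a smooth point. -/
structure Ch (x : X) where
  N : Set (ℝ × V)
  U : Set (ℝ × E)
  g : ℝ × V → E
  ιl : ℝ × E → V
  Jl : ℝ × E → E →L[ℝ] E
  C : ℝ
  opN : IsOpen N
  opU : IsOpen U
  mem : Q.κ (0, x) ∈ N
  smg : ∀ e ∈ N, ContDiffAt ℝ ∞ g e
  smι : ∀ q ∈ U, ContDiffAt ℝ ∞ ιl q
  smJ : ∀ q ∈ U, ContDiffAt ℝ ∞ Jl q
  maps : ∀ e ∈ N, (e.1, g e) ∈ U
  tgt : ∀ q ∈ U, q.2 ∈ (chartAt E x).target
  sq : ∀ q ∈ U, ∀ v, Jl q (Jl q v) = -v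
  eqι : ∀ q ∈ U, q.1 ∈ Q.I → ιl q = Q.ι (q.1, par x q.2)
  eqJ : ∀ q ∈ U, q.1 ∈ Q.I → Jl q = pullJ (par x) (Q.J q.1) q.2
  left : ∀ t ∈ Q.I, ∀ y, Q.κ (t, y) ∈ N →
    y ∈ (chartAt E x).source ∧ g (Q.κ (t, y)) = chartAt E x y
  hC : 0 < C
  en : ∀ q ∈ U, ∀ L : ℂ →L[ℝ] E, L .I = Jl q (L 1) →
    (‖fderiv ℝ ιl q‖ * ‖L‖) ^ 2 ≤ C * pull2 (par x) c.om q.2 (L 1) (L .I)

theorem exists_en {x : X} (hx : x ∈ O.W) {ιl : ℝ × E → V} {Jl : ℝ × E → E →L[ℝ] E}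
    (h1 : ContDiffAt ℝ ∞ ιl (0, chartAt E x x)) (h2 : ContDiffAt ℝ ∞ Jl (0, chartAt E x x))
    (h3 : Jl (0, chartAt E x x) = pullJ (par x) (Q.J 0) (chartAt E x x)) :
    ∃ C > 0, ∀ᶠ q in 𝓝 ((0 : ℝ), chartAt E x x), ∀ L : ℂ →L[ℝ] E, L .I = Jl q (L 1) →
      (‖fderiv ℝ ιl q‖ * ‖L‖) ^ 2 ≤ C * pull2 (par x) c.om q.2 (L 1) (L .I) := by
  have ht := mem_chart_target E x
  have hp : par x (chartAt E x x) = x := (chartAt E x).left_inv (mem_chart_source E x)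
  have hom : ContDiffAt ℝ ∞ (fun q : ℝ × E => pull2 (par x) c.om q.2) (0, chartAt E x x) :=
    ContDiffAt.comp (g := pull2 (par x) c.om) (f := Prod.snd) _
      (pull2_smooth isOpen_univ c.hom.1 (par_smooth x ht) (mem_univ _)) contDiffAt_snd
  obtain ⟨m, hm, h4⟩ := pos_near (contDiffAt_bil hom
    (contDiffAt_const (c := ContinuousLinearMap.id ℝ E)) h2).continuousAt fun v hv => by
      simp only [ContinuousLinearMap.bilinearComp_apply, pull2, h3, par_pullJ x ht, hp,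
        ContinuousLinearMap.id_apply, Q.J0 x hx]
      exact ((O.tame.1 x hx _).2 fun h0 => hv ((par_inv x ht).injective (by rw [h0, map_zero])))
  have h5 := ((h1.fderiv_right (m := 0) (by simp)).continuousAt.norm).eventually_le_const
    (lt_add_one _)
  have h6 := h2.continuousAt.norm.eventually_le_const (lt_add_one _)
  set A := ‖fderiv ℝ ιl (0, chartAt E x x)‖ + 1
  set B := ‖Jl (0, chartAt E x x)‖ + 1
  have hA : 0 < A := by positivity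
  have hB : 0 < B := by positivity
  refine ⟨(A * (1 + B)) ^ 2 / m, by positivity, ?_⟩
  filter_upwards [h4, h5, h6] with q q4 q5 q6 L hL
  have e1 : ‖L‖ ≤ (1 + B) * ‖L 1‖ := by
    have := (Jl q).le_of_opNorm_le q6 (L 1)
    have := norm_le_one_I L
    rw [hL] at this
    linarith
  have e2 := q4 (L 1)
  simp only [ContinuousLinearMap.bilinearComp_apply, ContinuousLinearMap.id_apply, ← hL] at e2
  calc _ ≤ (A * ((1 + B) * ‖L 1‖)) ^ 2 := by gcongr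
    _ = (A * (1 + B)) ^ 2 / m * (m * ‖L 1‖ ^ 2) := by field_simp
    _ ≤ _ := by gcongr

theorem exists_ch {x : X} (hx : x ∈ O.W) : Nonempty (Q.Ch x) := by
  obtain ⟨ιl, Jl, hi, hq⟩ := Q.loc x hx
  obtain ⟨s1, s2, -, s4⟩ := hq.self_of_nhds
  obtain ⟨C, hC, hen⟩ := Q.exists_en hx s1 s2 (s4 Q.I0).2
  set q₀ : ℝ × E := (0, chartAt E x x) with hq₀
  set D := fderiv ℝ ιl q₀
  obtain ⟨A', hA'⟩ := ((D.comp (ContinuousLinearMap.inr ℝ ℝ E)).toLinearMap).exists_leftInverse_of_injective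
    (LinearMap.ker_eq_bot'.2 hi)
  let A : V →L[ℝ] E := A'.toContinuousLinearMap
  have hA : ∀ v, A (D (0, v)) = v := fun v => LinearMap.congr_fun hA' v
  let b : ℝ →L[ℝ] E := A.comp (D.comp (ContinuousLinearMap.inl ℝ ℝ E))
  let f' : (ℝ × E) ≃L[ℝ] ℝ × E :=
    (ContinuousLinearEquiv.refl ℝ ℝ).skewProd (ContinuousLinearEquiv.refl ℝ E) b
  have hf' : HasFDerivAt (fun q : ℝ × E => (q.1, A (ιl q))) (f' : ℝ × E →L[ℝ] ℝ × E) q₀ := by
    refine (hasFDerivAt_fst.prodMk (A.hasFDerivAt.comp q₀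
      (s1.differentiableAt (by simp)).hasFDerivAt)).congr_fderiv ?_
    refine ContinuousLinearMap.ext fun ⟨s, v⟩ => Prod.ext rfl ?_
    show A (D (s, v)) = v + A (D (s, 0))
    rw [← hA v, ← map_add, ← map_add, hA v]
    simp
  obtain ⟨Θ, hΘ, hs, hsm⟩ := exists_smooth_inv (hq.mono fun q h =>
    contDiffAt_fst.prodMk (A.contDiff.contDiffAt.comp q h.1)) f' hf'
  have ht : ∀ᶠ q in 𝓝 q₀, q.2 ∈ (chartAt E x).target :=
    continuousAt_snd.eventually ((chartAt E x).open_target.mem_nhds (mem_chart_target E x))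
  obtain ⟨U, hU, oU, mU⟩ := _root_.eventually_nhds_iff.1
    (hq.and (hen.and (ht.and (Θ.open_source.mem_nhds hs))))
  have hp : par x (chartAt E x x) = x := (chartAt E x).left_inv (mem_chart_source E x)
  let a : ℝ × V → ℝ × E := fun e => (e.1, A e.2)
  have ha : ContDiff ℝ ∞ a := by fun_prop
  have h0 : a (Q.κ (0, x)) = Θ q₀ := by
    rw [hΘ]
    exact Prod.ext rfl (congrArg A ((s4 Q.I0).1.trans (by rw [hp]; rfl)).symm)
  have ca : Tendsto a (𝓝 (Q.κ (0, x))) (𝓝 (Θ q₀)) := h0 ▸ ha.continuous.continuousAt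
  have oW : IsOpen {p : ℝ × X | p.2 ∈ (chartAt E x).source ∧ (p.1, chartAt E x p.2) ∈ U} :=
    ContinuousOn.isOpen_inter_preimage (f := fun p : ℝ × X => (p.1, chartAt E x p.2))
      (s := Prod.snd ⁻¹' (chartAt E x).source) (continuousOn_fst.prodMk
        ((chartAt E x).continuousOn.comp continuousOn_snd fun _ h => h))
      ((chartAt E x).open_source.preimage continuous_snd) oU
  have hsm' : ∀ᶠ b in 𝓝 (Θ q₀), ContDiffAt ℝ ∞ Θ.symm b := by rw [hΘ]; exact hsm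
  obtain ⟨N, hN, oN, mN⟩ := _root_.eventually_nhds_iff.1 ((ca.eventually (hsm'.and
    ((Θ.eventually_right_inverse (Θ.map_source hs)).and
      ((Θ.tendsto_symm hs).eventually (oU.mem_nhds mU))))).and (Q.shrink oW fun t _ y h => by
        obtain ⟨rfl, rfl⟩ := Q.κ_eq hx h
        exact ⟨mem_chart_source E _, mU⟩))
  refine ⟨⟨N, U, fun e => (Θ.symm (a e)).2, ιl, Jl, C, oN, oU, mN,
    fun e he => contDiffAt_snd.comp e ((hN e he).1.1.comp e ha.contDiffAt),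
    fun q h => (hU q h).1.1, fun q h => (hU q h).1.2.1, fun e he => ?_,
    fun q h => (hU q h).2.2.1, fun q h => (hU q h).1.2.2.1, fun q h h' => ((hU q h).1.2.2.2 h').1,
    fun q h h' => ((hU q h).1.2.2.2 h').2, fun t ht y hy => ?_, hC, fun q h => (hU q h).2.1⟩⟩
  · have h1 : (Θ.symm (a e)).1 = e.1 := by
      have := congrArg Prod.fst (hN e he).1.2.1
      rwa [hΘ] at this
    rw [← h1]
    exact (hN e he).1.2.2
  · obtain ⟨h1, h2⟩ := (hN _ hy).2 t ht y rfl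
    refine ⟨h1, ?_⟩
    have : a (Q.κ (t, y)) = Θ (t, chartAt E x y) := by
      rw [hΘ]
      exact Prod.ext rfl (congrArg A (((hU _ h2).1.2.2.2 ht).1.trans
        (congrArg (fun w => Q.ι (t, w)) ((chartAt E x).left_inv h1))).symm)
    show (Θ.symm (a _)).2 = _
    rw [this, Θ.left_inv (hU _ h2).2.2.2]

variable {Q}

/-- A curve, read in a chart. -/
theorem Ch.germ {x : X} (H : Q.Ch x) {t : ℝ} (ht : t ∈ Q.I) {u : ℂ → X} {z : ℂ}
    (hu : ContMDiffAt 𝓘(ℝ, ℂ) 𝓘(ℝ, E) ∞ u z) (hz : Q.κ (t, u z) ∈ H.N) :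
    ContDiffAt ℝ ∞ (chartAt E x ∘ u) z ∧ (t, chartAt E x (u z)) ∈ H.U ∧
      par x (chartAt E x (u z)) = u z ∧
      dif u z = (dif (par x) (chartAt E x (u z))).comp (fderiv ℝ (chartAt E x ∘ u) z) ∧
      ((fun w => Q.κ (t, u w)) =ᶠ[𝓝 z] fun w => (t, H.ιl (t, chartAt E x (u w)))) ∧
      (fun w => H.g (Q.κ (t, u w))) =ᶠ[𝓝 z] chartAt E x ∘ u := by
  have h1 : ∀ᶠ w in 𝓝 z, Q.κ (t, u w) ∈ H.N :=
    ((Q.κ_slice ht).continuousAt.comp hu.continuousAt).eventually (H.opN.mem_nhds hz)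
  have h2 : ∀ y, Q.κ (t, y) ∈ H.N → (t, chartAt E x y) ∈ H.U := fun y hy =>
    (H.left t ht y hy).2 ▸ H.maps _ hy
  obtain ⟨h3, h4⟩ := plot_chart hu (H.left t ht _ hz).1
  refine ⟨h3, h2 _ hz, (chartAt E x).left_inv (H.left t ht _ hz).1, h4.self_of_nhds.2,
    h1.mono fun w hw => Prod.ext rfl ?_, h1.mono fun w hw => (H.left t ht _ hw).2⟩
  exact ((H.eqι _ (h2 _ hw) ht).trans
    (congrArg (fun y => Q.ι (t, y)) ((chartAt E x).left_inv (H.left t ht _ hw).1))).symm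

end Pre

end Pool.Agent.Lib.MP_1c0d65_gt.PW
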