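import Pool.Agent.Lib.MP_1c0d65_gt.F.PreA

/-! The target of a family. -/

set_option autoImplicit false
set_option linter.unusedSectionVars false

open scoped Manifold ContDiff Topology
open Set MeasureTheory Filter Metric

noncomputable section

namespace Pool.Agent.Lib.MP_1c0d65_gt.PW

open Emb

/-- The complex structure on the space of coordinates. -/
def jF (A : E →L[ℝ] E) : FF →L[ℝ] FF :=
  (Complex.I • ContinuousLinearMap.id ℝ ℂ).prodMap
    (A.prodMap (Complex.I • ContinuousLinearMap.id ℝ C5))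

theorem jF_apply (A : E →L[ℝ] E) (v : FF) :
    jF A v = (Complex.I • v.1, A v.2.1, Complex.I • v.2.2) := rfl

theorem jF_sq {A : E →L[ℝ] E} (h : ∀ v, A (A v) = -v) (v : FF) : jF A (jF A v) = -v := by
  simp only [jF_apply, h, smul_smul, Complex.I_mul_I, neg_smul, one_smul]
  rfl

variable {X : Type} [TopologicalSpace X] [ChartedSpace E X] [IsManifold 𝓘(ℝ, E) ∞ X]
  [T2Space X] [CompactSpace X] [MeasurableSpace X] {c : Ctx X} {O : Orb c}
  {V : Type} [NormedAddCommGroup V] [NormedSpace ℝ V] [FiniteDimensional ℝ V]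

namespace Pre

variable (Q : Pre V O)

/-- A chart of the total space at a singular point. -/
structure Sg (i : Fin O.n) where
  N : Set (ℝ × V)
  π : V →L[ℝ] C5
  σ : C5 →L[ℝ] V
  C : ℝ
  opN : IsOpen N
  mem : (0, Q.P i) ∈ N
  hC : 0 < C
  inv : ∀ t ∈ Q.I, ∀ x, Q.κ (t, x) ∈ N → Q.ι (t, x) = Q.P i + σ (π (Q.ι (t, x) - Q.P i))
  hol : ∀ t ∈ Q.I, t ≠ 0 → ∀ u S, IsOpen S → Hol (Q.J t) u S → ∀ z ∈ S, Q.κ (t, u z) ∈ N →
    ContDiffAt ℝ 1 (fun w => Q.ι (t, u w)) z ∧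
      DifferentiableAt ℂ (fun w => π (Q.ι (t, u w))) z ∧
      ‖fderiv ℝ (fun w => Q.ι (t, u w)) z‖ ^ 2 ≤ C * pull2 u c.om z 1 .I

theorem exists_sg (i : Fin O.n) : Nonempty (Q.Sg i) := by
  obtain ⟨π, σ, C, N, hN, hC, h⟩ := Q.sing i
  exact ⟨⟨interior N, π, σ, C, isOpen_interior, mem_interior_iff_mem_nhds.2 hN, hC,
    fun t ht x hx => (h t ht).1 x (interior_subset hx),
    fun t ht h0 u S hS hu z hz hx => (h t ht).2 h0 u S hS hu z hz (interior_subset hx)⟩⟩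

variable {Q} (ch : ∀ x : O.W, Q.Ch x) (sg : ∀ i, Q.Sg i)

/-- The domains of the charts. -/
def dm : O.W ⊕ Fin O.n → Set (ℝ × V) := Sum.elim (fun x => (ch x).N) fun i => (sg i).N

/-- The constants of the charts. -/
def cst : O.W ⊕ Fin O.n → ℝ := Sum.elim (fun x => (ch x).C) fun i => (sg i).C

theorem dm_open : ∀ k, IsOpen (dm ch sg k)
  | .inl x => (ch x).opN
  | .inr i => (sg i).opN

theorem cst_pos : ∀ k, 0 < cst ch sg k
  | .inl x => (ch x).hC
  | .inr i => (sg i).hC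

theorem dm_cov (x : X) : ∃ k, Q.κ (0, x) ∈ dm ch sg k := by
  by_cases hx : x ∈ O.W
  · exact ⟨.inl ⟨x, hx⟩, (ch ⟨x, hx⟩).mem⟩
  · obtain ⟨i, hi⟩ := mem_iUnion.1 (not_not.1 hx)
    exact ⟨.inr i, by rw [κ, Q.onL i x hi]; exact (sg i).mem⟩

theorem exists_fin : ∃ (s : Finset (O.W ⊕ Fin O.n)) (r : ℝ), 0 < r ∧
    ∀ t ∈ Q.I ∩ closedBall 0 r, ∀ x, ∃ k ∈ s, Q.κ (t, x) ∈ dm ch sg k := by
  obtain ⟨s, hs⟩ := (isCompact_range (Q.κ_slice Q.I0)).elim_finite_subcover _ (dm_open ch sg)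
    (by rintro _ ⟨x, rfl⟩; exact mem_iUnion.2 (dm_cov ch sg x))
  obtain ⟨r, hr, h⟩ := nhds_basis_closedBall.eventually_iff.1
    (Q.tube (isOpen_biUnion fun k _ => dm_open ch sg k) fun x => hs ⟨x, rfl⟩)
  exact ⟨s, r, hr, fun t ht x => by simpa using h ht.2 ht.1 x⟩

/-- The target. -/
def tg {r : ℝ} (hr : ∀ t ∈ Q.I ∩ closedBall 0 r, ∀ x, ∃ k, Q.κ (t, x) ∈ dm ch sg k) :
    Tg (ℝ × V) FF where
  K := Q.κ '' ((Q.I ∩ closedBall 0 r) ×ˢ univ)
  cpt := ((Q.cI.inter_right isClosed_closedBall).prod isCompact_univ).image_of_continuousOn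
    (Q.κ_cont.mono (prod_mono inter_subset_left subset_rfl))
  ι := O.W ⊕ Fin O.n
  O := dm ch sg
  W := Sum.elim (fun x => {y | (y.1.re, y.2.1) ∈ (ch x).U}) fun _ => univ
  g := Sum.elim (fun x e => ((e.1 : ℂ), (ch x).g e, 0))
    fun i e => ((e.1 : ℂ), 0, (sg i).π (e.2 - Q.P i))
  h := Sum.elim (fun x y => (y.1.re, (ch x).ιl (y.1.re, y.2.1)))
    fun i y => (y.1.re, Q.P i + (sg i).σ y.2.2)
  J := Sum.elim (fun x y => jF ((ch x).Jl (y.1.re, y.2.1)))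
    fun _ _ => jF (Complex.I • ContinuousLinearMap.id ℝ E)
  opO := dm_open ch sg
  opW := by
    rintro (x | i)
    exacts [(ch x).opU.preimage (by fun_prop), isOpen_univ]
  cov := by
    rintro _ ⟨⟨t, x⟩, h, rfl⟩
    exact hr t h.1 x
  smg := by
    have h : ContDiff ℝ ∞ fun e : ℝ × V => (e.1 : ℂ) := Complex.ofRealCLM.contDiff.comp contDiff_fst
    rintro (x | i)
    · exact fun e he => (h.contDiffAt.prodMk
        (((ch x).smg e he).prodMk contDiffAt_const)).contDiffWithinAt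
    · exact (h.prodMk (contDiff_const.prodMk ((sg i).π.contDiff.comp
        (contDiff_snd.sub contDiff_const)))).contDiffOn
  smh := by
    have h : ContDiff ℝ ∞ fun y : FF => y.1.re := Complex.reCLM.contDiff.comp contDiff_fst
    rintro (x | i)
    · exact fun y hy => (h.contDiffAt.prodMk (((ch x).smι _ hy).comp y
        (h.prodMk contDiff_snd.fst).contDiffAt)).contDiffWithinAt
    · exact (h.prodMk (contDiff_const.add ((sg i).σ.contDiff.comp contDiff_snd.snd))).contDiffOn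
  smJ := by
    have h : ContDiff ℝ ∞ fun y : FF => y.1.re := Complex.reCLM.contDiff.comp contDiff_fst
    rintro (x | i)
    · refine contDiffOn_clm_apply.2 fun v y hy => ContDiffAt.contDiffWithinAt ?_
      exact contDiffAt_const.prodMk (((((ch x).smJ _ hy).comp y
        (h.prodMk contDiff_snd.fst).contDiffAt).clm_apply contDiffAt_const).prodMk contDiffAt_const)
    · exact contDiffOn_const
  maps := by
    rintro (x | i) e he
    exacts [(ch x).maps e he, mem_univ _]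
  inv := by
    rintro (x | i) _ he ⟨⟨t, y⟩, h, rfl⟩
    · obtain ⟨h1, h2⟩ := (ch x).left t h.1.1 y he
      refine Prod.ext rfl (((ch x).eqι _ ((ch x).maps _ he) h.1.1).trans ?_)
      show Q.ι (t, par x.1 ((ch x).g _)) = Q.ι (t, y)
      rw [h2, par, (chartAt E x.1).left_inv h1]
    · exact Prod.ext rfl ((sg i).inv t h.1.1 y he).symm
  sq := by
    rintro (x | i) y hy
    · exact jF_sq ((ch x).sq _ hy)
    · exact jF_sq fun v => by simp [smul_smul]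

variable {ch sg}

theorem Ch.cr {x : X} (H : Q.Ch x) {t : ℝ} (ht : t ∈ Q.I) {u : ℂ → X} {S : Set ℂ} (hS : IsOpen S)
    (hu : Hol (Q.J t) u S) {z : ℂ} (hz : z ∈ S) (hN : Q.κ (t, u z) ∈ H.N) :
    fderiv ℝ (chartAt E x ∘ u) z .I =
      H.Jl (t, chartAt E x (u z)) (fderiv ℝ (chartAt E x ∘ u) z 1) := by
  obtain ⟨-, h2, h3, h4, -⟩ := H.germ ht (hu.1.contMDiffAt (hS.mem_nhds hz)) hN
  refine (par_inv x (H.tgt _ h2)).injective ?_
  have := hu.2 z hz
  rw [h4] at this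
  rw [H.eqJ _ h2 ht, par_pullJ x (H.tgt _ h2), h3]
  exact this

theorem Ch.est {x : X} (H : Q.Ch x) {t : ℝ} (ht : t ∈ Q.I) {u : ℂ → X} {S : Set ℂ} (hS : IsOpen S)
    (hu : Hol (Q.J t) u S) {z : ℂ} (hz : z ∈ S) (hN : Q.κ (t, u z) ∈ H.N) :
    ContDiffAt ℝ 1 (fun w => Q.ι (t, u w)) z ∧
      ‖fderiv ℝ (fun w => Q.ι (t, u w)) z‖ ^ 2 ≤ H.C * pull2 u c.om z 1 .I := by
  obtain ⟨h1, h2, h3, h4, h5, -⟩ := H.germ ht (hu.1.contMDiffAt (hS.mem_nhds hz)) hN
  have h6 : (fun w => Q.ι (t, u w)) =ᶠ[𝓝 z] H.ιl ∘ fun w => (t, (chartAt E x ∘ u) w) :=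
    h5.mono fun w hw => congrArg Prod.snd hw
  refine ⟨(((H.smι _ h2).comp z (contDiffAt_const.prodMk h1)).congr_of_eventuallyEq h6).of_le
    (by simp), ?_⟩
  have h7 := ((H.smι _ h2).differentiableAt (by simp)).hasFDerivAt.comp z
    ((hasFDerivAt_const t z).prodMk (h1.differentiableAt (by simp)).hasFDerivAt)
  have h8 := H.en _ h2 _ (H.cr ht hS hu hz hN)
  have h9 : pull2 u c.om z 1 .I = pull2 (par x) c.om (chartAt E x (u z))
      (fderiv ℝ (chartAt E x ∘ u) z 1) (fderiv ℝ (chartAt E x ∘ u) z .I) := by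
    simp only [pull2, ContinuousLinearMap.bilinearComp_apply, h3, h4,
      ContinuousLinearMap.comp_apply]
  rw [h6.fderiv_eq, h7.fderiv, h9]
  refine le_trans ?_ h8
  gcongr
  refine (ContinuousLinearMap.opNorm_comp_le _ _).trans (le_of_eq ?_)
  simp [ContinuousLinearMap.opNorm_prod]

theorem est {t : ℝ} (ht : t ∈ Q.I) (h0 : O.n = 0 ∨ t ≠ 0) {u : ℂ → X} {S : Set ℂ} (hS : IsOpen S)
    (hu : Hol (Q.J t) u S) {z : ℂ} (hz : z ∈ S) : ∀ k, Q.κ (t, u z) ∈ dm ch sg k →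
      ContDiffAt ℝ 1 (fun w => Q.κ (t, u w)) z ∧
        ‖fderiv ℝ (fun w => Q.κ (t, u w)) z‖ ^ 2 ≤ cst ch sg k * pull2 u c.om z 1 .I := by
  intro k hk
  have : ContDiffAt ℝ 1 (fun w => Q.ι (t, u w)) z ∧
      ‖fderiv ℝ (fun w => Q.ι (t, u w)) z‖ ^ 2 ≤ cst ch sg k * pull2 u c.om z 1 .I := by
    rcases k with x | i
    · exact (ch x).est ht hS hu hz hk
    · have := (sg i).hol t ht (h0.resolve_left (by have := i.2; omega)) u S hS hu z hz hk
      exact ⟨this.1, this.2.2⟩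
  refine ⟨contDiffAt_const.prodMk this.1, le_trans (le_of_eq ?_) this.2⟩
  have h7 := (hasFDerivAt_const t z).prodMk (this.1.differentiableAt one_ne_zero).hasFDerivAt
  rw [show fderiv ℝ (fun w => Q.κ (t, u w)) z = _ from h7.fderiv]
  simp [ContinuousLinearMap.opNorm_prod]

variable {r : ℝ} (hr : ∀ t ∈ Q.I ∩ closedBall 0 r, ∀ x, ∃ k, Q.κ (t, x) ∈ dm ch sg k)

theorem tg_hol {t : ℝ} (ht : t ∈ Q.I ∩ closedBall 0 r) (h0 : O.n = 0 ∨ t ≠ 0) {u : ℂ → X}
    {S : Set ℂ} (hS : IsOpen S) (hu : Hol (Q.J t) u S) {z : ℂ} (hz : z ∈ S) :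
    (tg ch sg hr).Hol (fun w => Q.κ (t, u w)) z := by
  obtain ⟨k, hk⟩ := hr t ht (u z)
  refine ⟨⟨(t, u z), ⟨ht, mem_univ _⟩, rfl⟩, (est ht.1 h0 hS hu hz k hk).1, ?_⟩
  rintro (x | i) hN
  · obtain ⟨h1, -, -, -, -, h6⟩ := (ch x).germ ht.1 (hu.1.contMDiffAt (hS.mem_nhds hz)) hN
    have h7 := (hasFDerivAt_const (t : ℂ) z).prodMk
      (((h1.differentiableAt (by simp)).hasFDerivAt.congr_of_eventuallyEq h6).prodMk
        (hasFDerivAt_const (0 : C5) z))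
    have h8 := (ch x).cr ht.1 hS hu hz hN
    rw [← show (ch x).g (Q.κ (t, u z)) = chartAt E x.1 (u z) from h6.eq_of_nhds] at h8
    unfold CR
    rw [show fderiv ℝ ((tg ch sg hr).g (.inl x) ∘ fun w => Q.κ (t, u w)) z = _ from h7.fderiv]
    exact Prod.ext (smul_zero (A := ℂ) Complex.I).symm
      (Prod.ext h8 (smul_zero (A := C5) Complex.I).symm)
  · have h1 := ((sg i).hol t ht.1 (h0.resolve_left (by have := i.2; omega)) u S hS hu z hz hN).2.1
    have h2 : HasFDerivAt (fun w => (sg i).π (Q.ι (t, u w) - Q.P i))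
        ((fderiv ℂ (fun w => (sg i).π (Q.ι (t, u w))) z).restrictScalars ℝ) z := by
      simpa only [map_sub] using (h1.hasFDerivAt.restrictScalars ℝ).sub_const ((sg i).π (Q.P i))
    have h7 := (hasFDerivAt_const (t : ℂ) z).prodMk ((hasFDerivAt_const (0 : E) z).prodMk h2)
    unfold CR
    rw [show fderiv ℝ ((tg ch sg hr).g (.inr i) ∘ fun w => Q.κ (t, u w)) z = _ from h7.fderiv]
    refine Prod.ext (smul_zero (A := ℂ) Complex.I).symm
      (Prod.ext (smul_zero (A := E) Complex.I).symm ?_)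
    have := map_smul (fderiv ℂ (fun w => (sg i).π (Q.ι (t, u w))) z) Complex.I (1 : ℂ)
    rwa [smul_eq_mul, mul_one] at this

theorem tg_back {ρ : ℝ × V → X} (hρ : ∀ x ∈ O.W, ρ (Q.κ (0, x)) = x) {w : ℂ → ℝ × V} {S : Set ℂ}
    (hS : IsOpen S) (h : ∀ z ∈ S, (tg ch sg hr).Hol w z ∧ w z ∈ (fun x => Q.κ (0, x)) '' O.W)
    (hw : ∀ z ∈ S, ContDiffAt ℝ ∞ w z) : Hol O.J (ρ ∘ w) S := by
  have key : ∀ z ∈ S, ContMDiffAt 𝓘(ℝ, ℂ) 𝓘(ℝ, E) ∞ (ρ ∘ w) z ∧
      dif (ρ ∘ w) z .I = O.J ((ρ ∘ w) z) (dif (ρ ∘ w) z 1) := fun z hz => by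
    obtain ⟨x, hx, e⟩ := (h z hz).2
    replace e : Q.κ (0, x) = w z := e
    set H := ch ⟨x, hx⟩
    have hN : w z ∈ H.N := e ▸ H.mem
    have h1 : ρ ∘ w =ᶠ[𝓝 z] par x ∘ H.g ∘ w := by
      filter_upwards [hS.mem_nhds hz, (hw z hz).continuousAt.eventually (H.opN.mem_nhds hN)]
        with y hy hy'
      obtain ⟨x', hx', e'⟩ := (h y hy).2
      replace e' : Q.κ (0, x') = w y := e'
      obtain ⟨a1, a2⟩ := H.left 0 Q.I0 x' (e' ▸ hy')
      simp only [Function.comp_apply, ← e', hρ x' hx', a2]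
      exact ((chartAt E x).left_inv a1).symm
    have h2 : ContDiffAt ℝ ∞ (H.g ∘ w) z := (H.smg _ hN).comp z (hw z hz)
    have hU := H.maps _ hN
    have h3 := par_smooth x (H.tgt _ hU)
    refine ⟨(h3.comp z h2.contMDiffAt).congr_of_eventuallyEq h1, ?_⟩
    have h4 := (Complex.ofRealCLM.hasFDerivAt.comp z
      ((hw z hz).differentiableAt (by simp)).hasFDerivAt.fst).prodMk
      ((h2.differentiableAt (by simp)).hasFDerivAt.prodMk (hasFDerivAt_const (0 : C5) z))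
    have h5 := (h z hz).1.2.2 (.inl ⟨x, hx⟩) hN
    unfold CR at h5
    rw [show fderiv ℝ ((tg ch sg hr).g (.inl ⟨x, hx⟩) ∘ w) z = _ from h4.fderiv] at h5
    have h6 : fderiv ℝ (H.g ∘ w) z .I = H.Jl ((w z).1, H.g (w z)) (fderiv ℝ (H.g ∘ w) z 1) :=
      congrArg (fun v : FF => v.2.1) h5
    have h7 : (w z).1 = 0 := by rw [← e]; rfl
    have h8 : (ρ ∘ w) z = x := by rw [Function.comp_apply, ← e, hρ x hx]
    have h9 : par x (H.g (w z)) = x := h1.eq_of_nhds.symm.trans h8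
    rw [dif_congr h1, dif_comp (g := H.g ∘ w) (h3.mdifferentiableAt (by simp))
      (h2.differentiableAt (by simp)),
      h8, ContinuousLinearMap.comp_apply, h6, H.eqJ _ hU (h7 ▸ Q.I0)]
    refine (par_pullJ x (H.tgt _ hU) _ _).trans ?_
    simp only [h7, h9, Q.J0 x hx]
    rfl
  exact ⟨fun z hz => (key z hz).1.contMDiffWithinAt, fun z hz => (key z hz).2⟩

end Pre

end Pool.Agent.Lib.MP_1c0d65_gt.PW
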